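import Pool.Agent.H59Z.NA.St

set_option autoImplicit false

/-!
# Small cancellation towers: definitions and statements of the independent steps
-/

namespace Pool.Agent.SCZ.Grp

open Pool.Agent.H59Z.NA

section defs

variable {V : Type} (X : GM V) {Q : Type} [Group Q] [MulAction Q V]

/-- `z` lies between `a` and `b` up to the error `E`. -/
def Btw (E : ℕ) (a z b : V) : Prop := X.d a z + X.d z b ≤ X.d a b + E

/-- `z` lies on the axis of `r` up to the error `E`. -/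
def OnAx (r : Q) (E : ℕ) (z : V) : Prop :=
  ∃ (y : V) (N₀ : ℕ), ∀ N, N₀ ≤ N → Btw X E ((r ^ N)⁻¹ • y) z (r ^ N • y)

/-- The subgroup has a bounded orbit. -/
def Bdd (H : Subgroup Q) : Prop := ∃ (p : V) (r : ℕ), ∀ h ∈ H, X.d p (h • p) ≤ r

/-- `u` and its square move `p` by at most `s`. -/
def Sm (s : ℕ) (p : V) (u : Q) : Prop := X.d p (u • p) ≤ s ∧ X.d p ((u * u) • p) ≤ s

/-- `x` is a point on the quasi-axis of all elements commuting with `h`. -/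
def Axis (δ : ℕ) (h : Q) (x : V) : Prop :=
  ∀ c : Q, Commute c h → (X.d x (c • x) : ℝ) ≤ X.tau c + 12 * δ

/-- Translates of the axis of `r` overlap along less than `Δ`. -/
def Ov (r : Q) (E Δ : ℕ) : Prop :=
  ∀ (g : Q) (p q : V), OnAx X r E p → OnAx X r E q → OnAx X r E (g⁻¹ • p) →
    OnAx X r E (g⁻¹ • q) → Δ ≤ X.d p q → g ∈ Subgroup.zpowers r

variable (Q)

/-- Centralisers of loxodromic elements are cyclic and malnormal. -/
def CM : Prop := ∀ u : Q, 0 < X.tau u →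
  (∃ g : Q, ∀ a : Q, Commute a u → a ∈ Subgroup.zpowers g) ∧
  ∀ t : Q, Commute u (t * u * t⁻¹) → Commute t u

/-- Acylindricity at all scales. -/
def AcA (A : ℕ) : Prop := ∀ D : ℕ, X.Acyl Q D (A + 20 * D)

end defs

/-- Almost fixed points of bounded subgroups. -/
def S_fix : Prop := ∀ (Q V : Type) [Group Q] [MulAction Q V] (X : GM V) (δ : ℕ),
  X.Inv Q → X.Four δ → ∀ H : Subgroup Q, Bdd X H →
  ∃ q : V, ∀ h ∈ H, X.d q (h • q) ≤ 2 * δ + 2

/-- The family of lines of one long relator. -/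
def S_long : Prop := ∀ (Q V : Type) [Group Q] [MulAction Q V] (X : GM V) (δ L Δ : ℕ) (r : Q),
  X.Inv Q → X.Four δ → 1 ≤ δ → Δ + 5000 * δ ≤ L → (10 ^ 9 : ℝ) * L ≤ X.tau r →
  Ov X r (1000 * δ) Δ →
  ∃ (I : Type) (_ : MulAction Q I) (F : Fam Q V I X L),
    (∀ i, F.mu i = 1 ∧ ∃ t : Q, F.gen i = t * r * t⁻¹) ∧ ∃ i, F.gen i = r

/-- A short loxodromic element in an unbounded non-commutative two-generated subgroup. -/
def S_w1 : Prop := ∀ (Q V : Type) [Group Q] [MulAction Q V] (X : GM V) (δ A D : ℕ) (a b : Q)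
  (o : V), X.Inv Q → X.Four δ → AcA X Q A → ¬ Commute a b →
  ¬ Bdd X (Subgroup.closure {a, b}) → X.d o (a • o) ≤ D → X.d o (b • o) ≤ D →
  ∃ h ∈ Subgroup.closure {a, b}, 1 ≤ X.tau h ∧ X.d o (h • o) ≤ 2 * A + 100 * D + 300 * δ + 10

/-- The axis passes near a point which is moved by little. -/
def S_w2 : Prop := ∀ (Q V : Type) [Group Q] [MulAction Q V] (X : GM V) (δ D : ℕ) (h : Q) (o : V),
  X.Inv Q → X.Four δ → 1 ≤ δ → 1 ≤ X.tau h → X.d o (h • o) ≤ D →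
  ∃ x : V, Axis X δ h x ∧ X.d o x ≤ 1000 * δ * (D + 1) ^ 2

/-- The data of a long word `∏ s k * h ^ ex k`; `g k` is the prefix of length `k`. -/
structure Word (Q V : Type) [Group Q] [MulAction Q V] (X : GM V) (δ A U e : ℕ) (h : Q) (x : V)
    (s : ℕ → Q) (ex : ℕ → ℕ) (g : ℕ → Q) : Prop where
  inv : X.Inv Q
  four : X.Four δ
  hδ : 1 ≤ δ
  aca : AcA X Q A
  cm : CM X Q
  tau1 : 1 ≤ X.tau h
  tauU : X.tau h ≤ U
  axis : Axis X δ h x
  ncomm : ∀ k, ¬ Commute (s k) h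
  sU : ∀ k, X.d x (s k • x) ≤ U
  AU : A ≤ U
  δU : 2000 * δ ≤ U
  eU : 10 ^ 6 * U ≤ e
  hex : ∀ k, e ≤ ex k ∧ ex k ≤ 2 * e
  hg : ∀ k, g (k + 1) = g k * s k * h ^ ex k

/-- The prefixes of a long word form a quasi-geodesic. -/
def S_w3 : Prop := ∀ (Q V : Type) [Group Q] [MulAction Q V] (X : GM V) (δ A U e : ℕ) (h : Q)
  (x : V) (s : ℕ → Q) (ex : ℕ → ℕ) (g : ℕ → Q), Word Q V X δ A U e h x s ex g →
  (∀ i j k, i ≤ j → j ≤ k → Btw X (300 * U) (g i • x) (g j • x) (g k • x)) ∧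
  ∀ i k : ℕ, (k : ℝ) * (9 / 10 * e * X.tau h) ≤ X.d (g i • x) (g (i + k) • x)

/-- Two translates of a long word with a long overlap have seven consecutive matching blocks. -/
def S_w5 : Prop := ∀ (Q V : Type) [Group Q] [MulAction Q V] (X : GM V) (δ A U e : ℕ) (h : Q)
  (x : V) (s : ℕ → Q) (ex : ℕ → ℕ) (g : ℕ → Q), Word Q V X δ A U e h x s ex g →
  ∀ (G₁ G₂ : Q) (M : ℕ) (p q : V),
  Btw X U ((G₁ * g 0) • x) p ((G₁ * g M) • x) → Btw X U ((G₁ * g 0) • x) q ((G₁ * g M) • x) →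
  Btw X U ((G₂ * g 0) • x) p ((G₂ * g M) • x) → Btw X U ((G₂ * g 0) • x) q ((G₂ * g M) • x) →
  40 * e * X.tau h ≤ X.d p q →
  ∃ k j : ℕ, ∀ i, i < 7 → Commute ((G₁ * g (k + i + 1))⁻¹ * (G₂ * g (j + i + 1))) h

/-- Existence of small cancellation relators `t * w`, uniformly in the displacements. -/
def S_word : Prop := ∀ δ A D K : ℕ, ∃ Λ : ℕ, ∀ (Q V : Type) [Group Q] [MulAction Q V] (X : GM V)
  (a b t : Q) (o : V), X.Inv Q → X.Four δ → 1 ≤ δ → AcA X Q A → CM X Q → ¬ Commute a b →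
  ¬ Bdd X (Subgroup.closure {a, b}) → X.d o (a • o) ≤ D → X.d o (b • o) ≤ D →
  X.d o (t • o) ≤ D →
  ∃ w ∈ Subgroup.closure {a, b}, ∃ Δ : ℕ, Δ ≤ Λ ∧ A + D + 2000 * δ ≤ Δ ∧
    (K * Δ : ℝ) ≤ X.tau (t * w) ∧ Ov X (t * w) (1000 * δ) Δ

end Pool.Agent.SCZ.Grp
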