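import Pool.Agent.SCZ.Grp.St
import Pool.Agent.H59Z.NA.Ttau
import Pool.Agent.H59Z.NA.Taxis

set_option autoImplicit false

/-!
# Almost fixed points, short loxodromic elements, and axes near a point
-/

namespace Pool.Agent.SCZ.Grp

open Pool.Agent.H59Z.NA

namespace Tfix

variable {Q V : Type} [Group Q] [MulAction Q V] {X : GM V} {δ : ℕ}

theorem inv_left (hI : X.Inv Q) (g : Q) (x y : V) : X.d (g⁻¹ • x) y = X.d x (g • y) := by
  rw [← hI g (g⁻¹ • x) y, smul_inv_smul]

theorem four' (hF : X.Four δ) (x y z w : V) :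
    X.d x y + X.d z w ≤ X.d x z + X.d y w + δ ∨ X.d x y + X.d z w ≤ X.d x w + X.d y z + δ := by
  have h := hF x y z w
  rcases le_total (X.d x z + X.d y w) (X.d x w + X.d y z) with h1 | h1
  · rw [max_eq_right h1] at h; exact Or.inr h
  · rw [max_eq_left h1] at h; exact Or.inl h

/-- A criterion for loxodromic elements. -/
theorem lox_crit (hI : X.Inv Q) (hF : X.Four δ) (g : Q) (x : V)
    (h : X.d x (g • x) + δ + 1 ≤ X.d x (g ^ 2 • x)) : 1 ≤ X.tau g := by
  have hshift : ∀ (k j : ℕ), X.d (g ^ k • x) (g ^ (k + j) • x) = X.d x (g ^ j • x) := by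
    intro k j
    rw [pow_add, mul_smul, hI]
  have hstep : ∀ k : ℕ, X.d x (g ^ k • x) + 1 ≤ X.d x (g ^ (k + 1) • x) := by
    intro k
    induction k with
    | zero =>
      have h1 := X.tri x (g ^ 1 • x) (g ^ (1 + 1) • x)
      rw [hshift 1 1] at h1
      simp only [pow_zero, one_smul, X.self, zero_add]
      simp only [pow_one] at h1 ⊢
      have h2 : g ^ (1 + 1) = g ^ 2 := rfl
      rw [h2] at h1
      omega
    | succ k ih =>
      have h1 := four' hF x (g ^ (k + 1) • x) (g ^ k • x) (g ^ (k + 1 + 1) • x)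
      have h2 := hshift k 2
      have h3 := hshift (k + 1) 1
      have h4 := hshift k 1
      have h5 := X.comm (g ^ (k + 1) • x) (g ^ k • x)
      rw [pow_one] at h3 h4
      have h6 : k + 2 = k + 1 + 1 := rfl
      rw [h6] at h2
      omega
  have hall : ∀ m : ℕ, m ≤ X.d x (g ^ m • x) := by
    intro m
    induction m with
    | zero => omega
    | succ m ih => have := hstep m; omega
  refine (thm_tau Q V X hI).2.2.2.2.2.1 g x 1 0 ?_
  intro m
  have : (m : ℝ) ≤ X.d x (g ^ m • x) := by exact_mod_cast hall m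
  linarith

theorem not_lox (hI : X.Inv Q) (hF : X.Four δ) (g : Q) (o : V) (h : X.tau g < 1) :
    X.d (g⁻¹ • o) (g • o) ≤ X.d o (g • o) + δ := by
  by_contra hc
  have h1 := lox_crit hI hF g (g⁻¹ • o) (by
    have e1 : g • g⁻¹ • o = o := smul_inv_smul g o
    have e2 : g ^ 2 • g⁻¹ • o = g • o := by rw [pow_two, mul_smul, e1]
    rw [e1, e2, inv_left hI]
    omega)
  linarith

/-- The key estimate for a generator `s`. -/
theorem key (hI : X.Inv Q) (hF : X.Four δ) (g s : Q) (o y : V) (D m : ℕ)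
    (hs : X.d o (s • o) ≤ D) (hg : X.tau g < 1) (hgs : X.tau (g * s) < 1)
    (hl : 2 * m + 3 * D + 2 * δ ≤ X.d o (g • o)) (hy1 : X.d o y = m)
    (hy2 : m + X.d y (g⁻¹ • o) = X.d o (g⁻¹ • o)) : X.d y (s • y) ≤ D + 2 * δ := by
  have h1 := not_lox hI hF g o hg
  have h2 := not_lox hI hF (g * s) o hgs
  set P := g⁻¹ • o with hP
  set Ps := (g * s)⁻¹ • o with hPs
  have ePs : Ps = s⁻¹ • P := by rw [hPs, hP, mul_inv_rev, mul_smul]
  have e1 : X.d o P = X.d o (g • o) := by rw [X.comm, hP, inv_left hI]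
  have e2 : X.d o Ps = X.d o ((g * s) • o) := by rw [X.comm, hPs, inv_left hI]
  have e3 : X.d (g • o) ((g * s) • o) = X.d o (s • o) := by rw [mul_smul, hI]
  have t1 := X.tri o (g • o) ((g * s) • o)
  have t2 := X.tri o ((g * s) • o) (g • o)
  have c1 := X.comm ((g * s) • o) (g • o)
  have t3 := X.tri Ps ((g * s) • o) (g • o)
  have f1 := four' hF o (g • o) P Ps
  have c2 := X.comm (g • o) Ps
  have c3 := X.comm (g • o) P
  have f2 := four' hF y Ps o P
  have c4 := X.comm y o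
  have c5 := X.comm Ps P
  have c6 := X.comm Ps o
  have e4 : X.d (s⁻¹ • y) Ps = X.d y P := by rw [ePs, hI]
  have e5 : X.d (s⁻¹ • y) o = X.d y (s • o) := inv_left hI s y o
  have t4 := X.tri y o (s • o)
  have f3 := four' hF y (s⁻¹ • y) o Ps
  have e6 : X.d y (s⁻¹ • y) = X.d y (s • y) := by rw [X.comm, inv_left hI]
  omega

theorem far (hI : X.Inv Q) (hF : X.Four δ) (f : Q) (o z : V) (τ : ℝ) (hτ : 1 ≤ τ)
    (hlo : ∀ i : ℕ, i * τ ≤ X.d z (f ^ i • z)) (hup : ∀ i : ℕ, (X.d z (f ^ i • z) : ℝ) ≤ i * τ + 12 * δ)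
    (hmin : ∀ i : ℕ, X.d o z ≤ X.d o (f ^ i • z)) (k : ℕ) :
    (X.d o z : ℝ) + k * τ ≤ X.d o (f ^ (13 * δ + 1 + k) • z) + 13 * δ := by
  have h1 := four' hF o (f ^ (13 * δ + 1) • z) z (f ^ (13 * δ + 1 + k) • z)
  have e1 : X.d (f ^ (13 * δ + 1) • z) (f ^ (13 * δ + 1 + k) • z) = X.d z (f ^ k • z) := by
    rw [pow_add _ _ k, mul_smul, hI]
  rw [e1, X.comm (f ^ (13 * δ + 1) • z) z] at h1
  have a1 := hlo (13 * δ + 1 + k)
  have a2 := hup k
  have a3 := hup (13 * δ + 1)
  have a4 : (X.d o z : ℝ) ≤ X.d o (f ^ (13 * δ + 1) • z) := by exact_mod_cast hmin _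
  have hδ : (0 : ℝ) ≤ δ := Nat.cast_nonneg _
  push_cast at a1 a3
  rcases h1 with h1 | h1
  · have h1' : (X.d o (f ^ (13 * δ + 1) • z) : ℝ) + X.d z (f ^ (13 * δ + 1 + k) • z) ≤
        X.d o z + X.d z (f ^ k • z) + δ := by exact_mod_cast h1
    exfalso
    nlinarith
  · have h1' : (X.d o (f ^ (13 * δ + 1) • z) : ℝ) + X.d z (f ^ (13 * δ + 1 + k) • z) ≤
        X.d o (f ^ (13 * δ + 1 + k) • z) + X.d z (f ^ (13 * δ + 1) • z) + δ := by
      exact_mod_cast h1
    nlinarith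

end Tfix

open Tfix

theorem thm_fix : S_fix := by
  classical
  intro Q V _ _ X δ hI hF H hB
  obtain ⟨x, r, hr⟩ := hB
  have hex : ∃ ρ : ℕ, ∃ y : V, ∀ h ∈ H, X.d y (h • x) ≤ ρ := ⟨r, x, hr⟩
  obtain ⟨y, hy⟩ := Nat.find_spec hex
  refine ⟨y, fun h hh => ?_⟩
  by_contra hc
  have hy' : ∀ k ∈ H, X.d (h • y) (k • x) ≤ Nat.find hex := by
    intro k hk
    have e : k • x = h • ((h⁻¹ * k) • x) := by rw [mul_smul, smul_inv_smul]
    rw [e, hI]
    exact hy _ (H.mul_mem (H.inv_mem hh) hk)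
  obtain ⟨m, hm1, hm2⟩ := X.geo y (h • y) (X.d y (h • y) / 2) (Nat.div_le_self _ _)
  have hall : ∀ k ∈ H, X.d m (k • x) + 1 ≤ Nat.find hex := by
    intro k hk
    have f := four' hF m (k • x) y (h • y)
    have a1 := hy k hk
    have a2 := hy' k hk
    have c1 := X.comm m y
    have c2 := X.comm (k • x) (h • y)
    have c3 := X.comm (k • x) y
    omega
  have hpos := hall 1 H.one_mem
  refine Nat.find_min hex (m := Nat.find hex - 1) (by omega) ⟨m, fun k hk => ?_⟩
  have := hall k hk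
  omega

theorem thm_w1 : S_w1 := by
  intro Q V _ _ X δ A D a b o hI hF hA hab hB ha hb
  have ha' : a ∈ Subgroup.closure ({a, b} : Set Q) := Subgroup.subset_closure (by simp)
  have hb' : b ∈ Subgroup.closure ({a, b} : Set Q) := Subgroup.subset_closure (by simp)
  have hstep : ∀ g s : Q, X.d o (s • o) ≤ D → X.d o ((g * s) • o) ≤ X.d o (g • o) + D := by
    intro g s hs
    have t := X.tri o (g • o) ((g * s) • o)
    rw [mul_smul, hI, ← mul_smul] at t
    omega
  have hex : ∃ g ∈ Subgroup.closure ({a, b} : Set Q), 2 * A + 43 * D + 82 * δ + 4 ≤ X.d o (g • o) ∧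
      X.d o (g • o) ≤ 2 * A + 43 * D + 82 * δ + 4 + D := by
    by_contra hc
    push Not at hc
    apply hB
    refine ⟨o, 2 * A + 43 * D + 82 * δ + 4, fun g hg => le_of_lt ?_⟩
    have hgen : ∀ y ∈ ({a, b} : Set Q), X.d o (y • o) ≤ D := by
      rintro y (rfl | rfl)
      · exact ha
      · exact hb
    induction hg using Subgroup.closure_induction_right with
    | one => rw [one_smul, X.self]; omega
    | mul_right x hx y hy ih =>
      have h1 := hstep x y (hgen y hy)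
      have h2 := hc (x * y) (Subgroup.mul_mem _ hx (Subgroup.subset_closure hy))
      omega
    | mul_inv_cancel x hx y hy ih =>
      have h0 : X.d o (y⁻¹ • o) ≤ D := by rw [X.comm, inv_left hI]; exact hgen y hy
      have h1 := hstep x y⁻¹ h0
      have h2 := hc (x * y⁻¹)
        (Subgroup.mul_mem _ hx (Subgroup.inv_mem _ (Subgroup.subset_closure hy)))
      omega
  obtain ⟨g, hg, hl1, hl2⟩ := hex
  by_cases h1 : 1 ≤ X.tau g
  · exact ⟨g, hg, h1, by omega⟩
  by_cases h2 : 1 ≤ X.tau (g * a)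
  · exact ⟨g * a, Subgroup.mul_mem _ hg ha', h2, by have := hstep g a ha; omega⟩
  by_cases h3 : 1 ≤ X.tau (g * b)
  · exact ⟨g * b, Subgroup.mul_mem _ hg hb', h3, by have := hstep g b hb; omega⟩
  exfalso
  push Not at h1 h2 h3
  have e1 : X.d o (g⁻¹ • o) = X.d o (g • o) := by rw [X.comm, inv_left hI]
  obtain ⟨y, hy1, hy2⟩ := X.geo o (g⁻¹ • o) (A + 20 * (D + 2 * δ)) (by omega)
  have k1 := key hI hF g a o y D _ ha h1 h2 (by omega) hy1 hy2
  have k2 := key hI hF g b o y D _ hb h1 h3 (by omega) hy1 hy2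
  exact hab (hA (D + 2 * δ) a b o y (by omega) k1 (by omega) k2 (by omega))

theorem thm_w2 : S_w2 := by
  classical
  intro Q V _ _ X δ D h o hI hF hδ hτ hD
  obtain ⟨T1, -, -, T4, -, -, -⟩ := thm_tau Q V X hI
  obtain ⟨x, hx⟩ := thm_axis thm_tau Q V X δ hI hF h (by linarith)
  have hex : ∃ r : ℕ, ∃ k : ℤ, X.d o (h ^ k • x) = r := ⟨_, 0, rfl⟩
  obtain ⟨k, hk⟩ := Nat.find_spec hex
  set z := h ^ k • x with hz
  have hax : Axis X δ h z := by
    intro c hc
    have e : c • z = h ^ k • c • x := by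
      rw [hz, ← mul_smul, ← mul_smul, (hc.zpow_right k).eq]
    rw [e, hz, hI]
    exact hx c hc
  have hmin : ∀ i : ℤ, X.d o z ≤ X.d o (h ^ i • z) := by
    intro i
    rw [hk]
    apply Nat.find_min' hex
    exact ⟨i + k, by rw [hz, zpow_add, mul_smul]⟩
  have hlo : ∀ i : ℤ, |(i : ℝ)| * X.tau h ≤ X.d z (h ^ i • z) := by
    intro i
    have := T1 (h ^ i) z 1
    rw [T4, pow_one] at this
    simpa using this
  have hup : ∀ i : ℤ, (X.d z (h ^ i • z) : ℝ) ≤ |(i : ℝ)| * X.tau h + 12 * δ := by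
    intro i
    have := hax (h ^ i) (Commute.zpow_self h i)
    rwa [T4] at this
  have einv : ∀ i : ℕ, h⁻¹ ^ i = h ^ (-(i : ℤ)) := by
    intro i; rw [zpow_neg, zpow_natCast, inv_pow]
  have f1 := far hI hF h o z (X.tau h) hτ
    (fun i => by have := hlo i; simpa using this)
    (fun i => by have := hup i; simpa using this)
    (fun i => by have := hmin i; simpa using this) (14 * δ + 1)
  have f2 := far hI hF h⁻¹ o z (X.tau h) hτ
    (fun i => by have := hlo (-(i : ℤ)); rw [einv]; simpa using this)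
    (fun i => by have := hup (-(i : ℤ)); rw [einv]; simpa using this)
    (fun i => by have := hmin (-(i : ℤ)); rw [einv]; exact this) (14 * δ + 1)
  set j := 13 * δ + 1 + (14 * δ + 1) with hj
  have e1 : X.d o (h⁻¹ ^ j • z) = X.d z (h ^ j • o) := by
    rw [X.comm, inv_pow, inv_left hI]
  rw [e1] at f2
  have f3 := four' hF o (h ^ j • z) z (h ^ j • o)
  have e2 : X.d (h ^ j • z) (h ^ j • o) = X.d o z := by rw [hI, X.comm]
  rw [e2, X.comm (h ^ j • z) z] at f3
  have hpow : ∀ i : ℕ, X.d o (h ^ i • o) ≤ i * D := by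
    intro i
    induction i with
    | zero => simp [X.self]
    | succ i ih =>
      have t := X.tri o (h ^ i • o) (h ^ (i + 1) • o)
      rw [pow_succ, mul_smul, hI, ← mul_smul, ← pow_succ] at t
      rw [Nat.succ_mul]
      omega
  have a1 : (X.d z (h ^ j • z) : ℝ) ≤ j * X.tau h + 12 * δ := by
    have := hup j; simpa using this
  have a2 : (X.d o (h ^ j • o) : ℝ) ≤ j * D := by exact_mod_cast hpow j
  have hδ' : (1 : ℝ) ≤ δ := by exact_mod_cast hδ
  have hD0 : (0 : ℝ) ≤ D := Nat.cast_nonneg _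
  have hjr : (j : ℝ) = 27 * δ + 2 := by rw [hj]; push_cast; ring
  refine ⟨z, hax, ?_⟩
  push_cast at f1 f2
  rw [hjr] at a1 a2
  have hR : 2 * (X.d o z : ℝ) ≤ (27 * δ + 2) * D + 39 * δ := by
    rcases f3 with f3 | f3
    · have f3' : (X.d o (h ^ j • z) : ℝ) + X.d z (h ^ j • o) ≤ X.d o z + X.d o z + δ := by
        exact_mod_cast f3
      exfalso
      nlinarith
    · have f3' : (X.d o (h ^ j • z) : ℝ) + X.d z (h ^ j • o) ≤
          X.d o (h ^ j • o) + X.d z (h ^ j • z) + δ := by exact_mod_cast f3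
      nlinarith
  have hfin : (X.d o z : ℝ) ≤ 1000 * δ * (D + 1) ^ 2 := by
    have h1 : (0 : ℝ) ≤ δ * D := by positivity
    have h2 : (0 : ℝ) ≤ δ * D ^ 2 := by positivity
    have h3 : (D : ℝ) ≤ δ * D := by nlinarith
    nlinarith
  exact_mod_cast hfin

end Pool.Agent.SCZ.Grp
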