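import Pool.Agent.SCZ.Grp.St
import Pool.Agent.H59Z.NA.Tlines
import Pool.Agent.H59Z.NA.Ttau
import Pool.Agent.H59Z.NA.Thyp
import Pool.Agent.H59Z.NA.Taxis

set_option autoImplicit false

/-!
# The family of lines of one long relator
-/

namespace Pool.Agent.SCZ.Grp

open Pool.Agent.H59Z.NA

namespace Tlong

open Tlines

section Metric

variable {V : Type} (X : GM V)

/-- The Busemann function of a quasi-line. -/
noncomputable def bus (T : ℝ) (y : ℤ → V) (p : V) : ℝ := ⨅ N : ℤ, ((X.d p (y N) : ℝ) - N * T)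

/-- The position along the quasi-line. -/
noncomputable def c0 (T : ℝ) (y : ℤ → V) (p : V) : ℝ :=
  (bus X T (fun a => y (-a)) p - bus X T y p) / 2

/-- The thickened quasi-line. -/
def Y0 (δ : ℕ) (T : ℝ) (y : ℤ → V) : Set V :=
  {p | bus X T y p + bus X T (fun a => y (-a)) p ≤ 40 * δ}

/-- `N` is large enough for `p`. -/
def Big (δ : ℕ) (T : ℝ) (y : ℤ → V) (p : V) (N : ℕ) : Prop :=
  (X.d p (y N) : ℝ) - N * T ≤ bus X T y p + 13 * δ ∧
  (X.d p (y (-(N : ℤ))) : ℝ) - N * T ≤ bus X T (fun a => y (-a)) p + 13 * δ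

variable {X} {δ : ℕ} {T : ℝ} {y : ℤ → V}

theorem trir (a b c : V) : (X.d a c : ℝ) ≤ X.d a b + X.d b c := by exact_mod_cast X.tri a b c

theorem commr (a b : V) : (X.d a b : ℝ) = X.d b a := by rw [X.comm]

theorem fourr (h : X.Four δ) (x y z w : V) :
    (X.d x y : ℝ) + X.d z w ≤ X.d x z + X.d y w + δ ∨
    (X.d x y : ℝ) + X.d z w ≤ X.d x w + X.d y z + δ := by
  have := h x y z w
  rcases le_total (X.d x z + X.d y w) (X.d x w + X.d y z) with h' | h'
  · rw [max_eq_right h'] at this; right; exact_mod_cast this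
  · rw [max_eq_left h'] at this; left; exact_mod_cast this

theorem ql_neg (hy : QL X δ T y) : QL X δ T (fun a => y (-a)) := by
  intro a b
  have h := hy (-a) (-b)
  have e : |((-a : ℤ) : ℝ) - ((-b : ℤ) : ℝ)| = |(a : ℝ) - b| := by
    push_cast
    rw [show -(a : ℝ) - -b = -(a - b) by ring, abs_neg]
  rw [e] at h
  exact h

theorem bdd (hT : 0 < T) (hy : QL X δ T y) (p : V) :
    BddBelow (Set.range fun N : ℤ => (X.d p (y N) : ℝ) - N * T) := by
  refine ⟨-(X.d p (y 0) : ℝ), ?_⟩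
  rintro _ ⟨N, rfl⟩
  have h1 := (hy N 0).1
  have h2 := trir (X := X) (y N) p (y 0)
  have h3 : (N : ℝ) ≤ |(N : ℝ) - ((0 : ℤ) : ℝ)| := by simpa using le_abs_self (N : ℝ)
  have h4 := mul_le_mul_of_nonneg_left h3 hT.le
  have h5 := commr (X := X) (y N) p
  simp only
  linarith

theorem bus_le (hT : 0 < T) (hy : QL X δ T y) (p : V) (N : ℤ) :
    bus X T y p ≤ X.d p (y N) - N * T := ciInf_le (bdd hT hy p) N

theorem le_bus {p : V} {a : ℝ} (h : ∀ N : ℤ, a ≤ X.d p (y N) - N * T) : a ≤ bus X T y p :=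
  le_ciInf h

theorem bus_lip (hT : 0 < T) (hy : QL X δ T y) (p q : V) :
    bus X T y p ≤ bus X T y q + X.d p q := by
  have : bus X T y p - X.d p q ≤ bus X T y q := le_bus fun N => by
    have h1 := bus_le hT hy p N
    have h2 := trir (X := X) p q (y N)
    linarith
  linarith

theorem bus_ev (hδ : 1 ≤ δ) (hy : QL X δ T y) (p : V) :
    ∃ M : ℕ, ∀ N : ℕ, M ≤ N → (X.d p (y N) : ℝ) - N * T ≤ bus X T y p + 13 * δ := by
  have hδ' : (1 : ℝ) ≤ δ := by exact_mod_cast hδ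
  obtain ⟨M, hM⟩ : ∃ M : ℤ, (X.d p (y M) : ℝ) - M * T < bus X T y p + δ :=
    exists_lt_of_ciInf_lt (f := fun N : ℤ => (X.d p (y N) : ℝ) - N * T)
      (by show bus X T y p < _; linarith)
  refine ⟨M.toNat, fun N hN => ?_⟩
  have hMN : M ≤ (N : ℤ) := by omega
  have hMN' : (M : ℝ) ≤ (N : ℝ) := by exact_mod_cast hMN
  have h1 := (hy M N).2
  have e : |(M : ℝ) - ((N : ℤ) : ℝ)| = N - M := by
    push_cast
    rw [abs_sub_comm]; exact abs_of_nonneg (by linarith)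
  rw [e] at h1
  have h2 := trir (X := X) p (y M) (y N)
  linarith

theorem big_ev (hδ : 1 ≤ δ) (hy : QL X δ T y) (p : V) :
    ∃ M : ℕ, ∀ N : ℕ, M ≤ N → Big X δ T y p N := by
  obtain ⟨M₁, h₁⟩ := bus_ev hδ hy p
  obtain ⟨M₂, h₂⟩ := bus_ev hδ (ql_neg hy) p
  exact ⟨max M₁ M₂, fun N hN => ⟨h₁ N (le_trans (le_max_left _ _) hN),
    h₂ N (le_trans (le_max_right _ _) hN)⟩⟩

theorem big_ev2 (hδ : 1 ≤ δ) (hy : QL X δ T y) (p q : V) :
    ∃ M : ℕ, ∀ N : ℕ, M ≤ N → Big X δ T y p N ∧ Big X δ T y q N := by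
  obtain ⟨M₁, h₁⟩ := big_ev hδ hy p
  obtain ⟨M₂, h₂⟩ := big_ev hδ hy q
  exact ⟨max M₁ M₂, fun N hN => ⟨h₁ N (le_trans (le_max_left _ _) hN),
    h₂ N (le_trans (le_max_right _ _) hN)⟩⟩

theorem sum_nonneg (hT : 0 < T) (hy : QL X δ T y) (p : V) :
    0 ≤ bus X T y p + bus X T (fun a => y (-a)) p := by
  have : -bus X T y p ≤ bus X T (fun a => y (-a)) p := le_bus fun M => by
    have : -((X.d p (y (-M)) : ℝ) - M * T) ≤ bus X T y p := le_bus fun N => by
      have h1 := (hy N (-M)).1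
      have h2 := trir (X := X) (y N) p (y (-M))
      have h3 : (N : ℝ) + M ≤ |(N : ℝ) - ((-M : ℤ) : ℝ)| := by
        push_cast
        rw [sub_neg_eq_add]; exact le_abs_self _
      have h4 := mul_le_mul_of_nonneg_left h3 hT.le
      have h5 := commr (X := X) (y N) p
      linarith
    linarith
  linarith

theorem dd (hy : QL X δ T y) (N : ℕ) :
    2 * (N * T) ≤ (X.d (y (-(N : ℤ))) (y N) : ℝ) ∧
      (X.d (y (-(N : ℤ))) (y N) : ℝ) ≤ 2 * (N * T) + 12 * δ := by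
  have h := hy (-(N : ℤ)) N
  have hN : (0 : ℝ) ≤ N := Nat.cast_nonneg N
  have e : |((-(N : ℤ) : ℤ) : ℝ) - ((N : ℤ) : ℝ)| = 2 * N := by
    push_cast
    rw [abs_of_nonpos (by linarith)]; ring
  rw [e] at h
  constructor <;> linarith [h.1, h.2]

theorem up (hT : 0 < T) (hy : QL X δ T y) (p : V) (N : ℕ) :
    bus X T y p ≤ X.d p (y N) - N * T ∧
      bus X T (fun a => y (-a)) p ≤ X.d p (y (-(N : ℤ))) - N * T := by
  have h1 := bus_le hT hy p N
  have h2 := bus_le hT (ql_neg hy) p N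
  push_cast at h1 h2
  exact ⟨h1, h2⟩

theorem c0_lip (hT : 0 < T) (hy : QL X δ T y) (p q : V) :
    |c0 X T y p - c0 X T y q| ≤ X.d p q := by
  have h1 := bus_lip hT hy p q
  have h2 := bus_lip hT hy q p
  have h3 := bus_lip hT (ql_neg hy) p q
  have h4 := bus_lip hT (ql_neg hy) q p
  have h5 := commr (X := X) p q
  unfold c0
  rw [abs_le]
  constructor <;> linarith

theorem mem_Y0_of_btw (hT : 0 < T) (hy : QL X δ T y) (N : ℕ) (z : V)
    (hz : X.d (y (-(N : ℤ))) z + X.d z (y N) = X.d (y (-(N : ℤ))) (y N)) : z ∈ Y0 X δ T y := by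
  have h1 := up hT hy z N
  have h2 := dd hy N
  have h3 : (X.d (y (-(N : ℤ))) z : ℝ) + X.d z (y N) = X.d (y (-(N : ℤ))) (y N) := by
    exact_mod_cast hz
  have h4 := commr (X := X) (y (-(N : ℤ))) z
  have hδ : (0 : ℝ) ≤ δ := Nat.cast_nonneg _
  show bus X T y z + bus X T (fun a => y (-a)) z ≤ 40 * (δ : ℝ)
  linarith [h1.1, h1.2, h2.2]

theorem btw_of_mem (hy : QL X δ T y) {p : V} (hp : p ∈ Y0 X δ T y) {N : ℕ}
    (hN : Big X δ T y p N) : Btw X (66 * δ) (y (-(N : ℤ))) p (y N) := by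
  have h2 := dd hy N
  have h3 : bus X T y p + bus X T (fun a => y (-a)) p ≤ 40 * δ := hp
  have h4 := commr (X := X) (y (-(N : ℤ))) p
  have : (X.d (y (-(N : ℤ))) p : ℝ) + X.d p (y N) ≤ X.d (y (-(N : ℤ))) (y N) + 66 * δ := by
    linarith [hN.1, hN.2, h2.1]
  unfold Btw
  exact_mod_cast this

theorem btw_conv (h4 : X.Four δ) {al om p q z : V} {E e : ℕ} (hp : Btw X E al p om)
    (hq : Btw X E al q om) (hz : Btw X e p z q) : Btw X (E + 2 * δ + 2 * e) al z om := by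
  unfold Btw at *
  have f1 := h4 z om p q
  have f2 := h4 z al p q
  have t1 := X.tri al q p
  have t2 := X.tri al p q
  have t3 := X.tri p z q
  have c1 := X.comm z p
  have c2 := X.comm om q
  have c3 := X.comm om p
  have c4 := X.comm z al
  have c5 := X.comm p q
  omega

theorem near0 (h4 : X.Four δ) (hδ : 1 ≤ δ) (hy : QL X δ T y) {p q : V}
    (hp : p ∈ Y0 X δ T y) (hq : q ∈ Y0 X δ T y) :
    (X.d p q : ℝ) ≤ |c0 X T y p - c0 X T y q| + 67 * δ := by
  obtain ⟨N, hN⟩ := big_ev2 hδ hy p q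
  obtain ⟨bp, bq⟩ := hN N le_rfl
  have h2 := (dd hy N).1
  have h3 : bus X T y p + bus X T (fun a => y (-a)) p ≤ 40 * δ := hp
  have h3' : bus X T y q + bus X T (fun a => y (-a)) q ≤ 40 * δ := hq
  have a1 := le_abs_self (c0 X T y p - c0 X T y q)
  have a2 := neg_abs_le (c0 X T y p - c0 X T y q)
  have e1 : 2 * c0 X T y p = bus X T (fun a => y (-a)) p - bus X T y p := by unfold c0; ring
  have e2 : 2 * c0 X T y q = bus X T (fun a => y (-a)) q - bus X T y q := by unfold c0; ring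
  rcases fourr h4 p q (y (-(N : ℤ))) (y N) with h | h <;>
    linarith [bp.1, bp.2, bq.1, bq.2]

theorem conv0 (h4 : X.Four δ) (hδ : 1 ≤ δ) (hT : 0 < T) (hy : QL X δ T y) {p q : V}
    (hp : p ∈ Y0 X δ T y) (hq : q ∈ Y0 X δ T y) (z : V) (hz : X.d p z + X.d z q = X.d p q) :
    ∃ w ∈ Y0 X δ T y, X.d z w ≤ 69 * δ := by
  obtain ⟨N, hN⟩ := big_ev2 hδ hy p q
  obtain ⟨bp, bq⟩ := hN N le_rfl
  have h1 := btw_conv h4 (e := 0) (z := z) (btw_of_mem hy hp bp) (btw_of_mem hy hq bq)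
    (by unfold Btw; omega)
  obtain ⟨w, hw1, hw2⟩ := (thm_hyp V X).2.1 δ h4 _ _ z _ h1
  exact ⟨w, mem_Y0_of_btw hT hy N w hw1, by omega⟩

theorem c0_btw (hT : 0 < T) (hy : QL X δ T y) (N : ℕ) (z : V)
    (hz : X.d (y (-(N : ℤ))) z + X.d z (y N) = X.d (y (-(N : ℤ))) (y N)) :
    |2 * c0 X T y z - (X.d (y (-(N : ℤ))) z - X.d z (y N))| ≤ 12 * δ := by
  have h1 := up hT hy z N
  have h2 := dd hy N
  have h3 : (X.d (y (-(N : ℤ))) z : ℝ) + X.d z (y N) = X.d (y (-(N : ℤ))) (y N) := by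
    exact_mod_cast hz
  have h4 := commr (X := X) (y (-(N : ℤ))) z
  have h5 := sum_nonneg hT hy z
  have e1 : 2 * c0 X T y z = bus X T (fun a => y (-a)) z - bus X T y z := by unfold c0; ring
  rw [abs_le]
  constructor <;> linarith [h1.1, h1.2, h2.2]

theorem c0_big (hT : 0 < T) (hy : QL X δ T y) {N : ℕ} {p : V} (hN : Big X δ T y p N) :
    |2 * c0 X T y p - (X.d (y (-(N : ℤ))) p - X.d p (y N))| ≤ 13 * δ := by
  have h1 := up hT hy p N
  have h4 := commr (X := X) (y (-(N : ℤ))) p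
  have e1 : 2 * c0 X T y p = bus X T (fun a => y (-a)) p - bus X T y p := by unfold c0; ring
  rw [abs_le]
  constructor <;> linarith [h1.1, h1.2, hN.1, hN.2]

theorem foot (h4 : X.Four δ) (al om p : V) : ∃ a : V, X.d al a + X.d a om = X.d al om ∧
    X.d p a + X.d a om ≤ X.d p om + δ + 1 ∧ X.d p a + X.d al a ≤ X.d al p + δ + 1 ∧
    X.d al a + X.d p om ≤ X.d al p + X.d a om ∧ X.d al p + X.d a om ≤ X.d al a + X.d p om + 1 := by
  have t1 := X.tri al om p
  have t2 := X.tri p al om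
  have c1 := X.comm om p
  have c2 := X.comm al p
  obtain ⟨a, ha1, ha2⟩ := X.geo al om ((X.d al p + X.d al om - X.d p om) / 2) (by omega)
  have f := h4 p a al om
  have c3 := X.comm a al
  refine ⟨a, ?_, ?_, ?_, ?_, ?_⟩ <;> omega

theorem proj_aux (h4 : X.Four δ) (hδ : 1 ≤ δ) (hT : 0 < T) (hy : QL X δ T y) (p q : V)
    (hpq : 100 * (δ : ℝ) < c0 X T y q - c0 X T y p) :
    ∃ a ∈ Y0 X δ T y, ∃ b ∈ Y0 X δ T y, X.d p a + X.d a b + X.d b q ≤ X.d p q + 6 * δ ∧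
      |c0 X T y a - c0 X T y p| ≤ 13 * δ ∧ |c0 X T y b - c0 X T y q| ≤ 13 * δ := by
  obtain ⟨N, hN⟩ := big_ev2 hδ hy p q
  obtain ⟨bp, bq⟩ := hN N le_rfl
  have hδ' : (1 : ℝ) ≤ δ := by exact_mod_cast hδ
  obtain ⟨a, a1, a2, a3, a4, a5⟩ := foot h4 (y (-(N : ℤ))) (y N) p
  obtain ⟨b, b1, b2, b3, b4, b5⟩ := foot h4 (y (-(N : ℤ))) (y N) q
  have ca := abs_le.mp (c0_btw hT hy N a a1)
  have cb := abs_le.mp (c0_btw hT hy N b b1)
  have cp := abs_le.mp (c0_big hT hy bp)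
  have cq := abs_le.mp (c0_big hT hy bq)
  have ma := mem_Y0_of_btw hT hy N a a1
  have mb := mem_Y0_of_btw hT hy N b b1
  generalize y (-(N : ℤ)) = al at *
  generalize y (N : ℤ) = om at *
  have a4' : (X.d al a : ℝ) + X.d p om ≤ X.d al p + X.d a om := by exact_mod_cast a4
  have a5' : (X.d al p : ℝ) + X.d a om ≤ X.d al a + X.d p om + 1 := by exact_mod_cast a5
  have b4' : (X.d al b : ℝ) + X.d q om ≤ X.d al q + X.d b om := by exact_mod_cast b4
  have b5' : (X.d al q : ℝ) + X.d b om ≤ X.d al b + X.d q om + 1 := by exact_mod_cast b5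
  have k : X.d al p + X.d q om + 100 * δ ≤ X.d p om + X.d al q := by
    have : (X.d al p : ℝ) + X.d q om + 100 * δ ≤ X.d p om + X.d al q := by
      linarith [cp.1, cp.2, cq.1, cq.2]
    exact_mod_cast this
  refine ⟨a, ma, b, mb, ?_, ?_, ?_⟩
  · have f1 := h4 p om q al
    have f2 := h4 a b al om
    have c1 := X.comm q al
    have c2 := X.comm om al
    have c3 := X.comm p al
    have c4 := X.comm om q
    have c5 := X.comm a al
    have c6 := X.comm b al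
    have c7 := X.comm b q
    omega
  · rw [abs_le]
    constructor <;> linarith [ca.1, ca.2, cp.1, cp.2]
  · rw [abs_le]
    constructor <;> linarith [cb.1, cb.2, cq.1, cq.2]

theorem proj0 (h4 : X.Four δ) (hδ : 1 ≤ δ) (hT : 0 < T) (hy : QL X δ T y) (p q : V)
    (hpq : 100 * (δ : ℝ) < |c0 X T y p - c0 X T y q|) :
    ∃ a ∈ Y0 X δ T y, ∃ b ∈ Y0 X δ T y, X.d p a + X.d a b + X.d b q ≤ X.d p q + 6 * δ ∧
      |c0 X T y a - c0 X T y p| ≤ 13 * δ ∧ |c0 X T y b - c0 X T y q| ≤ 13 * δ := by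
  rcases lt_abs.mp hpq with h | h
  · obtain ⟨a, ha, b, hb, h1, h2, h3⟩ := proj_aux h4 hδ hT hy q p h
    refine ⟨b, hb, a, ha, ?_, h3, h2⟩
    rw [X.comm p b, X.comm b a, X.comm a q, X.comm p q]
    omega
  · exact proj_aux h4 hδ hT hy p q (by linarith)

end Metric

section Equiv

variable {Q V : Type} [Group Q] [MulAction Q V] {X : GM V} {δ : ℕ} {T : ℝ}

theorem bus_shift_le (hI : X.Inv Q) (hT : 0 < T) {y : ℤ → V} (hy : QL X δ T y) (s : Q) (j : ℤ)
    (h : ∀ a, y a = s • y (a + j)) (p : V) : bus X T y (s • p) ≤ bus X T y p + j * T := by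
  have : bus X T y (s • p) - j * T ≤ bus X T y p := le_bus fun N => by
    have h1 := bus_le hT hy (s • p) (N - j)
    rw [h (N - j), hI, sub_add_cancel] at h1
    push_cast at h1
    linarith
  linarith

theorem bus_shift (hI : X.Inv Q) (hT : 0 < T) {y : ℤ → V} (hy : QL X δ T y) (s : Q) (j : ℤ)
    (h : ∀ a, y a = s • y (a + j)) (p : V) : bus X T y (s • p) = bus X T y p + j * T := by
  have h1 := bus_shift_le hI hT hy s j h p
  have h2 := bus_shift_le hI hT hy s⁻¹ (-j) (fun a => by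
    rw [h (a + -j), inv_smul_smul]; congr 1; ring) (s • p)
  rw [inv_smul_smul] at h2
  push_cast at h2
  linarith

theorem orbit_shift (hI : X.Inv Q) (hT : 0 < T) {r : Q} {x : V}
    (hy : QL X δ T (fun a => r ^ a • x)) (k : ℤ) (p : V) :
    bus X T (fun a => r ^ a • x) (r ^ k • p) = bus X T (fun a => r ^ a • x) p - k * T ∧
    bus X T (fun a => r ^ (-a) • x) (r ^ k • p) = bus X T (fun a => r ^ (-a) • x) p + k * T := by
  constructor
  · rw [bus_shift hI hT hy (r ^ k) (-k) (fun a => by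
      simp only [smul_smul, ← zpow_add]; congr 2; ring)]
    push_cast; ring
  · exact bus_shift hI hT (ql_neg hy) (r ^ k) k (fun a => by
      simp only [smul_smul, ← zpow_add]; congr 2; ring) p

theorem c0_shift (hI : X.Inv Q) (hT : 0 < T) {r : Q} {x : V}
    (hy : QL X δ T (fun a => r ^ a • x)) (k : ℤ) (p : V) :
    c0 X T (fun a => r ^ a • x) (r ^ k • p) = c0 X T (fun a => r ^ a • x) p + k * T := by
  obtain ⟨h1, h2⟩ := orbit_shift hI hT hy k p
  unfold c0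
  rw [h1, h2]; ring

theorem Y0_shift (hI : X.Inv Q) (hT : 0 < T) {r : Q} {x : V}
    (hy : QL X δ T (fun a => r ^ a • x)) (k : ℤ) (p : V) :
    r ^ k • p ∈ Y0 X δ T (fun a => r ^ a • x) ↔ p ∈ Y0 X δ T (fun a => r ^ a • x) := by
  obtain ⟨h1, h2⟩ := orbit_shift hI hT hy k p
  simp only [Y0, Set.mem_ofPred_eq]
  rw [h1, h2]
  constructor <;> intro h <;> linarith

theorem onAx_btw (h4 : X.Four δ) (hδ : 1 ≤ δ) {r : Q} {x : V}
    (hy : QL X δ T (fun a => r ^ a • x)) {p q z : V} (hp : p ∈ Y0 X δ T (fun a => r ^ a • x))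
    (hq : q ∈ Y0 X δ T (fun a => r ^ a • x)) (hz : Btw X (6 * δ) p z q) :
    OnAx X r (1000 * δ) z := by
  obtain ⟨M, hM⟩ := big_ev2 hδ hy p q
  refine ⟨x, M, fun N hN => ?_⟩
  obtain ⟨bp, bq⟩ := hM N hN
  have h1 := btw_conv h4 (btw_of_mem hy hp bp) (btw_of_mem hy hq bq) hz
  simp only [zpow_neg, zpow_natCast] at h1
  unfold Btw at h1 ⊢
  omega

theorem out_smul (r g : Q) (i : Q ⧸ Subgroup.zpowers r) :
    ∃ k : ℤ, (g • i).out = g * i.out * r ^ k := by
  have e : g • i = ((g * i.out : Q) : Q ⧸ Subgroup.zpowers r) := by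
    conv_lhs => rw [← QuotientGroup.out_eq' i]
    rfl
  obtain ⟨⟨h, hh⟩, e2⟩ := QuotientGroup.mk_out_eq_mul (Subgroup.zpowers r) (g * i.out)
  obtain ⟨k, rfl⟩ := Subgroup.mem_zpowers_iff.mp hh
  exact ⟨k, by rw [e, e2]⟩

end Equiv

end Tlong

open Tlong Tlines in
theorem thm_long : S_long := by
  intro Q V _ _ X δ L Δ r hI h4 hδ hL hT hOv
  have hδ' : (1 : ℝ) ≤ δ := by exact_mod_cast hδ
  have hL' : (Δ : ℝ) + 5000 * δ ≤ L := by exact_mod_cast hL
  have hΔ : (0 : ℝ) ≤ Δ := Nat.cast_nonneg _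
  have hT0 : 0 < X.tau r := by linarith
  obtain ⟨x, hx⟩ := thm_axis thm_tau Q V X δ hI h4 r hT0
  have hy : QL X δ (X.tau r) (fun a => r ^ a • x) :=
    ql_orbit thm_tau hI r x fun k => hx _ ((Commute.refl r).zpow_left k)
  have hsm : ∀ (g : Q) (i : Q ⧸ Subgroup.zpowers r), ∃ k : ℤ, ∀ p : V,
      ((g • i).out)⁻¹ • g • p = r ^ k • (i.out)⁻¹ • p := by
    intro g i
    obtain ⟨k, hk⟩ := out_smul r g i
    refine ⟨-k, fun p => ?_⟩
    rw [hk, smul_smul, smul_smul]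
    congr 1
    group
  have hproj : ∀ (t : Q) (p q : V), (L : ℝ) <
      |c0 X (X.tau r) (fun a => r ^ a • x) (t⁻¹ • p) -
        c0 X (X.tau r) (fun a => r ^ a • x) (t⁻¹ • q)| →
      ∃ a, t⁻¹ • a ∈ Y0 X δ (X.tau r) (fun a => r ^ a • x) ∧
      ∃ b, t⁻¹ • b ∈ Y0 X δ (X.tau r) (fun a => r ^ a • x) ∧
        X.d p a + X.d a b + X.d b q ≤ X.d p q + 6 * δ ∧
        |c0 X (X.tau r) (fun a => r ^ a • x) (t⁻¹ • a) -
          c0 X (X.tau r) (fun a => r ^ a • x) (t⁻¹ • p)| ≤ 13 * δ ∧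
        |c0 X (X.tau r) (fun a => r ^ a • x) (t⁻¹ • b) -
          c0 X (X.tau r) (fun a => r ^ a • x) (t⁻¹ • q)| ≤ 13 * δ := by
    intro t p q hpq
    obtain ⟨a, ha, b, hb, h1, h2, h3⟩ := proj0 h4 hδ hT0 hy (t⁻¹ • p) (t⁻¹ • q) (by linarith)
    refine ⟨t • a, by rwa [inv_smul_smul], t • b, by rwa [inv_smul_smul], ?_,
      by rwa [inv_smul_smul], by rwa [inv_smul_smul]⟩
    rw [← hI t⁻¹ p (t • a), ← hI t⁻¹ (t • b) q, hI t a b, ← hI t⁻¹ p q, inv_smul_smul,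
      inv_smul_smul]
    exact h1
  refine ⟨Q ⧸ Subgroup.zpowers r, inferInstance,
    { Y := fun i => {p | (i.out)⁻¹ • p ∈ Y0 X δ (X.tau r) (fun a => r ^ a • x)}
      c := fun i p => c0 X (X.tau r) (fun a => r ^ a • x) ((i.out)⁻¹ • p)
      gen := fun i => i.out * r * (i.out)⁻¹
      tr := fun _ => X.tau r
      mu := fun _ => 1
      Y_ne := ?_
      Y_smul := ?_
      c_smul := ?_
      gen_smul := ?_
      tr_smul := fun _ _ => rfl
      mu_smul := fun _ _ => rfl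
      stab := ?_
      c_gen := ?_
      tr_pos := fun _ => hT0
      big := fun _ => by simpa using hT
      conv := ?_
      lip := ?_
      sep := ?_
      near := ?_
      proj := ?_ }, fun i => ⟨rfl, i.out, rfl⟩, ?_⟩
  · intro i
    refine ⟨i.out • x, ?_⟩
    rw [Set.mem_ofPred_eq, inv_smul_smul]
    refine mem_Y0_of_btw hT0 hy 0 x ?_
    simp [X.self]
  · intro g i p
    obtain ⟨k, hk⟩ := hsm g i
    rw [Set.mem_ofPred_eq, Set.mem_ofPred_eq, hk, Y0_shift hI hT0 hy]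
  · intro g i p q
    obtain ⟨k, hk⟩ := hsm g i
    simp only [hk, c0_shift hI hT0 hy]
    ring
  · intro g i
    obtain ⟨k, hk⟩ := out_smul r g i
    simp only [hk]
    group
  · intro g i
    have e : g • i = ((g * i.out : Q) : Q ⧸ Subgroup.zpowers r) := by
      conv_lhs => rw [← QuotientGroup.out_eq' i]
      rfl
    constructor
    · intro h
      have h' : ((i.out : Q) : Q ⧸ Subgroup.zpowers r) = (g * i.out : Q) := by
        rw [← e, h, QuotientGroup.out_eq']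
      obtain ⟨k, hk⟩ := Subgroup.mem_zpowers_iff.mp (QuotientGroup.eq.mp h')
      refine Subgroup.mem_zpowers_iff.mpr ⟨k, ?_⟩
      rw [conj_zpow, hk]
      group
    · intro h
      obtain ⟨k, hk⟩ := Subgroup.mem_zpowers_iff.mp h
      rw [e]
      conv_rhs => rw [← QuotientGroup.out_eq' i]
      symm
      refine QuotientGroup.eq.mpr (Subgroup.mem_zpowers_iff.mpr ⟨k, ?_⟩)
      rw [← hk, conj_zpow]
      group
  · intro i p
    have h := c0_shift hI hT0 hy 1 ((i.out)⁻¹ • p)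
    rw [zpow_one] at h
    show c0 X (X.tau r) (fun a => r ^ a • x) ((i.out)⁻¹ • (i.out * r * (i.out)⁻¹) • p) = _
    rw [mul_smul, mul_smul, inv_smul_smul, h]
    simp
  · intro i p hp q hq z hz
    obtain ⟨w, hw, hw2⟩ := conv0 h4 hδ hT0 hy hp hq ((i.out)⁻¹ • z) (by
      rw [hI, hI, hI]; exact hz)
    refine ⟨i.out • w, ?_, ?_⟩
    · rwa [Set.mem_ofPred_eq, inv_smul_smul]
    · rw [← hI (i.out)⁻¹, inv_smul_smul]
      omega
  · intro i p q
    have h := c0_lip hT0 hy ((i.out)⁻¹ • p) ((i.out)⁻¹ • q)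
    rw [hI] at h
    linarith
  · intro i j hij p hp q hq
    by_contra hlt
    push Not at hlt
    obtain ⟨a, ha, b, hb, h1, h2, h3⟩ := hproj i.out p q hlt
    have l1 := c0_lip hT0 hy ((i.out)⁻¹ • a) ((i.out)⁻¹ • b)
    have l2 : Δ ≤ X.d ((i.out)⁻¹ • a) ((i.out)⁻¹ • b) := by
      have h2' := abs_le.mp h2
      have h3' := abs_le.mp h3
      have l1' := abs_le.mp l1
      have : (Δ : ℝ) ≤ X.d ((i.out)⁻¹ • a) ((i.out)⁻¹ • b) := by
        rcases lt_abs.mp hlt with h | h <;> linarith [h2'.1, h2'.2, h3'.1, h3'.2, l1'.1, l1'.2]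
      exact_mod_cast this
    have t1 := X.tri a b q
    have t2 := X.tri p a b
    have e : ∀ u : V, ((i.out)⁻¹ * j.out)⁻¹ • (i.out)⁻¹ • u = (j.out)⁻¹ • u := by
      intro u
      rw [smul_smul]
      congr 1
      group
    have hm := hOv ((i.out)⁻¹ * j.out) ((i.out)⁻¹ • a) ((i.out)⁻¹ • b)
      (onAx_btw h4 hδ hy ha hb (by unfold Btw; rw [X.self]; omega))
      (onAx_btw h4 hδ hy ha hb (by unfold Btw; rw [X.self]; omega))
      (by rw [e]; exact onAx_btw h4 hδ hy hp hq (by unfold Btw; rw [hI, hI, hI]; omega))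
      (by rw [e]; exact onAx_btw h4 hδ hy hp hq (by unfold Btw; rw [hI, hI, hI]; omega)) l2
    apply hij
    rw [← QuotientGroup.out_eq' i, ← QuotientGroup.out_eq' j]
    exact QuotientGroup.eq.mpr hm
  · intro i p hp q hq
    have h := near0 h4 hδ hy hp hq
    rw [hI] at h
    linarith
  · intro i p q hlt
    obtain ⟨a, ha, b, hb, h1, h2, h3⟩ := hproj i.out p q hlt
    exact ⟨a, ha, b, hb, by omega, by linarith, by linarith⟩
  · obtain ⟨⟨h, hh⟩, e2⟩ := QuotientGroup.mk_out_eq_mul (Subgroup.zpowers r) 1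
    obtain ⟨k, rfl⟩ := Subgroup.mem_zpowers_iff.mp hh
    refine ⟨((1 : Q) : Q ⧸ Subgroup.zpowers r), ?_⟩
    show ((1 : Q) : Q ⧸ Subgroup.zpowers r).out * r * (((1 : Q) : Q ⧸ Subgroup.zpowers r).out)⁻¹ = r
    rw [e2]
    group

end Pool.Agent.SCZ.Grp
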