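import Pool.Agent.SCZ.Grp.St
import Pool.Agent.H59Z.NA.Ttau
import Pool.Agent.H59Z.NA.Thyp

set_option autoImplicit false

/-!
# The prefixes of a long word form a quasi-geodesic
-/

namespace Pool.Agent.SCZ.Grp

open Pool.Agent.H59Z.NA

namespace Tw3

section chain

variable {V : Type} (X : GM V) {δ U : ℕ} (y : ℕ → V)

theorem fwd (h4 : X.Four δ) (hδ : δ ≤ U) (hU : 1 ≤ U)
    (hl : ∀ k, 1000 * U ≤ X.d (y k) (y (k + 1)))
    (hj : ∀ k, X.d (y k) (y (k + 1)) + X.d (y (k + 1)) (y (k + 2)) ≤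
      X.d (y k) (y (k + 2)) + 203 * U) (i k : ℕ) (hik : i ≤ k) :
    X.d (y i) (y k) + X.d (y k) (y (k + 1)) ≤ X.d (y i) (y (k + 1)) + 204 * U := by
  induction k, hik using Nat.le_induction with
  | base => rw [X.self]; omega
  | succ k hk ih =>
    have t1 := h4 (y i) (y (k + 1)) (y k) (y (k + 2))
    have t2 := X.comm (y (k + 1)) (y k)
    have t3 := hj k
    have t4 := hl k
    have e : k + 1 + 1 = k + 2 := rfl
    rw [e]
    omega

theorem bwd (h4 : X.Four δ) (hδ : δ ≤ U) (hU : 1 ≤ U)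
    (hl : ∀ k, 1000 * U ≤ X.d (y k) (y (k + 1)))
    (hj : ∀ k, X.d (y k) (y (k + 1)) + X.d (y (k + 1)) (y (k + 2)) ≤
      X.d (y k) (y (k + 2)) + 203 * U) (n : ℕ) : ∀ j k, k = j + 1 + n →
    X.d (y j) (y (j + 1)) + X.d (y (j + 1)) (y k) ≤ X.d (y j) (y k) + 204 * U := by
  induction n with
  | zero =>
    intro j k hk
    have e : k = j + 1 := hk
    rw [e, X.self]; omega
  | succ n ih =>
    intro j k hk
    have t0 := ih (j + 1) k (by omega)
    have e : j + 1 + 1 = j + 2 := rfl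
    rw [e] at t0
    have t1 := h4 (y k) (y (j + 1)) (y (j + 2)) (y j)
    have t2 := X.comm (y (j + 1)) (y j)
    have t3 := hj j
    have t4 := hl (j + 1)
    rw [e] at t4
    have t5 := X.comm (y k) (y (j + 1))
    have t6 := X.comm (y k) (y (j + 2))
    have t7 := X.comm (y k) (y j)
    have t8 := X.comm (y (j + 2)) (y j)
    omega

theorem btw (h4 : X.Four δ) (hδ : δ ≤ U) (hU : 1 ≤ U)
    (hl : ∀ k, 1000 * U ≤ X.d (y k) (y (k + 1)))
    (hj : ∀ k, X.d (y k) (y (k + 1)) + X.d (y (k + 1)) (y (k + 2)) ≤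
      X.d (y k) (y (k + 2)) + 203 * U) (i j k : ℕ) (hij : i ≤ j) (hjk : j ≤ k) :
    Btw X (300 * U) (y i) (y j) (y k) := by
  unfold Btw
  rcases Nat.eq_or_lt_of_le hjk with h | h
  · rw [h, X.self]; omega
  · have t0 := fwd X y h4 hδ hU hl hj i j hij
    have t1 := bwd X y h4 hδ hU hl hj (k - j - 1) j k (by omega)
    have t2 := h4 (y i) (y (j + 1)) (y j) (y k)
    have t3 := X.comm (y (j + 1)) (y j)
    have t4 := hl j
    omega

end chain

section word

variable {Q V : Type} [Group Q] [MulAction Q V] {X : GM V} {δ A U e : ℕ} {h : Q} {x : V}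
  {s : ℕ → Q} {ex : ℕ → ℕ} {g : ℕ → Q}

theorem hx (W : Word Q V X δ A U e h x s ex g) : X.d x (h • x) ≤ 2 * U := by
  have t1 := W.axis h (Commute.refl h)
  have t2 := W.tauU
  have t3 : (2000 * δ : ℝ) ≤ U := by exact_mod_cast W.δU
  have t4 : (0 : ℝ) ≤ δ := Nat.cast_nonneg δ
  have : (X.d x (h • x) : ℝ) ≤ 2 * U := by linarith
  exact_mod_cast this

theorem hsx (W : Word Q V X δ A U e h x s ex g) (k : ℕ) :
    X.d ((s k)⁻¹ • x) (h • (s k)⁻¹ • x) ≤ 4 * U := by
  have t1 := X.tri ((s k)⁻¹ • x) x (h • (s k)⁻¹ • x)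
  have t2 := X.tri x (h • x) (h • (s k)⁻¹ • x)
  have t3 := W.inv h x ((s k)⁻¹ • x)
  have t4 := W.inv (s k) x ((s k)⁻¹ • x)
  rw [smul_inv_smul] at t4
  have t5 := W.sU k
  have t6 := X.comm x (s k • x)
  have t7 := X.comm x ((s k)⁻¹ • x)
  have t8 := hx W
  omega

theorem step (W : Word Q V X δ A U e h x s ex g) (k : ℕ) :
    (e : ℝ) * X.tau h ≤ X.d x ((s k * h ^ ex k) • x) + U := by
  have t1 := (thm_tau Q V X W.inv).1 h x (ex k)
  have t2 := W.inv (s k) x (h ^ ex k • x)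
  have t3 := X.tri (s k • x) x (s k • h ^ ex k • x)
  have t4 := W.sU k
  have t5 := X.comm x (s k • x)
  have t6 : X.d x (h ^ ex k • x) ≤ X.d x ((s k * h ^ ex k) • x) + U := by
    rw [mul_smul]; omega
  have t7 : (X.d x (h ^ ex k • x) : ℝ) ≤ X.d x ((s k * h ^ ex k) • x) + U := by
    exact_mod_cast t6
  have t8 : (e : ℝ) ≤ ex k := by exact_mod_cast (W.hex k).1
  have t9 := W.tau1
  nlinarith

theorem stepN (W : Word Q V X δ A U e h x s ex g) (k : ℕ) :
    1000 * U ≤ X.d x ((s k * h ^ ex k) • x) := by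
  have t1 := step W k
  have t2 : ((10 ^ 6 * U : ℕ) : ℝ) ≤ e := by exact_mod_cast W.eU
  have t3 := W.tau1
  have t4 : (0 : ℝ) ≤ U := Nat.cast_nonneg U
  have t5 : (0 : ℝ) ≤ e := Nat.cast_nonneg e
  push_cast at t2
  have : (1000 * U : ℝ) ≤ X.d x ((s k * h ^ ex k) • x) := by nlinarith
  exact_mod_cast this

theorem dstep (W : Word Q V X δ A U e h x s ex g) (k : ℕ) :
    X.d (g k • x) (g (k + 1) • x) = X.d x ((s k * h ^ ex k) • x) := by
  rw [W.hg k, mul_assoc, mul_smul, W.inv]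

theorem junc (W : Word Q V X δ A U e h x s ex g) (k : ℕ) :
    X.d x ((s k * h ^ ex k)⁻¹ • x) + X.d x ((s (k + 1) * h ^ ex (k + 1)) • x) ≤
      X.d ((s k * h ^ ex k)⁻¹ • x) ((s (k + 1) * h ^ ex (k + 1)) • x) + 203 * U := by
  by_contra hc
  set P := (s k * h ^ ex k)⁻¹ • x with hP
  set R := (s (k + 1) * h ^ ex (k + 1)) • x with hR
  set η := s (k + 1) * h * (s (k + 1))⁻¹ with hη
  have hAU := W.AU
  have hδU := W.δU
  have hδ := W.hδ
  have l1 : 1000 * U ≤ X.d x P := by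
    have t1 := W.inv (s k * h ^ ex k) x P
    rw [hP, smul_inv_smul] at t1
    have t2 := stepN W k
    have t3 := X.comm x ((s k * h ^ ex k) • x)
    rw [hP]
    omega
  obtain ⟨y, y1, y2⟩ := X.geo x P (A + 20 * (5 * U)) (by omega)
  have m1 := hx W
  have m2 : X.d P (h • P) ≤ 4 * U := by
    have e1 : P = (h ^ ex k)⁻¹ • (s k)⁻¹ • x := by rw [hP, mul_inv_rev, mul_smul]
    have e2 : h • P = (h ^ ex k)⁻¹ • h • (s k)⁻¹ • x := by
      rw [e1, ← mul_smul, ← mul_smul (h ^ ex k)⁻¹ h]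
      congr 1
      exact ((Commute.refl h).pow_right (ex k)).inv_right.eq
    rw [e2, e1, W.inv]
    exact hsx W k
  have m3 : X.d y (h • y) ≤ 4 * U + δ :=
    (thm_hyp V X).2.2 Q δ W.inv W.four h x P y (4 * U) (by omega) (by omega) m2
  have b1 : X.d x y + X.d y R ≤ X.d x R + δ := by
    have t1 := W.four y R x P
    have t2 := X.comm y x
    have t3 := X.comm R P
    have t4 := X.comm R x
    omega
  obtain ⟨y', z1, z2⟩ := (thm_hyp V X).2.1 δ W.four x R y δ b1
  have m4 : X.d x (η • x) ≤ 4 * U := by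
    have t1 := W.inv (s (k + 1)) ((s (k + 1))⁻¹ • x) (h • (s (k + 1))⁻¹ • x)
    rw [smul_inv_smul] at t1
    rw [hη, mul_smul, mul_smul, t1]
    exact hsx W (k + 1)
  have m5 : X.d R (η • R) ≤ 4 * U := by
    have e1 : η • R = (s (k + 1) * h ^ ex (k + 1)) • h • x := by
      rw [hη, hR, ← mul_smul, ← mul_smul]
      congr 1
      rw [mul_assoc (s (k + 1)) (h ^ ex (k + 1)) h, ← pow_succ, pow_succ']
      group
    rw [e1, hR, W.inv]
    omega
  have m6 : X.d y' (η • y') ≤ 4 * U + δ :=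
    (thm_hyp V X).2.2 Q δ W.inv W.four η x R y' (4 * U) z1 m4 m5
  have m7 : X.d y (η • y) ≤ 5 * U := by
    have t1 := X.tri y y' (η • y)
    have t2 := X.tri y' (η • y') (η • y)
    have t3 := W.inv η y' y
    have t4 := X.comm y y'
    omega
  have c1 : Commute h η :=
    W.aca (5 * U) h η x y (by omega) (by omega) (by omega) m7 (by omega)
  exact W.ncomm (k + 1) ((W.cm h (by linarith [W.tau1])).2 (s (k + 1)) c1)

theorem juncg (W : Word Q V X δ A U e h x s ex g) (k : ℕ) :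
    X.d (g k • x) (g (k + 1) • x) + X.d (g (k + 1) • x) (g (k + 2) • x) ≤
      X.d (g k • x) (g (k + 2) • x) + 203 * U := by
  have t := junc W k
  have e1 : g k • x = g (k + 1) • (s k * h ^ ex k)⁻¹ • x := by
    rw [W.hg k, mul_assoc, ← mul_smul, mul_inv_cancel_right]
  have e2 : g (k + 2) • x = g (k + 1) • (s (k + 1) * h ^ ex (k + 1)) • x := by
    rw [← mul_smul, ← mul_assoc, ← W.hg (k + 1)]
  rw [e1, e2, W.inv, W.inv, W.inv, X.comm _ x]
  exact t

end word

end Tw3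

theorem thm_w3 : S_w3 := by
  intro Q V _ _ X δ A U e h x s ex g W
  have hδU : δ ≤ U := by have := W.δU; omega
  have hU : 1 ≤ U := by have := W.δU; have := W.hδ; omega
  have hl : ∀ k, 1000 * U ≤ X.d (g k • x) (g (k + 1) • x) := by
    intro k; rw [Tw3.dstep W k]; exact Tw3.stepN W k
  refine ⟨Tw3.btw X (fun k => g k • x) W.four hδU hU hl (Tw3.juncg W), ?_⟩
  intro i k
  induction k with
  | zero => simp
  | succ k ih =>
    have t1 := Tw3.fwd X (fun k => g k • x) W.four hδU hU hl (Tw3.juncg W) i (i + k) (by omega)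
    have t2 := Tw3.step W (i + k)
    rw [← Tw3.dstep W (i + k)] at t2
    have t3 : (X.d (g i • x) (g (i + k) • x) : ℝ) + X.d (g (i + k) • x) (g (i + k + 1) • x) ≤
        X.d (g i • x) (g (i + k + 1) • x) + 204 * U := by exact_mod_cast t1
    have t4 : ((10 ^ 6 * U : ℕ) : ℝ) ≤ e := by exact_mod_cast W.eU
    have t5 := W.tau1
    have t6 : (0 : ℝ) ≤ U := Nat.cast_nonneg U
    have t7 : (0 : ℝ) ≤ e := Nat.cast_nonneg e
    have t8 : (e : ℝ) ≤ e * X.tau h := by nlinarith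
    push_cast at t4 ⊢
    rw [← add_assoc]
    nlinarith

end Pool.Agent.SCZ.Grp
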