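import Pool.Agent.SCZ.Grp.St
import Pool.Agent.H59Z.NA.Thyp
import Pool.Agent.H59Z.NA.Ttau

set_option autoImplicit false

/-!
# Two translates of a long word with a long overlap have matching blocks
-/

namespace Pool.Agent.SCZ.Grp

open Pool.Agent.H59Z.NA

namespace Tw5

theorem ivt (P : ℕ → Prop) (a b : ℕ) (hab : a ≤ b) (ha : ¬ P a) (hb : P b) :
    ∃ j, a ≤ j ∧ j < b ∧ ¬ P j ∧ P (j + 1) := by
  induction b, hab using Nat.le_induction with
  | base => exact absurd hb ha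
  | succ b hab ih =>
    by_cases h : P b
    · obtain ⟨j, h1, h2, h3, h4⟩ := ih h
      exact ⟨j, h1, by omega, h3, h4⟩
    · exact ⟨b, hab, by omega, h, hb⟩

section geo

variable {V : Type} (X : GM V)

theorem btw_symm {E : ℕ} {a z b : V} (h : Btw X E a z b) : Btw X E b z a := by
  unfold Btw at *
  have := X.comm a z
  have := X.comm z b
  have := X.comm a b
  omega

theorem posA {δ : ℕ} (h4 : X.Four δ) {E₁ E₂ : ℕ} {a b w w' : V} (hw : Btw X E₁ a w b)
    (hw' : Btw X E₂ a w' b) :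
    X.d w w' + X.d a w' ≤ X.d a w + E₂ + δ ∨ X.d w w' + X.d a w ≤ X.d a w' + E₁ + δ := by
  unfold Btw at *
  have h := h4 w w' a b
  have := X.comm w a
  have := X.comm w' a
  omega

/-- An isometry moving the ends by little moves every point in between by little. -/
theorem move {Q : Type} [Group Q] [MulAction Q V] {δ : ℕ} (hI : X.Inv Q) (h4 : X.Four δ)
    (g : Q) {E D : ℕ} {a b y : V} (hy : Btw X E a y b) (ha : X.d a (g • a) ≤ D)
    (hb : X.d b (g • b) ≤ D) : X.d y (g • y) ≤ D + 2 * E + 3 * δ := by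
  obtain ⟨y', h1, h2⟩ := (thm_hyp V X).2.1 δ h4 a b y E hy
  have h3 := (thm_hyp V X).2.2 Q δ hI h4 g a b y' D h1 ha hb
  have t1 := X.tri y y' (g • y)
  have t2 := X.tri y' (g • y') (g • y)
  have t3 := hI g y' y
  have t4 := X.comm y' y
  omega

/-- A point of a geodesic `[p,q]` whose position is between those of `a` and `a'`. -/
theorem inner {δ : ℕ} (h4 : X.Four δ) {E : ℕ} {p q a a' y : V} (ha : Btw X E p a q)
    (ha' : Btw X E p a' q) (hy : Btw X 0 p y q) (h1 : X.d p a ≤ X.d p y)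
    (h2 : X.d p y ≤ X.d p a') : Btw X (2 * E + 2 * δ) a y a' := by
  have e1 := posA X h4 ha hy
  have e2 := posA X h4 hy ha'
  have t := X.tri p a a'
  unfold Btw
  omega

/-- Overlapping segments: elements translating along them commute. -/
theorem overlap {Q : Type} [Group Q] [MulAction Q V] {δ A U : ℕ} (hI : X.Inv Q) (h4 : X.Four δ)
    (hA : AcA X Q A) (hAU : A ≤ U) (hδ : 2000 * δ ≤ U) (η η' : Q) {p q a a' b b' : V}
    (ha : Btw X (601 * U) p a q) (ha' : Btw X (601 * U) p a' q)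
    (hb : Btw X (601 * U) p b q) (hb' : Btw X (601 * U) p b' q)
    (m1 : X.d a (η • a) ≤ 4 * U) (m2 : X.d a' (η • a') ≤ 4 * U)
    (m3 : X.d b (η' • b) ≤ 4 * U) (m4 : X.d b' (η' • b') ≤ 4 * U) (t : ℕ)
    (o1 : X.d p a ≤ t) (o2 : t + 100000 * U ≤ X.d p a') (o3 : X.d p b ≤ t)
    (o4 : t + 100000 * U ≤ X.d p b') : Commute η η' := by
  have hD : t + 99000 * U ≤ X.d p q := by
    unfold Btw at ha'
    omega
  obtain ⟨y1, e1, e1'⟩ := X.geo p q t (by omega)
  obtain ⟨y2, e2, e2'⟩ := X.geo p q (t + 99000 * U) hD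
  have b1 : Btw X 0 p y1 q := by unfold Btw; omega
  have b2 : Btw X 0 p y2 q := by unfold Btw; omega
  have i1 := move X hI h4 η (inner X h4 ha ha' b1 (by omega) (by omega)) m1 m2
  have i2 := move X hI h4 η (inner X h4 ha ha' b2 (by omega) (by omega)) m1 m2
  have i3 := move X hI h4 η' (inner X h4 hb hb' b1 (by omega) (by omega)) m3 m4
  have i4 := move X hI h4 η' (inner X h4 hb hb' b2 (by omega) (by omega)) m3 m4
  have t1 := X.tri p y1 y2
  exact hA (3000 * U) η η' y1 y2 (by omega) (by omega) (by omega) (by omega) (by omega)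

/-- A chain which passes from `p` to `q`. -/
def Pass (U n : ℕ) (z : ℕ → V) (p q : V) (a b : ℕ) : Prop :=
  a ≤ b ∧ (∀ k, a ≤ k → k ≤ b → Btw X (601 * U) p (z k) q) ∧
  (∀ k, a ≤ k → k < b → 10 * X.d p (z k) + 8 * n ≤ 10 * X.d p (z (k + 1))) ∧
  X.d p (z a) ≤ 3 * n ∧ X.d q (z b) ≤ 3 * n

theorem pass_of_le {δ U n M : ℕ} (h4 : X.Four δ) (hδ : 2000 * δ ≤ U) (hn : 1000000 * U ≤ n)
    (hU : 1 ≤ U) (z : ℕ → V) (p q : V)
    (hz : ∀ i j k, i ≤ j → j ≤ k → Btw X (300 * U) (z i) (z j) (z k))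
    (hlo : ∀ k, 9 * n ≤ 10 * X.d (z k) (z (k + 1)))
    (hhi : ∀ k, X.d (z k) (z (k + 1)) ≤ 2 * n + 3 * U)
    (hp : Btw X U (z 0) p (z M)) (hq : Btw X U (z 0) q (z M)) (hD : 40 * n ≤ X.d p q)
    (hle : X.d (z 0) p ≤ X.d (z 0) q) : ∃ a b, Pass X U n z p q a b := by
  have hpq := posA X h4 hp hq
  have tpq := X.tri (z 0) p q
  have hstep : ∀ k, 10 * X.d (z 0) (z k) + 9 * n ≤ 10 * X.d (z 0) (z (k + 1)) + 3000 * U := by
    intro k
    have h1 := hz 0 k (k + 1) (by omega) (by omega)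
    have h2 := hlo k
    unfold Btw at h1
    omega
  have hup : ∀ k, X.d (z 0) (z (k + 1)) ≤ X.d (z 0) (z k) + 2 * n + 3 * U := by
    intro k
    have h1 := X.tri (z 0) (z k) (z (k + 1))
    have h2 := hhi k
    omega
  have hmono : Monotone fun k => X.d (z 0) (z k) := by
    refine monotone_nat_of_le_succ fun k => ?_
    have := hstep k
    omega
  have hqM : X.d (z 0) q ≤ X.d (z 0) (z M) + U := by
    unfold Btw at hq
    omega
  have h00 := X.self (z 0)
  obtain ⟨a0, -, ha0, ha1, ha2⟩ := ivt (fun k => X.d (z 0) p < X.d (z 0) (z k)) 0 M (by omega)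
    (by omega) (by omega)
  have hb : ∃ b, b ≤ M ∧ X.d (z 0) (z b) ≤ X.d (z 0) q ∧
      X.d (z 0) q ≤ X.d (z 0) (z b) + 2 * n + 3 * U := by
    by_cases hM : X.d (z 0) q < X.d (z 0) (z M)
    · obtain ⟨b, -, hb0, hb1, hb2⟩ := ivt (fun k => X.d (z 0) q < X.d (z 0) (z k)) 0 M
        (by omega) (by omega) hM
      have := hup b
      exact ⟨b, by omega, by omega, by omega⟩
    · exact ⟨M, le_rfl, by omega, by omega⟩
  obtain ⟨b, hbM, hb1, hb2⟩ := hb
  have hab : a0 + 1 ≤ b := by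
    by_contra hcon
    have : X.d (z 0) (z b) ≤ X.d (z 0) (z a0) := hmono (by omega : b ≤ a0)
    omega
  have key : ∀ k, a0 + 1 ≤ k → k ≤ b →
      X.d p (z k) + X.d (z 0) p ≤ X.d (z 0) (z k) + 300 * U + δ ∧
      X.d (z k) q + X.d (z 0) (z k) ≤ X.d (z 0) q + 300 * U + δ := by
    intro k h1 h2
    have m1 : X.d (z 0) (z (a0 + 1)) ≤ X.d (z 0) (z k) := hmono h1
    have m2 : X.d (z 0) (z k) ≤ X.d (z 0) (z b) := hmono h2
    have hk := hz 0 k M (by omega) (by omega)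
    have e1 := posA X h4 hp hk
    have e2 := posA X h4 hk hq
    constructor <;> omega
  refine ⟨a0 + 1, b, hab, fun k h1 h2 => ?_, fun k h1 h2 => ?_, ?_, ?_⟩
  · have := key k h1 h2
    unfold Btw
    omega
  · have e1 := key k h1 (by omega)
    have e2 := hstep k
    have e3 := X.tri (z 0) p (z (k + 1))
    omega
  · have e1 := key (a0 + 1) le_rfl hab
    have e2 := hup a0
    omega
  · have e1 := key b hab le_rfl
    have e2 := X.comm q (z b)
    omega

theorem pass_or {δ U n M : ℕ} (h4 : X.Four δ) (hδ : 2000 * δ ≤ U) (hn : 1000000 * U ≤ n)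
    (hU : 1 ≤ U) (z : ℕ → V) (p q : V)
    (hz : ∀ i j k, i ≤ j → j ≤ k → Btw X (300 * U) (z i) (z j) (z k))
    (hlo : ∀ k, 9 * n ≤ 10 * X.d (z k) (z (k + 1)))
    (hhi : ∀ k, X.d (z k) (z (k + 1)) ≤ 2 * n + 3 * U)
    (hp : Btw X U (z 0) p (z M)) (hq : Btw X U (z 0) q (z M)) (hD : 40 * n ≤ X.d p q) :
    (∃ a b, Pass X U n z p q a b) ∨ ∃ a b, Pass X U n z q p a b := by
  rcases le_total (X.d (z 0) p) (X.d (z 0) q) with h | h
  · exact Or.inl (pass_of_le X h4 hδ hn hU z p q hz hlo hhi hp hq hD h)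
  · exact Or.inr (pass_of_le X h4 hδ hn hU z q p hz hlo hhi hq hp (by rw [X.comm]; exact hD) h)

end geo

section word

variable {Q V : Type} [Group Q] [MulAction Q V] {X : GM V} {δ A U e : ℕ} {h : Q} {x : V}
  {s : ℕ → Q} {ex : ℕ → ℕ} {g : ℕ → Q}

theorem hx_le (W : Word Q V X δ A U e h x s ex g) : X.d x (h • x) ≤ 2 * U := by
  have h1 := W.axis h (Commute.refl h)
  have h2 := W.tauU
  have h3 : (2000 * δ : ℝ) ≤ U := by exact_mod_cast W.δU
  have h4 : (0 : ℝ) ≤ δ := Nat.cast_nonneg _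
  have : (X.d x (h • x) : ℝ) ≤ 2 * U := by linarith
  exact_mod_cast this

theorem mv_succ (W : Word Q V X δ A U e h x s ex g) (G : Q) (k : ℕ) :
    X.d ((G * g (k + 1)) • x)
      (((G * g (k + 1)) * h * (G * g (k + 1))⁻¹) • (G * g (k + 1)) • x) ≤ 4 * U := by
  have e1 : ((G * g (k + 1)) * h * (G * g (k + 1))⁻¹) • (G * g (k + 1)) • x
      = (G * g (k + 1)) • h • x := by
    simp only [smul_smul]; congr 1; group
  rw [e1, W.inv]
  have := hx_le W
  omega

theorem mv_self (W : Word Q V X δ A U e h x s ex g) (G : Q) (k : ℕ) :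
    X.d ((G * g k) • x)
      (((G * g (k + 1)) * h * (G * g (k + 1))⁻¹) • (G * g k) • x) ≤ 4 * U := by
  have e1 : ((G * g (k + 1)) * h * (G * g (k + 1))⁻¹) • (G * g k) • x
      = (G * g k) • (s k) • h • (s k)⁻¹ • x := by
    simp only [smul_smul]; congr 1; rw [W.hg]; group
  rw [e1, W.inv]
  have t1 := X.tri x (s k • x) (s k • h • (s k)⁻¹ • x)
  have t2 := W.inv (s k) x (h • (s k)⁻¹ • x)
  have t3 := X.tri x (h • x) (h • (s k)⁻¹ • x)
  have t4 := W.inv h x ((s k)⁻¹ • x)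
  have t5 := W.inv (s k) x ((s k)⁻¹ • x)
  rw [smul_inv_smul] at t5
  have t6 := X.comm (s k • x) x
  have t7 := W.sU k
  have t8 := hx_le W
  omega

theorem comm_of_conj (W : Word Q V X δ A U e h x s ex g) (a b : Q)
    (hc : Commute (a * h * a⁻¹) (b * h * b⁻¹)) : Commute (a⁻¹ * b) h := by
  have hpos : 0 < X.tau h := lt_of_lt_of_le one_pos W.tau1
  refine (W.cm h hpos).2 (a⁻¹ * b) ?_
  have e := hc.eq
  have : h * (a⁻¹ * b * h * (a⁻¹ * b)⁻¹) = a⁻¹ * ((a * h * a⁻¹) * (b * h * b⁻¹)) * a := by group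
  have e2 : (a⁻¹ * b * h * (a⁻¹ * b)⁻¹) * h = a⁻¹ * ((b * h * b⁻¹) * (a * h * a⁻¹)) * a := by
    group
  show h * _ = _ * h
  rw [this, e2, e]

theorem not_both_left (W : Word Q V X δ A U e h x s ex g) (G b : Q) (k : ℕ)
    (h1 : Commute ((G * g k)⁻¹ * b) h) (h2 : Commute ((G * g (k + 1))⁻¹ * b) h) : False := by
  apply W.ncomm k
  have h3 : Commute (((G * g k)⁻¹ * b) * ((G * g (k + 1))⁻¹ * b)⁻¹ * (h ^ ex k)⁻¹) h :=
    (h1.mul_left h2.inv_left).mul_left ((Commute.refl h).pow_left _).inv_left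
  have e1 : ((G * g k)⁻¹ * b) * ((G * g (k + 1))⁻¹ * b)⁻¹ * (h ^ ex k)⁻¹ = s k := by
    rw [W.hg]; group
  rwa [e1] at h3

theorem not_both_right (W : Word Q V X δ A U e h x s ex g) (G a : Q) (k : ℕ)
    (h1 : Commute (a⁻¹ * (G * g k)) h) (h2 : Commute (a⁻¹ * (G * g (k + 1))) h) : False := by
  refine not_both_left W G a k ?_ ?_
  · have := h1.inv_left
    rwa [mul_inv_rev, inv_inv] at this
  · have := h2.inv_left
    rwa [mul_inv_rev, inv_inv] at this

theorem abs_ineq (w n : ℤ) (m m' : ℕ) :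
    |w + n * m - n * m'| + |w| ≤ |w + n * m| + |w - n * m'| := by
  have h1 : (0 ≤ n * m ∧ 0 ≤ n * m') ∨ (n * m ≤ 0 ∧ n * m' ≤ 0) := by
    rcases le_total 0 n with hn | hn
    · exact Or.inl ⟨by positivity, by positivity⟩
    · exact Or.inr ⟨mul_nonpos_of_nonpos_of_nonneg hn (by positivity),
        mul_nonpos_of_nonpos_of_nonneg hn (by positivity)⟩
  generalize n * (m : ℤ) = a at *
  generalize n * (m' : ℤ) = b at *
  simp only [abs_eq_max_neg]
  omega

theorem tau_ineq (W : Word Q V X δ A U e h x s ex g) (γ : Q) (hγ : Commute γ h) (m m' : ℕ) :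
    X.tau (h ^ m * γ * (h ^ m')⁻¹) + X.tau γ ≤ X.tau (h ^ m * γ) + X.tau (γ * (h ^ m')⁻¹) := by
  have hpos : 0 < X.tau h := lt_of_lt_of_le one_pos W.tau1
  obtain ⟨c, hc⟩ := (W.cm h hpos).1
  obtain ⟨n, hn⟩ := Subgroup.mem_zpowers_iff.1 (hc h (Commute.refl h))
  obtain ⟨w, hw⟩ := Subgroup.mem_zpowers_iff.1 (hc γ hγ)
  have T := (thm_tau Q V X W.inv).2.2.2.1 c
  have T0 := (thm_tau Q V X W.inv).2.1 c
  have e1 : h ^ m * γ * (h ^ m')⁻¹ = c ^ (w + n * m - n * m') := by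
    rw [← hn, ← hw]; group
  have e2 : h ^ m * γ = c ^ (w + n * m) := by
    rw [← hn, ← hw]; group
  have e3 : γ * (h ^ m')⁻¹ = c ^ (w - n * m') := by
    rw [← hn, ← hw]; group
  rw [e1, e2, e3, T, T, T]
  have e4 : X.tau γ = |(w : ℝ)| * X.tau c := by rw [← hw, T]
  rw [e4, ← add_mul, ← add_mul]
  refine mul_le_mul_of_nonneg_right ?_ T0
  have := abs_ineq w n m m'
  exact_mod_cast this

theorem tau_le (W : Word Q V X δ A U e h x s ex g) (c : Q) : X.tau c ≤ X.d x (c • x) := by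
  have := (thm_tau Q V X W.inv).1 c x 1
  simpa using this

theorem near_self (W : Word Q V X δ A U e h x s ex g) (G : Q) (k : ℕ) :
    X.d ((G * g k) • x) ((G * g (k + 1)) • (h ^ ex k)⁻¹ • x) ≤ U := by
  have e1 : (G * g (k + 1)) • (h ^ ex k)⁻¹ • x = (G * g k) • s k • x := by
    simp only [smul_smul]; congr 1; rw [W.hg]; group
  rw [e1, W.inv]
  exact W.sU k

/-- Matching blocks have the same orientation. -/
theorem orient (W : Word Q V X δ A U e h x s ex g) (G₁ G₂ : Q) (k j : ℕ)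
    (hc : Commute ((G₁ * g (k + 1))⁻¹ * (G₂ * g (j + 1))) h) :
    X.d ((G₁ * g k) • x) ((G₂ * g j) • x) + X.d ((G₁ * g (k + 1)) • x) ((G₂ * g (j + 1)) • x) ≤
      X.d ((G₁ * g k) • x) ((G₂ * g (j + 1)) • x) +
        X.d ((G₁ * g (k + 1)) • x) ((G₂ * g j) • x) + 5 * U := by
  set a := G₁ * g (k + 1) with ha
  set b := G₂ * g (j + 1) with hb
  set γ := a⁻¹ * b with hγ
  have n1 := near_self W G₁ k
  have n2 := near_self W G₂ j
  rw [← ha] at n1
  rw [← hb] at n2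
  have hm : Commute (h ^ ex k) h := (Commute.refl h).pow_left _
  have hm' : Commute (h ^ ex j)⁻¹ h := ((Commute.refl h).pow_left _).inv_left
  have d1 : X.d (a • (h ^ ex k)⁻¹ • x) (b • (h ^ ex j)⁻¹ • x)
      = X.d x ((h ^ ex k * γ * (h ^ ex j)⁻¹) • x) := by
    rw [← W.inv (a * (h ^ ex k)⁻¹) x]
    simp only [smul_smul]; congr 2; rw [hγ]; group
  have d2 : X.d (a • x) (b • x) = X.d x (γ • x) := by
    rw [← W.inv a x]
    simp only [smul_smul]; congr 2; rw [hγ]; group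
  have d3 : X.d (a • (h ^ ex k)⁻¹ • x) (b • x) = X.d x ((h ^ ex k * γ) • x) := by
    rw [← W.inv (a * (h ^ ex k)⁻¹) x]
    simp only [smul_smul]; congr 2; rw [hγ]; group
  have d4 : X.d (a • x) (b • (h ^ ex j)⁻¹ • x) = X.d x ((γ * (h ^ ex j)⁻¹) • x) := by
    rw [← W.inv a x]
    simp only [smul_smul]; congr 2; rw [hγ]; group
  have u1 := W.axis _ ((hm.mul_left hc).mul_left hm')
  have u2 := W.axis _ hc
  have u3 := tau_le W (h ^ ex k * γ)
  have u4 := tau_le W (γ * (h ^ ex j)⁻¹)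
  have u5 := tau_ineq W γ hc (ex k) (ex j)
  have u6 : (X.d x ((h ^ ex k * γ * (h ^ ex j)⁻¹) • x) : ℝ) + X.d x (γ • x) ≤
      X.d x ((h ^ ex k * γ) • x) + X.d x ((γ * (h ^ ex j)⁻¹) • x) + 24 * δ := by linarith
  have u7 : X.d x ((h ^ ex k * γ * (h ^ ex j)⁻¹) • x) + X.d x (γ • x) ≤
      X.d x ((h ^ ex k * γ) • x) + X.d x ((γ * (h ^ ex j)⁻¹) • x) + 24 * δ := by
    exact_mod_cast u6
  rw [← d1, ← d2, ← d3, ← d4] at u7
  have t1 := X.tri ((G₁ * g k) • x) (a • (h ^ ex k)⁻¹ • x) ((G₂ * g j) • x)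
  have t2 := X.tri (a • (h ^ ex k)⁻¹ • x) (b • (h ^ ex j)⁻¹ • x) ((G₂ * g j) • x)
  have t3 := X.comm (b • (h ^ ex j)⁻¹ • x) ((G₂ * g j) • x)
  have t4 := X.tri (a • (h ^ ex k)⁻¹ • x) ((G₁ * g k) • x) (b • x)
  have t5 := X.comm (a • (h ^ ex k)⁻¹ • x) ((G₁ * g k) • x)
  have t6 := X.tri (a • x) ((G₂ * g j) • x) (b • (h ^ ex j)⁻¹ • x)
  have t7 := W.δU
  omega

theorem step_hi (W : Word Q V X δ A U e h x s ex g) (G : Q) (k : ℕ) :
    X.d ((G * g k) • x) ((G * g (k + 1)) • x) ≤ 2 * ⌊e * X.tau h⌋₊ + 3 * U := by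
  have e1 : (G * g (k + 1)) • x = (G * g k) • s k • h ^ ex k • x := by
    simp only [smul_smul]; congr 1; rw [W.hg]; group
  rw [e1, W.inv]
  have t1 := X.tri x (s k • x) (s k • h ^ ex k • x)
  have t2 := W.inv (s k) x (h ^ ex k • x)
  have t3 := W.sU k
  have u1 := W.axis _ ((Commute.refl h).pow_left (ex k))
  have u2 := Ttau.tnat X W.inv h (ex k)
  have u3 : ((ex k : ℕ) : ℝ) ≤ 2 * e := by exact_mod_cast (W.hex k).2
  have u4 : (e : ℝ) * X.tau h < ⌊e * X.tau h⌋₊ + 1 := Nat.lt_floor_add_one _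
  have u5 : (ex k : ℝ) * X.tau h ≤ 2 * e * X.tau h :=
    mul_le_mul_of_nonneg_right u3 (le_trans zero_le_one W.tau1)
  have u6 : (X.d x (h ^ ex k • x) : ℝ) ≤ 2 * ⌊e * X.tau h⌋₊ + 2 + 12 * δ := by linarith
  have u7 : X.d x (h ^ ex k • x) ≤ 2 * ⌊e * X.tau h⌋₊ + 2 + 12 * δ := by exact_mod_cast u6
  have := W.δU
  have := W.hδ
  omega

theorem main (W : Word Q V X δ A U e h x s ex g) (n : ℕ) (hn : 1000000 * U ≤ n)
    (hhi : ∀ (G : Q) k, X.d ((G * g k) • x) ((G * g (k + 1)) • x) ≤ 2 * n + 3 * U)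
    (G₁ G₂ : Q) (p q : V) (hD : 40 * n ≤ X.d p q) (a b : ℕ)
    (P1 : Pass X U n (fun k => (G₁ * g k) • x) p q a b)
    (P2 : (∃ a' b', Pass X U n (fun k => (G₂ * g k) • x) p q a' b') ∨
      ∃ a' b', Pass X U n (fun k => (G₂ * g k) • x) q p a' b') :
    ∃ k j : ℕ, ∀ i, i < 7 → Commute ((G₁ * g (k + i + 1))⁻¹ * (G₂ * g (j + i + 1))) h := by
  have hδU := W.δU
  have hδ := W.hδ
  obtain ⟨hab, hin, hst, hs, ht⟩ := P1
  simp only at hin hst hs ht
  have up : ∀ (G : Q) k, X.d p ((G * g (k + 1)) • x) ≤ X.d p ((G * g k) • x) + 2 * n + 3 * U := by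
    intro G k
    have := X.tri p ((G * g k) • x) ((G * g (k + 1)) • x)
    have := hhi G k
    omega
  have far : ∀ y : V, X.d q y ≤ 3 * n → 37 * n ≤ X.d p y := by
    intro y hy
    have := X.tri p y q
    have := X.comm q y
    omega
  have fb := far _ ht
  obtain ⟨k0, hk0, hk1, hk2, hk3⟩ := ivt (fun k => 3 * n < X.d p ((G₁ * g k) • x)) a b hab
    (by omega) (by omega)
  have hk4 := up G₁ k0
  obtain ⟨k, hk⟩ : ∃ k, k = k0 + 1 := ⟨_, rfl⟩
  rw [← hk] at hk3 hk4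
  have upi : ∀ (G : Q) k i, X.d p ((G * g (k + i)) • x) ≤
      X.d p ((G * g k) • x) + i * (2 * n + 3 * U) := by
    intro G k i
    induction i with
    | zero => simp
    | succ i ih =>
      have := up G (k + i)
      rw [← Nat.add_assoc, Nat.succ_mul]
      omega
  have range : ∀ (G : Q) k b, k ≤ b → X.d p ((G * g k) • x) ≤ 6 * n →
      37 * n ≤ X.d p ((G * g b) • x) → k + 8 ≤ b := by
    intro G k b h1 h2 h3
    by_contra hcon
    obtain ⟨i, rfl⟩ := Nat.exists_eq_add_of_le h1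
    have h4 := upi G k i
    have h5 : i * (2 * n + 3 * U) ≤ 7 * (2 * n + 3 * U) := Nat.mul_le_mul_right _ (by omega)
    omega
  have hkb : k + 8 ≤ b := range G₁ k b (by omega) (by omega) fb
  rcases P2 with ⟨a', b', hab', hin', hst', hs', ht'⟩ | ⟨a', b', hab', hin', hst', hs', ht'⟩
  · simp only at hin' hst' hs' ht'
    have fb' := far _ ht'
    obtain ⟨j, hj0, hj1, hj2, hj3⟩ := ivt
      (fun j => X.d p ((G₁ * g k) • x) + 100000 * U < X.d p ((G₂ * g j) • x)) a' b' hab'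
      (by omega) (by omega)
    have hjb : j + 8 ≤ b' := range G₂ j b' (by omega) (by omega) fb'
    have mt : ∀ k j, a ≤ k → k < b → a' ≤ j → j < b' →
        max (X.d p ((G₁ * g k) • x)) (X.d p ((G₂ * g j) • x)) + 100000 * U ≤
          min (X.d p ((G₁ * g (k + 1)) • x)) (X.d p ((G₂ * g (j + 1)) • x)) →
        Commute ((G₁ * g (k + 1))⁻¹ * (G₂ * g (j + 1))) h := by
      intro k j h1 h2 h3 h4 h5
      refine comm_of_conj W _ _ ?_
      exact overlap X W.inv W.four W.aca W.AU W.δU _ _ (hin k h1 (by omega))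
        (hin (k + 1) (by omega) (by omega)) (hin' j h3 (by omega))
        (hin' (j + 1) (by omega) (by omega)) (mv_self W G₁ k) (mv_succ W G₁ k)
        (mv_self W G₂ j) (mv_succ W G₂ j)
        (max (X.d p ((G₁ * g k) • x)) (X.d p ((G₂ * g j) • x)))
        (by omega) (by omega) (by omega) (by omega)
    have all : ∀ i, i < 7 →
        max (X.d p ((G₁ * g (k + i)) • x)) (X.d p ((G₂ * g (j + i)) • x)) + 100000 * U ≤
          min (X.d p ((G₁ * g (k + i + 1)) • x)) (X.d p ((G₂ * g (j + i + 1)) • x)) := by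
      intro i
      induction i with
      | zero =>
        intro _
        have s1 := hst k (by omega) (by omega)
        have s2 := hst' j (by omega) (by omega)
        simp only [Nat.add_zero]
        omega
      | succ i ih =>
        intro hi
        have h0 := ih (by omega)
        have c0 := mt (k + i) (j + i) (by omega) (by omega) (by omega) (by omega) h0
        have s1 := hst (k + i + 1) (by omega) (by omega)
        have s2 := hst' (j + i + 1) (by omega) (by omega)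
        have n1 : ¬ (max (X.d p ((G₁ * g (k + i + 1)) • x)) (X.d p ((G₂ * g (j + i)) • x))
            + 100000 * U ≤ min (X.d p ((G₁ * g (k + i + 1 + 1)) • x))
              (X.d p ((G₂ * g (j + i + 1)) • x))) := fun hh =>
          not_both_left W G₁ _ (k + i + 1) c0
            (mt (k + i + 1) (j + i) (by omega) (by omega) (by omega) (by omega) hh)
        have n2 : ¬ (max (X.d p ((G₁ * g (k + i)) • x)) (X.d p ((G₂ * g (j + i + 1)) • x))
            + 100000 * U ≤ min (X.d p ((G₁ * g (k + i + 1)) • x))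
              (X.d p ((G₂ * g (j + i + 1 + 1)) • x))) := fun hh =>
          not_both_right W G₂ _ (j + i + 1) c0
            (mt (k + i) (j + i + 1) (by omega) (by omega) (by omega) (by omega) hh)
        simp only [← Nat.add_assoc]
        omega
    exact ⟨k, j, fun i hi =>
      mt (k + i) (j + i) (by omega) (by omega) (by omega) (by omega) (all i hi)⟩
  · exfalso
    simp only at hin' hst' hs' ht'
    have fa' := far _ hs'
    obtain ⟨j, hj0, hj1, hj2, hj3⟩ := ivt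
      (fun j => X.d p ((G₂ * g j) • x) ≤ X.d p ((G₁ * g k) • x) + 100000 * U) a' b' hab'
      (by omega) (by omega)
    have B1 := hin k (by omega) (by omega)
    have B2 := hin (k + 1) (by omega) (by omega)
    have B3 := btw_symm X (hin' j (by omega) (by omega))
    have B4 := btw_symm X (hin' (j + 1) (by omega) (by omega))
    have s1 := hst k (by omega) (by omega)
    have s2 := hst' j (by omega) (by omega)
    have s3 : 10 * X.d p ((G₂ * g (j + 1)) • x) + 7 * n ≤ 10 * X.d p ((G₂ * g j) • x) := by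
      have t1 := X.tri p ((G₂ * g j) • x) q
      have t2 := X.comm q ((G₂ * g j) • x)
      have t3 := X.comm q ((G₂ * g (j + 1)) • x)
      unfold Btw at B4
      omega
    have c0 : Commute ((G₁ * g (k + 1))⁻¹ * (G₂ * g (j + 1))) h := by
      refine comm_of_conj W _ _ ?_
      exact overlap X W.inv W.four W.aca W.AU W.δU _ _ B1 B2 B4 B3 (mv_self W G₁ k)
        (mv_succ W G₁ k) (mv_succ W G₂ j) (mv_self W G₂ j)
        (max (X.d p ((G₁ * g k) • x)) (X.d p ((G₂ * g (j + 1)) • x)))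
        (by omega) (by omega) (by omega) (by omega)
    have o := orient W G₁ G₂ k j c0
    have e1 := posA X W.four B1 B4
    have e2 := posA X W.four B2 B3
    have t1 := X.tri p ((G₁ * g k) • x) ((G₂ * g j) • x)
    have t2 := X.tri p ((G₂ * g (j + 1)) • x) ((G₁ * g (k + 1)) • x)
    have t3 := X.comm ((G₂ * g (j + 1)) • x) ((G₁ * g (k + 1)) • x)
    omega

end word

end Tw5

theorem thm_w5 (h3 : S_w3) : S_w5 := by
  intro Q V _ _ X δ A U e h x s ex g W G₁ G₂ M p q hp1 hq1 hp2 hq2 hD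
  obtain ⟨w1, w2⟩ := h3 Q V X δ A U e h x s ex g W
  have hδU := W.δU
  have hδ := W.hδ
  have T1 := W.tau1
  have he0 : (0 : ℝ) ≤ e := Nat.cast_nonneg _
  have hfl : ((⌊e * X.tau h⌋₊ : ℕ) : ℝ) ≤ e * X.tau h := Nat.floor_le (by positivity)
  have hn : 1000000 * U ≤ ⌊e * X.tau h⌋₊ := by
    have h1 : e ≤ ⌊e * X.tau h⌋₊ := Nat.le_floor (by nlinarith)
    have h2 := W.eU
    omega
  have hD' : 40 * ⌊e * X.tau h⌋₊ ≤ X.d p q := by
    have : (40 * (⌊e * X.tau h⌋₊ : ℕ) : ℝ) ≤ X.d p q := by linarith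
    exact_mod_cast this
  have hz : ∀ (G : Q) i j k, i ≤ j → j ≤ k →
      Btw X (300 * U) ((G * g i) • x) ((G * g j) • x) ((G * g k) • x) := by
    intro G i j k h1 h2
    have := w1 i j k h1 h2
    unfold Btw at *
    simpa only [mul_smul, W.inv G] using this
  have hlo : ∀ (G : Q) k, 9 * ⌊e * X.tau h⌋₊ ≤
      10 * X.d ((G * g k) • x) ((G * g (k + 1)) • x) := by
    intro G k
    have h1 := w2 k 1
    rw [mul_smul, mul_smul, W.inv G]
    have : (9 * (⌊e * X.tau h⌋₊ : ℕ) : ℝ) ≤ 10 * X.d (g k • x) (g (k + 1) • x) := by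
      push_cast at h1
      linarith
    exact_mod_cast this
  have hhi := Tw5.step_hi W
  have P1 := Tw5.pass_or X W.four W.δU hn (by omega) (fun k => (G₁ * g k) • x) p q (hz G₁)
    (hlo G₁) (hhi G₁) hp1 hq1 hD'
  have P2 := Tw5.pass_or X W.four W.δU hn (by omega) (fun k => (G₂ * g k) • x) p q (hz G₂)
    (hlo G₂) (hhi G₂) hp2 hq2 hD'
  rcases P1 with ⟨a, b, P1⟩ | ⟨a, b, P1⟩
  · exact Tw5.main W _ hn hhi G₁ G₂ p q hD' a b P1 P2
  · exact Tw5.main W _ hn hhi G₁ G₂ q p (by rw [X.comm]; exact hD') a b P1 P2.symm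

end Pool.Agent.SCZ.Grp
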