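import Pool.Agent.SCZ.Grp.St
import Pool.Agent.H59Z.NA.Ttau

set_option autoImplicit false

namespace Pool.Agent.SCZ.Grp

open Pool.Agent.H59Z.NA

namespace Tword

variable {V : Type} {X : GM V} {Q : Type} [Group Q] [MulAction Q V]

theorem btw_symm {E : ℕ} {a p b : V} (h : Btw X E a p b) : Btw X E b p a := by
  unfold Btw at *
  rw [X.comm b p, X.comm p a, X.comm b a]; omega

theorem btw_move {δ E : ℕ} (h4 : X.Four δ) {a a' p b : V} (h : Btw X E a p b)
    (hl : X.d a a' + E + δ < X.d a p) : Btw X (E + δ) a' p b := by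
  unfold Btw at *
  have h1 := h4 a' p a b
  rw [X.comm a' a, X.comm p a] at h1
  rcases le_total (X.d a a' + X.d p b) (X.d a' b + X.d a p) with h2 | h2
  · rw [max_eq_right h2] at h1; omega
  · rw [max_eq_left h2] at h1; omega

theorem btw_smul (hI : X.Inv Q) {E : ℕ} (g : Q) {a p b : V} (h : Btw X E a (g⁻¹ • p) b) :
    Btw X E (g • a) p (g • b) := by
  unfold Btw at *
  have h1 := hI g a (g⁻¹ • p)
  have h2 := hI g (g⁻¹ • p) b
  rw [smul_inv_smul] at h1 h2
  rw [h1, h2, hI]; exact h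

theorem btw_mono {E E' : ℕ} (hE : E ≤ E') {a p b : V} (h : Btw X E a p b) : Btw X E' a p b := by
  unfold Btw at *; omega

theorem onAx_move {δ E : ℕ} (hI : X.Inv Q) (h4 : X.Four δ) {r : Q} (hr : 1 ≤ X.tau r) (x : V)
    {p : V} (h : OnAx X r E p) :
    ∃ N₁ : ℕ, ∀ N, N₁ ≤ N → Btw X (E + δ + δ) ((r ^ N)⁻¹ • x) p (r ^ N • x) := by
  obtain ⟨y, N₀, hy⟩ := h
  refine ⟨N₀ + X.d y x + E + 2 * δ + X.d p y + 1, fun N hN => ?_⟩
  have h1 : N ≤ X.d y (r ^ N • y) := by
    have := (thm_tau Q V X hI).1 r y N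
    have h0 : (0 : ℝ) ≤ N := Nat.cast_nonneg N
    have h2 : (N : ℝ) ≤ X.d y (r ^ N • y) := by nlinarith
    exact_mod_cast h2
  have h2 : X.d ((r ^ N)⁻¹ • y) y = X.d y (r ^ N • y) := by
    rw [← hI (r ^ N), smul_inv_smul]
  have h3 := X.tri ((r ^ N)⁻¹ • y) p y
  have h5 := X.tri y p (r ^ N • y)
  have h6 := X.comm y p
  have h7 := X.comm p (r ^ N • y)
  have s1 := btw_move h4 (a' := (r ^ N)⁻¹ • x) (hy N (by omega)) (by rw [hI]; omega)
  exact btw_symm (btw_move h4 (a' := r ^ N • x) (btw_symm s1) (by rw [hI]; omega))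

theorem tau_one (hI : X.Inv Q) : X.tau (1 : Q) = 0 := by
  have := (thm_tau Q V X hI).2.2.2.1 1 0
  simpa using this

theorem pow_inj (hI : X.Inv Q) {h : Q} (hh : 0 < X.tau h) {a b : ℕ} (hab : h ^ a = h ^ b) :
    a = b := by
  have h1 : h ^ ((a : ℤ) - b) = 1 := by
    rw [zpow_sub, zpow_natCast, zpow_natCast, hab, mul_inv_cancel]
  have h2 := (thm_tau Q V X hI).2.2.2.1 h ((a : ℤ) - b)
  rw [h1, tau_one hI] at h2
  rcases mul_eq_zero.1 h2.symm with h3 | h3
  · have : (((a : ℤ) - b : ℤ) : ℝ) = 0 := abs_eq_zero.1 h3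
    have h4 : (a : ℤ) - b = 0 := by exact_mod_cast this
    omega
  · exact absurd h3 hh.ne'

theorem comm_of_cm (hC : CM X Q) {u a b : Q} (hu : 0 < X.tau u) (ha : Commute a u)
    (hb : Commute b u) : Commute a b := by
  obtain ⟨g, hg⟩ := (hC u hu).1
  obtain ⟨i, rfl⟩ := Subgroup.mem_zpowers_iff.1 (hg a ha)
  obtain ⟨j, rfl⟩ := Subgroup.mem_zpowers_iff.1 (hg b hb)
  exact (Commute.refl g).zpow_zpow i j

theorem eq_one_of_conj (hI : X.Inv Q) (hC : CM X Q) {h s γ : Q} (hh : 0 < X.tau h)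
    (hs : ¬ Commute s h) (h1 : Commute γ h) (h2 : Commute (s⁻¹ * γ * s) h) : γ = 1 := by
  by_contra hne
  obtain ⟨c, hc⟩ := (hC h hh).1
  obtain ⟨n, hn⟩ := Subgroup.mem_zpowers_iff.1 (hc γ h1)
  obtain ⟨l, hl⟩ := Subgroup.mem_zpowers_iff.1 (hc h (Commute.refl h))
  have t4 := (thm_tau Q V X hI).2.2.2.1
  have t2 := (thm_tau Q V X hI).2.1
  have hc0 : 0 < X.tau c := by
    rcases (t2 c).eq_or_lt with h0 | h0
    · rw [← hl, t4, ← h0] at hh; simp at hh
    · exact h0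
  have hn0 : n ≠ 0 := by
    rintro rfl
    exact hne (by simpa using hn.symm)
  have hγ : 0 < X.tau γ := by
    rw [← hn, t4]
    exact mul_pos (abs_pos.2 (by exact_mod_cast hn0)) hc0
  have h3 : Commute γ (s⁻¹ * γ * s⁻¹⁻¹) := by
    rw [inv_inv]; exact comm_of_cm hC hh h1 h2
  have h4 := (hC γ hγ).2 s⁻¹ h3
  have h5 := comm_of_cm hC hγ h4 h1.symm
  exact hs (by simpa using h5.inv_left)

theorem uniq_dvd {m : ℕ} (hm : 10 ≤ m) (k : ℕ) : ∃ i₀ : ℕ, ∀ i < 6, m ∣ k + i + 1 → i = i₀ := by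
  by_cases h : ∃ i < 6, m ∣ k + i + 1
  · obtain ⟨i₀, h0, h1⟩ := h
    refine ⟨i₀, fun i hi h2 => ?_⟩
    rcases lt_trichotomy i i₀ with h3 | h3 | h3
    · have := Nat.le_of_dvd (by omega) (Nat.dvd_sub h1 h2)
      omega
    · exact h3
    · have := Nat.le_of_dvd (by omega) (Nat.dvd_sub h2 h1)
      omega
  · exact ⟨0, fun i hi h2 => absurd ⟨i, hi, h2⟩ h⟩

/-- The prefixes of the periodic word. -/
def pre (h s t : Q) (m e : ℕ) : ℕ → Q
  | 0 => 1
  | k + 1 => pre h s t m e k * (if m ∣ k then t else s) * h ^ (e + k % m)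

theorem pre_succ (h s t : Q) (m e k : ℕ) :
    pre h s t m e (k + 1) = pre h s t m e k * (if m ∣ k then t else s) * h ^ (e + k % m) := rfl

theorem pre_add (h s t : Q) (m e k : ℕ) :
    pre h s t m e (k + m) = pre h s t m e m * pre h s t m e k := by
  induction k with
  | zero => simp [pre]
  | succ k ih =>
    rw [show k + 1 + m = (k + m) + 1 by ring, pre, pre, ih, Nat.add_mod_right]
    simp only [Nat.dvd_add_self_right, mul_assoc]

theorem pre_add_mul (h s t : Q) (m e k N : ℕ) :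
    pre h s t m e (k + N * m) = pre h s t m e m ^ N * pre h s t m e k := by
  induction N with
  | zero => simp
  | succ N ih =>
    rw [show k + (N + 1) * m = (k + N * m) + m by ring, pre_add, ih, pow_succ', mul_assoc]

theorem pre_mem (H : Subgroup Q) {h s t t' : Q} (hh : h ∈ H) (hs : s ∈ H) (ht : t⁻¹ * t' ∈ H)
    (m e : ℕ) : ∀ k, k < m → t⁻¹ * pre h s t' m e (k + 1) ∈ H
  | 0, _ => by
    simp only [pre, dvd_zero, if_true, one_mul]
    rw [← mul_assoc]
    exact H.mul_mem ht (H.pow_mem hh _)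
  | k + 1, hk => by
    rw [pre, if_neg (fun hd => by have := Nat.le_of_dvd (Nat.succ_pos k) hd; omega),
      ← mul_assoc, ← mul_assoc]
    exact H.mul_mem (H.mul_mem (pre_mem H hh hs ht m e k (by omega)) hs) (H.pow_mem hh _)

end Tword

open Tword in
theorem thm_word (h1 : S_w1) (h2 : S_w2) (h3 : S_w3) (h5 : S_w5) : S_word := by
  intro δ A D K
  set D1 := 2 * A + 100 * D + 300 * δ + 10 with hD1
  set R := 1000 * δ * (D1 + 1) ^ 2 with hR
  set U := A + 2000 * δ + D1 + 2 * D + 2 * R + D with hU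
  set m := 50 * K + 10 with hm
  set e := 10 ^ 6 * U + m with he
  refine ⟨41 * e * U + 1, ?_⟩
  intro Q V _ _ X a b t o hI h4 hδ hA hC hab hB ha hb ht
  obtain ⟨h, hhH, hτ, hho⟩ := h1 Q V X δ A D a b o hI h4 hA hab hB ha hb
  obtain ⟨x, hx, hox⟩ := h2 Q V X δ D1 h o hI h4 hδ hτ hho
  have hτ0 : 0 < X.tau h := lt_of_lt_of_le zero_lt_one hτ
  obtain ⟨s, hsH, hsh, hso⟩ : ∃ s ∈ Subgroup.closure {a, b}, ¬ Commute s h ∧
      X.d o (s • o) ≤ D := by
    by_cases hah : Commute a h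
    · exact ⟨b, Subgroup.subset_closure (by simp), fun hbh => hab (comm_of_cm hC hτ0 hah hbh), hb⟩
    · exact ⟨a, Subgroup.subset_closure (by simp), hah, ha⟩
  obtain ⟨t', ht'H, ht'h, ht'o⟩ : ∃ t', t⁻¹ * t' ∈ Subgroup.closure {a, b} ∧ ¬ Commute t' h ∧
      X.d o (t' • o) ≤ 2 * D := by
    by_cases hth : Commute t h
    · refine ⟨t * s, by simpa using hsH, fun hc => hsh ?_, ?_⟩
      · simpa using hth.inv_left.mul_left hc
      · have := X.tri o (t • o) ((t * s) • o)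
        rw [mul_smul, hI] at this
        rw [mul_smul]; omega
    · exact ⟨t, by simp, hth, by omega⟩
  have hτU : X.tau h ≤ U := by
    have := (thm_tau Q V X hI).1 h o 1
    rw [pow_one, Nat.cast_one, mul_one] at this
    have h6 : X.d o (h • o) ≤ U := by omega
    exact this.trans (by exact_mod_cast h6)
  have hmove : ∀ u : Q, X.d o (u • o) ≤ 2 * D → X.d x (u • x) ≤ U := by
    intro u hu
    have a1 := X.tri x o (u • x)
    have a2 := X.tri o (u • o) (u • x)
    rw [hI] at a2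
    have a3 := X.comm x o
    omega
  have hW : Word Q V X δ A U e h x (fun k => if m ∣ k then t' else s) (fun k => e + k % m)
      (pre h s t' m e) :=
    { inv := hI, four := h4, hδ := hδ, aca := hA, cm := hC, tau1 := hτ, tauU := hτU, axis := hx
      ncomm := fun k => by split_ifs; exacts [ht'h, hsh]
      sU := fun k => by
        split_ifs
        · exact hmove _ ht'o
        · exact hmove _ (by omega)
      AU := by omega
      δU := by omega
      eU := by omega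
      hex := fun k => by
        have := Nat.mod_lt k (show 0 < m by omega)
        constructor <;> omega
      hg := fun k => rfl }
  set r := pre h s t' m e m with hr
  have hpow : ∀ N, pre h s t' m e (N * m) = r ^ N := fun N => by
    have := pre_add_mul h s t' m e 0 N
    rw [zero_add] at this
    rw [this]; simp [pre, hr]
  have he1 : (1 : ℝ) ≤ e := by
    have : 1 ≤ e := by omega
    exact_mod_cast this
  have heU : (U : ℝ) ≤ e := by
    have : U ≤ e := by omega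
    exact_mod_cast this
  have heτ : (1 : ℝ) ≤ e * X.tau h := by nlinarith
  have hτr : (m : ℝ) * (9 / 10 * e * X.tau h) ≤ X.tau r := by
    refine (thm_tau Q V X hI).2.2.2.2.2.1 r x _ 0 fun N => ?_
    have := (h3 Q V X δ A U e h x _ _ _ hW).2 0 (N * m)
    rw [zero_add, hpow] at this
    simp only [pre, one_smul] at this
    push_cast at this
    linarith
  have hmR : (m : ℝ) = 50 * K + 10 := by rw [hm]; push_cast; ring
  have hK0 : (0 : ℝ) ≤ K := Nat.cast_nonneg K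
  have hw : t * (t⁻¹ * r) = r := by simp
  have hΔ1 : 40 * e * X.tau h ≤ (⌈40 * e * X.tau h⌉₊ : ℝ) := Nat.le_ceil _
  have hΔ2 : (⌈40 * e * X.tau h⌉₊ : ℝ) < 40 * e * X.tau h + 1 :=
    Nat.ceil_lt_add_one (by positivity)
  refine ⟨t⁻¹ * r, ?_, ⌈40 * e * X.tau h⌉₊, ?_, ?_, ?_, ?_⟩
  · have := pre_mem _ hhH hsH ht'H m e (m - 1) (by omega)
    rwa [show m - 1 + 1 = m by omega] at this
  · have : (⌈40 * e * X.tau h⌉₊ : ℝ) ≤ 41 * e * U + 1 := by
      have : (e : ℝ) * X.tau h ≤ e * U := by nlinarith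
      have h0 : (0 : ℝ) ≤ e * U := by positivity
      nlinarith
    exact_mod_cast this
  · have a1 : A + D + 2000 * δ ≤ U := by omega
    have a2 : ((A + D + 2000 * δ : ℕ) : ℝ) ≤ U := by exact_mod_cast a1
    have a3 : ((A + D + 2000 * δ : ℕ) : ℝ) ≤ (⌈40 * e * X.tau h⌉₊ : ℝ) := by nlinarith
    exact_mod_cast a3
  · rw [hw]
    rw [hmR] at hτr
    nlinarith
  · rw [hw]
    have hr1 : 1 ≤ X.tau r := by rw [hmR] at hτr; nlinarith
    intro g p q hp hq hp' hq' hd
    obtain ⟨N1, k1⟩ := onAx_move hI h4 hr1 x hp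
    obtain ⟨N2, k2⟩ := onAx_move hI h4 hr1 x hq
    obtain ⟨N3, k3⟩ := onAx_move hI h4 hr1 x hp'
    obtain ⟨N4, k4⟩ := onAx_move hI h4 hr1 x hq'
    set N := N1 + N2 + N3 + N4 with hN
    have hE : 1000 * δ + δ + δ ≤ U := by omega
    have e0 : (r ^ N)⁻¹ * pre h s t' m e 0 = (r ^ N)⁻¹ := by simp [pre]
    have e1 : (r ^ N)⁻¹ * pre h s t' m e ((N + N) * m) = r ^ N := by
      rw [hpow, pow_add r N N, inv_mul_cancel_left]
    obtain ⟨k, j, hkj⟩ := h5 Q V X δ A U e h x _ _ _ hW (r ^ N)⁻¹ (g * (r ^ N)⁻¹) ((N + N) * m) p q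
      (by rw [e0, e1]; exact btw_mono hE (k1 N (by omega)))
      (by rw [e0, e1]; exact btw_mono hE (k2 N (by omega)))
      (by
        rw [mul_assoc g, mul_assoc g, e0, e1, mul_smul, mul_smul]
        exact btw_smul hI g (btw_mono hE (k3 N (by omega))))
      (by
        rw [mul_assoc g, mul_assoc g, e0, e1, mul_smul, mul_smul]
        exact btw_smul hI g (btw_mono hE (k4 N (by omega))))
      (hΔ1.trans (by exact_mod_cast hd))
    set γ : ℕ → Q := fun i => ((r ^ N)⁻¹ * pre h s t' m e (k + i + 1))⁻¹ *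
      (g * (r ^ N)⁻¹ * pre h s t' m e (j + i + 1)) with hγ
    have hrel : ∀ i, ¬ m ∣ k + i + 1 → ¬ m ∣ j + i + 1 → γ (i + 1) =
        (h ^ (e + (k + i + 1) % m))⁻¹ * (s⁻¹ * γ i * s) * h ^ (e + (j + i + 1) % m) := by
      intro i b1 b2
      simp only [hγ]
      rw [show k + (i + 1) + 1 = (k + i + 1) + 1 by ring,
        show j + (i + 1) + 1 = (j + i + 1) + 1 by ring, pre_succ _ _ _ _ _ (k + i + 1),
        pre_succ _ _ _ _ _ (j + i + 1), if_neg b1, if_neg b2]
      group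
    have hone : ∀ i < 6, ¬ m ∣ k + i + 1 → ¬ m ∣ j + i + 1 → γ i = 1 := by
      intro i hi b1 b2
      refine eq_one_of_conj hI hC hτ0 hsh (hkj i (by omega)) ?_
      have c1 : Commute (γ (i + 1)) h := hkj (i + 1) (by omega)
      have c2 : s⁻¹ * γ i * s = h ^ (e + (k + i + 1) % m) * γ (i + 1) *
          (h ^ (e + (j + i + 1) % m))⁻¹ := by
        rw [hrel i b1 b2]; group
      rw [c2]
      exact (((Commute.refl h).pow_left _).mul_left c1).mul_left
        ((Commute.refl h).pow_left _).inv_left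
    obtain ⟨ik, hik⟩ := uniq_dvd (show 10 ≤ m by omega) k
    obtain ⟨ij, hij⟩ := uniq_dvd (show 10 ≤ m by omega) j
    obtain ⟨i, hi, n1, n2, n3, n4⟩ :
        ∃ i, i + 1 < 6 ∧ i ≠ ik ∧ i + 1 ≠ ik ∧ i ≠ ij ∧ i + 1 ≠ ij := by
      by_cases c0 : 0 ≠ ik ∧ 0 + 1 ≠ ik ∧ 0 ≠ ij ∧ 0 + 1 ≠ ij
      · exact ⟨0, by omega, c0⟩
      by_cases c2 : 2 ≠ ik ∧ 2 + 1 ≠ ik ∧ 2 ≠ ij ∧ 2 + 1 ≠ ij
      · exact ⟨2, by omega, c2⟩
      exact ⟨4, by omega, by omega⟩
    have b1 : ¬ m ∣ k + i + 1 := fun hd => n1 (hik i (by omega) hd)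
    have b2 : ¬ m ∣ j + i + 1 := fun hd => n3 (hij i (by omega) hd)
    have g0 := hone i (by omega) b1 b2
    have g1 := hone (i + 1) hi (fun hd => n2 (hik _ hi hd)) (fun hd => n4 (hij _ hi hd))
    have g2 := hrel i b1 b2
    rw [g0, g1] at g2
    have g3 : h ^ (e + (k + i + 1) % m) = h ^ (e + (j + i + 1) % m) := by
      rw [mul_one, inv_mul_cancel, mul_one] at g2
      exact inv_mul_eq_one.1 g2.symm
    have g4 : (k + i + 1) % m = (j + i + 1) % m := by
      have := pow_inj hI hτ0 g3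
      omega
    have f1 := pre_add_mul h s t' m e ((k + i + 1) % m) ((k + i + 1) / m)
    have f2 := pre_add_mul h s t' m e ((j + i + 1) % m) ((j + i + 1) / m)
    rw [Nat.mod_add_div', ← hr] at f1 f2
    have g5 := inv_mul_eq_one.1 g0
    rw [f1, f2, g4, ← mul_assoc, ← mul_assoc, mul_left_inj] at g5
    have g6 : g = (r ^ N)⁻¹ * r ^ ((k + i + 1) / m) * (r ^ ((j + i + 1) / m))⁻¹ * r ^ N := by
      rw [g5]; group
    rw [g6]
    have hz : ∀ n : ℕ, r ^ n ∈ Subgroup.zpowers r := fun n => Subgroup.npow_mem_zpowers r n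
    exact Subgroup.mul_mem _ (Subgroup.mul_mem _ (Subgroup.mul_mem _ (Subgroup.inv_mem _ (hz _))
      (hz _)) (Subgroup.inv_mem _ (hz _))) (hz _)

end Pool.Agent.SCZ.Grp
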