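import Pool.Agent.H59Z.NA.Final
import Pool.Agent.SCZ.Geo.Tbasic
import Pool.Agent.SCZ.Geo.Tscale
import Pool.Agent.SCZ.Geo.Tfam
import Pool.Agent.SCZ.Geo.Tpersist
import Pool.Agent.SCZ.Geo.Tbdd
import Pool.Agent.SCZ.Geo.TtriR
import Pool.Agent.SCZ.Geo.Tthinq
import Pool.Agent.SCZ.Geo.TloxqR
import Pool.Agent.SCZ.Geo.TstepR
import Pool.Agent.SCZ.Geo.Tbase0

set_option autoImplicit false

namespace Pool.Agent.SCZ.Grp

open Pool.Agent.H59Z.NA Pool.Agent.SCZ.Geo

theorem basicH : S_basic := thm_basic tau_holds
theorem scaleH : S_scale := thm_scale hyp_holds comm_holds basicH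
theorem famH : S_fam := thm_fam tau_holds hyp_holds basicH
theorem persistH : S_persist := thm_persist tau_holds famH
theorem bddH : S_bdd := thm_bdd pos_holds fp_holds lfp_holds basicH
theorem triRH : S_triR := thm_triR tau_holds pos_holds md_holds
theorem thinqH : S_thinq := thm_thinq tau_holds pos_holds md_holds basicH famH persistH
theorem loxqRH : S_loxqR := thm_loxqR tau_holds pos_holds md_holds basicH
theorem stepRH : S_stepR :=
  thm_stepR tau_holds lox_holds acylq_holds basicH scaleH famH bddH triRH thinqH loxqRH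
theorem base0H : S_base0 := thm_base0 tau_holds comm_holds lox_holds basicH scaleH

end Pool.Agent.SCZ.Grp
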