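import Pool.Agent.H59Z.NA.Tquo
import Pool.Agent.H59Z.NA.Thyp

set_option autoImplicit false

namespace Pool.Agent.SCZ.Grp

open Pool.Agent.H59Z.NA

open Tquo in
lemma ang_le {Q V I : Type} [Group Q] [MulAction Q V] [MulAction Q I] {X : GM V} {L : ℕ}
    {F : Fam Q V I X L} {E : GM V} (hX : X.Inv Q) (hE : F.IsEl E) (hL : 1 ≤ L) (hI : Ind' F)
    (l : OQ F.K I) (p q : V) (hd : X.d p q ≤ 10 ^ 7 * L) :
    angq F E l (omk F.K p) (omk F.K q) ≤ X.d p q + 401 * L := by
  have hL' : (1 : ℝ) ≤ L := by exact_mod_cast hL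
  have hd' : (X.d p q : ℝ) ≤ 10 ^ 7 * L := by exact_mod_cast hd
  apply angq_le
  rintro i p' q' rfl e1 e2 hp hq
  obtain ⟨k1, hk1, rfl⟩ := (omk_eq F.K).1 e1.symm
  obtain ⟨k2, hk2, rfl⟩ := (omk_eq F.K).1 e2.symm
  have sP : Stb F (fun x y => X.d x y ≤ X.d p q) := by
    refine ⟨fun k _ x y h => (hX k x y).trans_le h, fun j r _ x y hb h => ?_⟩
    have h1 := F.lip j x y
    have h2 : (X.d x y : ℝ) ≤ X.d p q := by exact_mod_cast h
    linarith
  obtain ⟨k3, _, k', _, h1, h2⟩ := close_line hE hL hI sP hp hq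
    (F.K.mul_mem hk1 (F.K.inv_mem hk2)) (by rw [mul_smul, inv_smul_smul, hX])
  have h3 := F.lip (k' • i) (k3 • k1 • p) (k2 • q)
  have h4 : (X.d (k3 • k1 • p) (k2 • q) : ℝ) ≤ X.d p q := by exact_mod_cast h1
  linarith

open Tquo in
/-- The geometry of the quotient, with an upper bound for the angles of close points. -/
theorem quo2 (Q V I : Type) [Group Q] [MulAction Q V] [MulAction Q I] (X : GM V)
    (L : ℕ) (F : Fam Q V I X L) (E : GM V) (hV : Nonempty V) (hX : X.Inv Q) (hL : 1 ≤ L)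
    (hE : F.IsEl E)
    (hI0 : F.Ind Q (MonoidHom.id Q) (fun i => Subgroup.zpowers (F.gen i ^ F.mu i))) :
    ∃ (W J : Type) (_ : MulAction (Q ⧸ F.K) W) (_ : MulAction (Q ⧸ F.K) J)
      (A : AG (Q ⧸ F.K) W J L) (φ : V → W), IsQuo F (QuotientGroup.mk' F.K) A φ ∧
      (∀ l p q, X.d p q ≤ 10 ^ 7 * L → A.ang l (φ p) (φ q) ≤ X.d p q + 401 * L) ∧
      ∀ i, ∃ l : J, ∀ g : Q ⧸ F.K,
        g • l = l ↔ g ∈ Subgroup.zpowers (QuotientGroup.mk' F.K (F.gen i)) := by
  have h := thm_hyp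
  have hI := ind_of F hI0
  letI aV := actR F.K (S := V)
  letI aI := actR F.K (S := I)
  have sV : ∀ (g : Q) (u : OQ F.K V), QuotientGroup.mk' F.K g • u = g • u := fun _ _ => rfl
  have sI : ∀ (g : Q) (u : OQ F.K I), QuotientGroup.mk' F.K g • u = g • u := fun _ _ => rfl
  have su := QuotientGroup.mk'_surjective F.K
  refine ⟨OQ F.K V, OQ F.K I, aV, aI,
    { Z := ZQ hE
      Y := Yq F
      ang := angq F E
      hL := hL
      ne := hV.map (omk F.K)
      inv := ?_
      four := (h _ (ZQ hE)).1 60 (ZQ_slim hE hL hI)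
      Y_ne := Yq_ne
      Y_smul := ?_
      clique := Yq_clique hE
      ang_comm := angq_comm hL
      ang_tri := angq_tri hL
      ang_smul := ?_
      bgi := angq_bgi hE hL hI
      sep := angq_sep hE hL hI
      rot := ?_ }, omk F.K, ?_, fun l p q hd => ang_le hX hE hL hI l p q hd,
      fun i => ⟨omk F.K i, fun g => by obtain ⟨g, rfl⟩ := su g; exact stab_iff i g⟩⟩
  · intro g u w
    obtain ⟨g, rfl⟩ := su g
    obtain ⟨p, rfl⟩ := omk_surj F.K u
    obtain ⟨q, rfl⟩ := omk_surj F.K w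
    exact db_smul hE g p q
  · intro g l u
    obtain ⟨g, rfl⟩ := su g
    exact Yq_smul g l u
  · intro g l u w
    obtain ⟨g, rfl⟩ := su g
    exact angq_smul hE hL g l u w
  · intro g l hl hg
    obtain ⟨g, rfl⟩ := su g
    obtain ⟨j, hj⟩ := angq_rot hE hL g l hl hg
    refine ⟨j, fun u => ?_⟩
    rw [← map_pow]
    exact hj u
  · have hker : ∀ k : Q, QuotientGroup.mk' F.K k = 1 ↔ k ∈ F.K := fun k =>
      QuotientGroup.eq_one_iff k
    refine
      { surj := su
        φ_surj := omk_surj F.K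
        φ_smul := fun _ _ => rfl
        φ_eq := ?_
        scale := ?_
        rel := fun i => (hker _).2 (rel_mem_K F i)
        stab := ?_
        fixgen := ?_
        kerstab := ?_
        lift := fun Θ p w h1 h2 => lift' hX hE hL Θ p w h1 h2
        inj := fun k p hk h1 => inj' F hI k p ((hker k).1 hk) h1 }
    · intro p q e
      obtain ⟨k, hk, e⟩ := (omk_eq F.K).1 e
      exact ⟨k, (hker k).2 hk, e⟩
    · intro m p q h1
      exact (db_le' F E p q).trans (scale' hE m p q h1)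
    · intro l
      obtain ⟨i, rfl⟩ := omk_surj F.K l
      refine ⟨i, fun g => ?_⟩
      obtain ⟨g, rfl⟩ := su g
      exact stab_iff i g
    · intro i
      exact ⟨omk F.K i, (stab_iff i (F.gen i)).2 (Subgroup.mem_zpowers _)⟩
    · intro i g hg h1
      obtain ⟨y, hy⟩ := F.Y_ne i
      exact kerstab' F hI hL i y hy g ((hker g).1 h1) (Y_fix F ((F.stab g i).2 hg) hy)

end Pool.Agent.SCZ.Grp
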