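import Pool.Agent.SCZ.Grp.St
import Pool.Agent.SCZ.Grp.Quo2
import Pool.Agent.H59Z.NA.Ttau
import Pool.Agent.H59Z.NA.Tpos
import Pool.Agent.H59Z.NA.Tfp
import Pool.Agent.H59Z.NA.Tlfp
import Pool.Agent.H59Z.NA.Tell

set_option autoImplicit false

/-!
# Lifting of small elements along one step of small cancellation
-/

namespace Pool.Agent.SCZ.Grp

open Pool.Agent.H59Z.NA

section fam

variable {Q V I : Type} [Group Q] [MulAction Q V] [MulAction Q I] {X : GM V} {L : ℕ}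
  (F : Fam Q V I X L)

lemma tr_le_tau (hX : X.Inv Q) (i : I) : F.tr i ≤ X.tau (F.gen i) := by
  obtain ⟨p, -⟩ := F.Y_ne i
  refine (thm_tau Q V X hX).2.2.2.2.2.1 (F.gen i) p (F.tr i) L fun m => ?_
  have h1 := Tquo.c_zpow F i (m : ℤ) p
  rw [zpow_natCast] at h1
  have h2 := F.lip i (F.gen i ^ m • p) p
  rw [h1, X.comm] at h2
  have h3 := le_abs_self (F.c i p + ((m : ℤ) : ℝ) * F.tr i - F.c i p)
  push_cast at h3 h2
  linarith

lemma gen_zpow_eq_one (i : I) {k : ℤ} (h : F.gen i ^ k = 1) : k = 0 := by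
  obtain ⟨p, -⟩ := F.Y_ne i
  have := Tquo.c_zpow F i k p
  rw [h, one_smul] at this
  have h2 : (k : ℝ) * F.tr i = 0 := by linarith
  exact_mod_cast (mul_eq_zero.1 h2).resolve_right (F.tr_pos i).ne'

lemma prim (i : I) (a : Q) (h : Commute a (F.gen i)) : a ∈ Subgroup.zpowers (F.gen i) := by
  rw [← F.stab]
  by_contra hne
  have hg : F.gen (a • i) = F.gen i := by rw [F.gen_smul, h.eq, mul_inv_cancel_right]
  obtain ⟨p, hp⟩ := F.Y_ne (a • i)
  obtain ⟨k, hk⟩ := exists_nat_gt ((L : ℝ) / F.tr i)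
  have hfix : (F.gen i ^ (k : ℤ)) • (a • i) = a • i := by
    rw [F.stab, hg]; exact Subgroup.zpow_mem_zpowers _ _
  have h1 := F.sep i (a • i) (Ne.symm hne) _ (Tquo.Y_fix F hfix hp) p hp
  rw [Tquo.c_zpow] at h1
  have h2 := le_abs_self (F.c i p + ((k : ℤ) : ℝ) * F.tr i - F.c i p)
  rw [div_lt_iff₀ (F.tr_pos i)] at hk
  push_cast at h1 h2
  linarith

lemma mu_pos (hL : 1 ≤ L) (i : I) : 0 < F.mu i := by
  rcases Nat.eq_zero_or_pos (F.mu i) with h | h
  · have h1 := F.big i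
    rw [h] at h1
    have hL' : (1 : ℝ) ≤ L := by exact_mod_cast hL
    simp at h1
    nlinarith
  · exact h

lemma N_of_d {p : V} {u : Q} {s : ℕ} (h : X.d p (u • p) ≤ s) : Tell.N F p u (s + L) := by
  intro i
  have h1 := F.lip i p (u • p)
  have h2 : (X.d p (u • p) : ℝ) ≤ s := by exact_mod_cast h
  linarith

variable {F} {R W J : Type} [Group R] [MulAction R W] [MulAction R J] {π : Q →* R}
  {A : AG R W J L} {φ : V → W}

lemma inj_N (hq : IsQuo F π A φ) {k : Q} {p : V} {β : ℝ} (hk : π k = 1) (h : Tell.N F p k β)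
    (hβ : β ≤ 10 ^ 7 * L) : k = 1 := by
  have hL : (1 : ℝ) ≤ L := by exact_mod_cast A.hL
  exact hq.inj k p hk fun i => lt_of_le_of_lt (h i) (by nlinarith)

lemma inj_d (hq : IsQuo F π A φ) {k : Q} {p : V} (hk : π k = 1)
    (h : X.d p (k • p) ≤ 10 ^ 6 * L) : k = 1 := by
  have hL : (1 : ℝ) ≤ L := by exact_mod_cast A.hL
  refine inj_N hq hk (N_of_d F h) ?_
  push_cast
  nlinarith

/-- either all small elements fix a line, or a far point lifts with small angles -/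
lemma core_lift (hq : IsQuo F π A φ)
    (hang : ∀ l p q, X.d p q ≤ 10 ^ 7 * L → A.ang l (φ p) (φ q) ≤ X.d p q + 1001 * L)
    (p : V) (y : W) (U : Set Q) (hU : ∀ u ∈ U, Sm X L p u)
    (hy : ∀ u ∈ U, ∀ l, A.ang l y (π u • y) ≤ 3600 * L ∧ A.ang l y (π (u * u) • y) ≤ 3600 * L) :
    (∃ l : J, ∀ u ∈ U, π u • l = l) ∨
      ∃ q, φ q = y ∧ ∀ i, |F.c i p - F.c i q| ≤ 10000 * L := by
  have hL : (1 : ℝ) ≤ L := by exact_mod_cast A.hL
  by_cases hb : ∀ l, A.ang l (φ p) y ≤ 9000 * L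
  · right
    obtain ⟨q, h1, -, h2⟩ := hq.lift (9000 * L) p y hb (by positivity)
    exact ⟨q, h1, fun i => by linarith [h2 i]⟩
  · left
    push Not at hb
    obtain ⟨l, hl⟩ := hb
    refine ⟨l, fun u hu => ?_⟩
    have hsm : ∀ w : Q, X.d p (w • p) ≤ L → A.ang l (φ p) (π w • φ p) ≤ 3600 * L := by
      intro w hw
      have h1 := hang l p (w • p) (by omega)
      rw [hq.φ_smul] at h1
      have h2 : (X.d p (w • p) : ℝ) ≤ L := by exact_mod_cast hw
      linarith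
    have hy0 : A.ang l y y ≤ 3600 * L := by
      by_contra hc
      obtain ⟨a, -, b, -, hab⟩ := A.bgi l y y (by linarith)
      rw [A.Z.self] at hab
      omega
    obtain ⟨e1, e2⟩ := (thm_pos R W J L A).2.2.2.2 l (φ p) y (3600 * L) {1, π u, π (u * u)}
      (by positivity) (by
        rintro s (rfl | rfl | rfl)
        · refine ⟨?_, by rw [one_smul]; exact hy0⟩
          have := hsm 1 (by rw [one_smul, X.self]; omega)
          rwa [map_one] at this
        · exact ⟨hsm u (hU u hu).1, (hy u hu l).1⟩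
        · exact ⟨hsm _ (hU u hu).2, (hy u hu l).2⟩) (by linarith)
    have a1 := e1 1 (π u) (by simp) (by simp)
    have a2 := e1 (π u) (π u) (by simp) (by rw [← map_mul]; simp)
    rw [one_mul, one_smul] at a1
    rw [← map_mul] at a2
    have d1 : A.Z.d (φ p) (π (u * u) • φ p) ≤ 1 := by
      rw [← hq.φ_smul]
      exact hq.scale 0 p _ (by have := (hU u hu).2; omega)
    obtain ⟨a, ha, ea⟩ := Tquo.eta_ex (E := A.Z) (A.Y_ne l) (φ p)
    obtain ⟨b, hb, eb⟩ := Tquo.eta_ex (E := A.Z) (A.Y_ne l) (π (u * u) • φ p)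
    have t1 := Tquo.eta_le (E := A.Z) (A.Y l) (φ p) hb
    have t2 := Tquo.eta_le (E := A.Z) (A.Y l) (π (u * u) • φ p) ha
    have t3 := A.Z.tri (φ p) (π (u * u) • φ p) b
    have t4 := A.Z.tri (π (u * u) • φ p) (φ p) a
    have t5 := A.Z.comm (π (u * u) • φ p) (φ p)
    have h10 := e2 (π u) 1 (by simp) (by simp) (by rw [one_smul]; omega)
    rw [inv_one, one_smul] at h10
    conv_lhs => rw [← h10]
    rw [smul_inv_smul]

/-- small elements whose images fix a line lie in the stabiliser of a line -/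
lemma fix_case (hfix : S_fix) {δ A₀ : ℕ} (hX : X.Inv Q) (h4 : X.Four δ) (hac : AcA X Q A₀)
    (hcm : CM X Q) (hL : A₀ + 10 * δ + 10 ≤ L) (hq : IsQuo F π A φ)
    (hang : ∀ l p q, X.d p q ≤ 10 ^ 7 * L → A.ang l (φ p) (φ q) ≤ X.d p q + 1001 * L)
    (hfam : (∀ i, F.mu i = 1) ∨ ∀ i, X.tau (F.gen i) ≤ L)
    (p : V) (U : Set Q) (hU : ∀ u ∈ U, Sm X L p u) (l : J) (hl : ∀ u ∈ U, π u • l = l) :
    (∀ u ∈ U, u = 1) ∨ ∃ i, 1 < F.mu i ∧ ∀ u ∈ U, u ∈ Subgroup.zpowers (F.gen i) := by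
  have hL1 : (1 : ℝ) ≤ L := by exact_mod_cast A.hL
  obtain ⟨i₀, hi₀⟩ := hq.stab l
  have hpow : ∀ u ∈ U, π (u ^ F.mu i₀) = 1 := by
    intro u hu
    obtain ⟨k, hk⟩ := Subgroup.mem_zpowers_iff.1 ((hi₀ _).1 (hl u hu))
    rw [map_pow, ← hk, ← zpow_natCast, ← zpow_mul, mul_comm, zpow_mul, zpow_natCast, ← map_pow,
      hq.rel, one_zpow]
  have hne : ∀ u ∈ U, π u = 1 → u = 1 := fun u hu h =>
    inj_d hq (p := p) h (by have := (hU u hu).1; omega)
  by_cases hall : ∀ u ∈ U, u = 1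
  · exact Or.inl hall
  right
  push Not at hall
  obtain ⟨u, hu, hu1⟩ := hall
  rcases hfam with hfam | hfam
  · have := hpow u hu
    rw [hfam, pow_one] at this
    exact absurd (hne u hu this) hu1
  have hmu0 := mu_pos F A.hL i₀
  have hi : ∃ i, u ∈ Subgroup.zpowers (F.gen i) := by
    by_cases h1 : u ^ F.mu i₀ = 1
    · exfalso
      have hufin : IsOfFinOrder u := isOfFinOrder_iff_pow_eq_one.2 ⟨_, hmu0, h1⟩
      have hHfin : (Subgroup.zpowers u : Set Q).Finite := finite_zpowers.2 hufin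
      obtain ⟨r, hr⟩ := (hHfin.image (fun h => X.d p (h • p))).bddAbove
      obtain ⟨q, hq'⟩ := hfix Q V X δ hX h4 (Subgroup.zpowers u)
        ⟨p, r, fun h hh => hr ⟨h, hh, rfl⟩⟩
      obtain ⟨j, hj⟩ := A.rot (π u) l (hl u hu) (fun h => hu1 (hne u hu h))
      have h2 := hj (φ q)
      have h3 := hq' (u ^ j) (Subgroup.pow_mem _ (Subgroup.mem_zpowers u) j)
      have h5 := hang l q (u ^ j • q) (by omega)
      rw [hq.φ_smul, map_pow] at h5
      have h6 : (X.d q (u ^ j • q) : ℝ) ≤ L := by exact_mod_cast (by omega : X.d q (u ^ j • q) ≤ L)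
      nlinarith
    · have h2 : ∃ i, (10 ^ 8 : ℝ) * L ≤ |F.c i p - F.c i (u ^ F.mu i₀ • p)| := by
        by_contra hc
        push Not at hc
        exact h1 (hq.inj _ p (hpow u hu) hc)
      obtain ⟨i, hi⟩ := h2
      refine ⟨i, prim F i u ?_⟩
      obtain ⟨a, ha, b, hb, s1, s2, s3⟩ := F.proj i p (u ^ F.mu i₀ • p) (by nlinarith)
      set y := u ^ F.mu i₀ • p with hy
      have hyu : X.d y (u • y) ≤ L := by
        rw [hy, ← mul_smul, ← pow_succ', pow_succ, mul_smul, hX]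
        exact (hU u hu).1
      obtain ⟨-, H2, H3⟩ := thm_hyp V X
      have mv : ∀ z, X.d p z + X.d z y ≤ X.d p y + L → X.d z (u • z) ≤ 4 * L := by
        intro z hz
        obtain ⟨z', e1, e2⟩ := H2 δ h4 p y z L hz
        have e3 := H3 Q δ hX h4 u p y z' L e1 (hU u hu).1 hyu
        have t1 := X.tri z z' (u • z)
        have t2 := X.tri z' (u • z') (u • z)
        have t3 := hX u z' z
        have t4 := X.comm z' z
        omega
      have t1 := X.tri a b y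
      have t2 := X.tri p a b
      have ma := mv a (by omega)
      have mb := mv b (by omega)
      have hg : ∀ z ∈ F.Y i, X.d z (F.gen i • z) ≤ 4 * L := by
        intro z hz
        have n1 := F.near i z hz _
          (Tquo.Y_fix F ((F.stab _ i).2 (Subgroup.mem_zpowers _)) hz)
        rw [F.c_gen] at n1
        have n2 := tr_le_tau F hX i
        have n3 := hfam i
        have n4 := F.tr_pos i
        have n5 : |F.c i z - (F.c i z + F.tr i)| = F.tr i := by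
          rw [show F.c i z - (F.c i z + F.tr i) = -F.tr i by ring, abs_neg, abs_of_pos n4]
        have n6 : (X.d z (F.gen i • z) : ℝ) ≤ 4 * L := by linarith
        exact_mod_cast n6
      refine hac (4 * L) u (F.gen i) a b ma mb (hg a ha) (hg b hb) ?_
      have l1 := F.lip i a b
      have l2 := abs_sub_le (F.c i p) (F.c i a) (F.c i y)
      have l3 := abs_sub_le (F.c i a) (F.c i b) (F.c i y)
      rw [abs_sub_comm (F.c i p) (F.c i a)] at l2
      have l4 : (100 : ℝ) * L ≤ X.d a b := by nlinarith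
      have l5 : 100 * L ≤ X.d a b := by exact_mod_cast l4
      omega
  obtain ⟨i, hi⟩ := hi
  obtain ⟨e, he⟩ := Subgroup.mem_zpowers_iff.1 hi
  have he0 : e ≠ 0 := by rintro rfl; exact hu1 (by rw [← he, zpow_zero])
  have htau : 0 < X.tau u := by
    rw [← he, (thm_tau Q V X hX).2.2.2.1]
    have h1 := tr_le_tau F hX i
    have h2 := F.tr_pos i
    have h3 : (0 : ℝ) < |(e : ℝ)| := abs_pos.2 (by exact_mod_cast he0)
    exact mul_pos h3 (by linarith)
  obtain ⟨⟨c, hc⟩, -⟩ := hcm u htau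
  refine ⟨i, ?_, fun w hw => prim F i w ?_⟩
  · have h1 := mu_pos F A.hL i
    by_contra hc
    have h2 : F.mu i = 1 := by omega
    have h3 := hq.rel i
    rw [h2, pow_one] at h3
    exact hu1 (hne u hu (by rw [← he, map_zpow, h3, one_zpow]))
  · have hcomm : Commute w u := by
      have h1 : π (w * u * w⁻¹ * u⁻¹) = 1 := by
        obtain ⟨a, ha⟩ := Subgroup.mem_zpowers_iff.1 ((hi₀ _).1 (hl u hu))
        obtain ⟨b, hb⟩ := Subgroup.mem_zpowers_iff.1 ((hi₀ _).1 (hl w hw))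
        simp only [map_mul, map_inv, ← ha, ← hb]
        group
      have n1 := N_of_d F (hU u hu).1
      have n2 := N_of_d F (hU w hw).1
      have h2 := inj_N hq h1 (((n2.mul n1).mul n2.inv).mul n1.inv) (by nlinarith)
      rw [mul_inv_eq_one, mul_inv_eq_iff_eq_mul] at h2
      exact h2
    obtain ⟨a, ha⟩ := Subgroup.mem_zpowers_iff.1 (hc w hcomm)
    obtain ⟨b, hb⟩ := Subgroup.mem_zpowers_iff.1
      (hc (F.gen i) (by rw [← he]; exact Commute.self_zpow _ _))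
    rw [← ha, ← hb]
    exact Commute.zpow_zpow_self c a b

lemma N_of_lift {p q : V} {u : Q} {β β' : ℝ} (h : ∀ i, |F.c i p - F.c i q| ≤ β)
    (hu : Tell.N F p u β') : Tell.N F q u (2 * β + β') := by
  intro i
  have h1 := h i
  have h2 := hu i
  have h3 := h (u⁻¹ • i)
  rw [← F.c_smul u, smul_inv_smul] at h3
  have t1 := abs_sub_le (F.c i q) (F.c i p) (F.c i (u • q))
  have t2 := abs_sub_le (F.c i p) (F.c i (u • p)) (F.c i (u • q))
  rw [abs_sub_comm] at h1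
  linarith

lemma N_conj {p : V} {u a : Q} {β : ℝ} (hu : Tell.N F p u β) :
    Tell.N F (a • p) (a * u * a⁻¹) β := by
  intro i
  have h1 := hu (a⁻¹ • i)
  rw [← F.c_smul a, smul_inv_smul] at h1
  rw [mul_smul, inv_smul_smul, mul_smul]
  exact h1

/-- conjugacies between small elements lift -/
lemma conj_lift (hfix : S_fix) {δ A₀ : ℕ} (hX : X.Inv Q) (h4 : X.Four δ) (hac : AcA X Q A₀)
    (hcm : CM X Q) (hL : A₀ + 10 * δ + 10 ≤ L) (hq : IsQuo F π A φ)
    (hang : ∀ l p q, X.d p q ≤ 10 ^ 7 * L → A.ang l (φ p) (φ q) ≤ X.d p q + 1001 * L)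
    (hfam : (∀ i, F.mu i = 1) ∨ ∀ i, X.tau (F.gen i) ≤ L)
    (T : Set (Q × Q)) (p p' : V) (a' : R)
    (hT : ∀ t ∈ T, Sm X L p t.1 ∧ Sm X L p' t.2 ∧ a' * π t.1 * a'⁻¹ = π t.2) :
    (∃ a, π a = a' ∧ ∀ t ∈ T, a * t.1 * a⁻¹ = t.2) ∨
      ∃ i, 1 < F.mu i ∧ ∀ t ∈ T, t.1 ∈ Subgroup.zpowers (F.gen i) := by
  have hL1 : (1 : ℝ) ≤ L := by exact_mod_cast A.hL
  obtain ⟨a0, ha0⟩ := hq.surj a'
  have hU : ∀ u ∈ Prod.fst '' T, Sm X L p u := by
    rintro _ ⟨t, ht, rfl⟩; exact (hT t ht).1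
  have key : ∀ (u u' : Q) (l : J), a' * π u * a'⁻¹ = π u' → X.d p' (u' • p') ≤ L →
      A.ang l (a'⁻¹ • φ p') (π u • a'⁻¹ • φ p') ≤ 3600 * L := by
    intro u u' l e hd
    have h1 := hang (a' • l) p' (u' • p') (by omega)
    rw [hq.φ_smul, ← e] at h1
    rw [← A.ang_smul a', smul_inv_smul, ← mul_smul, ← mul_smul]
    have h2 : (X.d p' (u' • p') : ℝ) ≤ L := by exact_mod_cast hd
    linarith
  rcases core_lift hq hang p (a'⁻¹ • φ p') _ hU (by
      rintro _ ⟨t, ht, rfl⟩ l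
      obtain ⟨-, h2, h3⟩ := hT t ht
      refine ⟨key _ _ l h3 h2.1, key _ _ l ?_ h2.2⟩
      rw [map_mul, map_mul, ← h3]; group) with ⟨l, hl⟩ | ⟨q, hq1, hq2⟩
  · rcases fix_case hfix hX h4 hac hcm hL hq hang hfam p _ hU l hl with h | ⟨i, hi, h⟩
    · refine Or.inl ⟨a0, ha0, fun t ht => ?_⟩
      obtain ⟨-, h2, h3⟩ := hT t ht
      have h1 : t.1 = 1 := h _ ⟨t, ht, rfl⟩
      rw [h1, map_one, mul_one, mul_inv_cancel] at h3
      rw [h1, mul_one, mul_inv_cancel]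
      exact (inj_d hq (p := p') h3.symm (by have := h2.1; omega)).symm
    · exact Or.inr ⟨i, hi, fun t ht => h _ ⟨t, ht, rfl⟩⟩
  · left
    obtain ⟨k, hk1, hk2⟩ := hq.φ_eq (a0 • q) p' (by rw [hq.φ_smul, ha0, hq1, smul_inv_smul])
    refine ⟨k * a0, by rw [map_mul, hk1, one_mul, ha0], fun t ht => ?_⟩
    obtain ⟨h1, h2, h3⟩ := hT t ht
    have n1 := N_conj (a := k * a0) (N_of_lift hq2 (N_of_d F h1.1))
    rw [mul_smul, ← hk2] at n1
    have n2 := N_of_d F h2.1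
    have := inj_N hq (k := t.2⁻¹ * (k * a0 * t.1 * (k * a0)⁻¹)) (by
      simp only [map_mul, map_inv, hk1, ha0, one_mul, h3, inv_mul_cancel]) (n2.inv.mul n1)
      (by nlinarith)
    exact (inv_mul_eq_one.1 this).symm

/-- bounded subgroups lift -/
lemma bdd_lift (hfix : S_fix) {δ A₀ : ℕ} (hX : X.Inv Q) (h4 : X.Four δ) (hac : AcA X Q A₀)
    (hcm : CM X Q) (hL : A₀ + 10 * δ + 10 ≤ L) (hq : IsQuo F π A φ)
    (hang : ∀ l p q, X.d p q ≤ 10 ^ 7 * L → A.ang l (φ p) (φ q) ≤ X.d p q + 1001 * L)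
    (hfam : (∀ i, F.mu i = 1) ∨ ∀ i, X.tau (F.gen i) ≤ L)
    (H' : Subgroup R) (hH : Bdd A.Z H') :
    (∃ i, H' ≤ Subgroup.zpowers (π (F.gen i))) ∨
      ∃ H : Subgroup Q, Bdd X H ∧ H.map π = H' ∧ (∀ h ∈ H, π h = 1 → h = 1) ∧
        ∀ (U : Set Q) (p : V), (∀ u ∈ U, Sm X L p u ∧ π u ∈ H') →
          (∃ k, π k = 1 ∧ ∀ u ∈ U, k * u * k⁻¹ ∈ H) ∨
          ∃ i, 1 < F.mu i ∧ ∀ u ∈ U, u ∈ Subgroup.zpowers (F.gen i) := by
  have hL1 : (1 : ℝ) ≤ L := by exact_mod_cast A.hL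
  obtain ⟨x, r, hr⟩ := hH
  rcases thm_fp thm_pos R W J L A H' x r hr with ⟨l, hl⟩ | ⟨pb, hpb⟩
  · obtain ⟨i, hi⟩ := hq.stab l
    exact Or.inl ⟨i, fun h hh => (hi h).1 (hl h hh)⟩
  right
  obtain ⟨p₀, rfl⟩ := hq.φ_surj pb
  obtain ⟨lf, hlf1, hlf2⟩ := thm_lfp Q V I X L F R W J π A φ hX hq H' p₀ hpb
  have hlf_one : lf 1 = 1 := by
    have := hlf2 1 H'.one_mem 1 H'.one_mem
    rw [mul_one] at this
    exact left_eq_mul.1 this
  let H : Subgroup Q :=
    { carrier := {g | ∃ h ∈ H', lf h = g}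
      mul_mem' := by
        rintro _ _ ⟨a, ha, rfl⟩ ⟨b, hb, rfl⟩
        exact ⟨a * b, H'.mul_mem ha hb, hlf2 a ha b hb⟩
      one_mem' := ⟨1, H'.one_mem, hlf_one⟩
      inv_mem' := by
        rintro _ ⟨a, ha, rfl⟩
        refine ⟨a⁻¹, H'.inv_mem ha, ?_⟩
        have := hlf2 a⁻¹ (H'.inv_mem ha) a ha
        rw [inv_mul_cancel, hlf_one] at this
        exact eq_inv_of_mul_eq_one_left this.symm }
  refine ⟨H, ⟨p₀, 2000000 * L, ?_⟩, ?_, ?_, ?_⟩
  · rintro _ ⟨a, ha, rfl⟩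
    exact (hlf1 a ha).2.1
  · ext h
    constructor
    · rintro ⟨_, ⟨a, ha, rfl⟩, rfl⟩
      rw [(hlf1 a ha).1]; exact ha
    · intro hh
      exact ⟨lf h, ⟨h, hh, rfl⟩, (hlf1 h hh).1⟩
  · rintro _ ⟨a, ha, rfl⟩ h
    rw [(hlf1 a ha).1] at h
    rw [h, hlf_one]
  · intro U p hU
    rcases core_lift hq hang p (φ p₀) U (fun u hu => (hU u hu).1) (fun u hu l =>
        ⟨(hpb _ (hU u hu).2).2 l, (hpb _ (by
          rw [map_mul]; exact H'.mul_mem (hU u hu).2 (hU u hu).2)).2 l⟩) with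
      ⟨l, hl⟩ | ⟨q, hq1, hq2⟩
    · rcases fix_case hfix hX h4 hac hcm hL hq hang hfam p U (fun u hu => (hU u hu).1) l hl with
        h | h
      · exact Or.inl ⟨1, map_one _, fun u hu => by rw [h u hu]; simpa using H.one_mem⟩
      · exact Or.inr h
    · left
      obtain ⟨k, hk1, hk2⟩ := hq.φ_eq q p₀ hq1
      refine ⟨k, hk1, fun u hu => ⟨π u, (hU u hu).2, ?_⟩⟩
      have n1 := N_conj (a := k) (N_of_lift hq2 (N_of_d F (hU u hu).1.1))
      rw [← hk2] at n1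
      have n2 : Tell.N F p₀ (lf (π u)) (4600 * L) := (hlf1 _ (hU u hu).2).2.2
      have := inj_N hq (k := (lf (π u))⁻¹ * (k * u * k⁻¹)) (by
        simp only [map_mul, map_inv, hk1, one_mul, inv_one, mul_one, (hlf1 _ (hU u hu).2).1,
          inv_mul_cancel]) (n2.inv.mul n1) (by nlinarith)
      exact inv_mul_eq_one.1 this

end fam

end Pool.Agent.SCZ.Grp
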