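import Pool.Agent.SCZ.Grp.Tword
import Pool.Agent.SCZ.Grp.Tfix
import Pool.Agent.SCZ.Grp.Tw3
import Pool.Agent.SCZ.Grp.Tw5

set_option autoImplicit false

namespace Pool.Agent.SCZ.Grp

open Pool.Agent.H59Z.NA

/-- the explicit bound for the overlap -/
def Lam (δ A D K : ℕ) : ℕ :=
  41 * (10 ^ 6 * (A + 2000 * δ + (2 * A + 100 * D + 300 * δ + 10) + 2 * D +
    2 * (1000 * δ * (2 * A + 100 * D + 300 * δ + 10 + 1) ^ 2) + D) + (50 * K + 10)) *
    (A + 2000 * δ + (2 * A + 100 * D + 300 * δ + 10) + 2 * D +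
    2 * (1000 * δ * (2 * A + 100 * D + 300 * δ + 10 + 1) ^ 2) + D) + 1

open Tword in
theorem word2 (δ A D K : ℕ) : ∀ (Q V : Type) [Group Q] [MulAction Q V] (X : GM V)
    (a b t : Q) (o : V), X.Inv Q → X.Four δ → 1 ≤ δ → AcA X Q A → CM X Q → ¬ Commute a b →
    ¬ Bdd X (Subgroup.closure {a, b}) → X.d o (a • o) ≤ D → X.d o (b • o) ≤ D →
    X.d o (t • o) ≤ D →
    ∃ w ∈ Subgroup.closure {a, b}, ∃ Δ : ℕ, Δ ≤ Lam δ A D K ∧ A + D + 2000 * δ ≤ Δ ∧
      (K * Δ : ℝ) ≤ X.tau (t * w) ∧ Ov X (t * w) (1000 * δ) Δ := by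
  have h1 := thm_w1
  have h2 := thm_w2
  have h3 := thm_w3
  have h5 := thm_w5 thm_w3
  unfold Lam
  set D1 := 2 * A + 100 * D + 300 * δ + 10 with hD1
  set R := 1000 * δ * (D1 + 1) ^ 2 with hR
  set U := A + 2000 * δ + D1 + 2 * D + 2 * R + D with hU
  set m := 50 * K + 10 with hm
  set e := 10 ^ 6 * U + m with he
  intro Q V _ _ X a b t o hI h4 hδ hA hC hab hB ha hb ht
  obtain ⟨h, hhH, hτ, hho⟩ := h1 Q V X δ A D a b o hI h4 hA hab hB ha hb
  obtain ⟨x, hx, hox⟩ := h2 Q V X δ D1 h o hI h4 hδ hτ hho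
  have hτ0 : 0 < X.tau h := lt_of_lt_of_le zero_lt_one hτ
  obtain ⟨s, hsH, hsh, hso⟩ : ∃ s ∈ Subgroup.closure {a, b}, ¬ Commute s h ∧
      X.d o (s • o) ≤ D := by
    by_cases hah : Commute a h
    · exact ⟨b, Subgroup.subset_closure (by simp), fun hbh => hab (comm_of_cm hC hτ0 hah hbh), hb⟩
    · exact ⟨a, Subgroup.subset_closure (by simp), hah, ha⟩
  obtain ⟨t', ht'H, ht'h, ht'o⟩ : ∃ t', t⁻¹ * t' ∈ Subgroup.closure {a, b} ∧ ¬ Commute t' h ∧
      X.d o (t' • o) ≤ 2 * D := by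
    by_cases hth : Commute t h
    · refine ⟨t * s, by simpa using hsH, fun hc => hsh ?_, ?_⟩
      · simpa using hth.inv_left.mul_left hc
      · have := X.tri o (t • o) ((t * s) • o)
        rw [mul_smul, hI] at this
        rw [mul_smul]; omega
    · exact ⟨t, by simp, hth, by omega⟩
  have hτU : X.tau h ≤ U := by
    have := (thm_tau Q V X hI).1 h o 1
    rw [pow_one, Nat.cast_one, mul_one] at this
    have h6 : X.d o (h • o) ≤ U := by omega
    exact this.trans (by exact_mod_cast h6)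
  have hmove : ∀ u : Q, X.d o (u • o) ≤ 2 * D → X.d x (u • x) ≤ U := by
    intro u hu
    have a1 := X.tri x o (u • x)
    have a2 := X.tri o (u • o) (u • x)
    rw [hI] at a2
    have a3 := X.comm x o
    omega
  have hW : Word Q V X δ A U e h x (fun k => if m ∣ k then t' else s) (fun k => e + k % m)
      (pre h s t' m e) :=
    { inv := hI, four := h4, hδ := hδ, aca := hA, cm := hC, tau1 := hτ, tauU := hτU, axis := hx
      ncomm := fun k => by split_ifs; exacts [ht'h, hsh]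
      sU := fun k => by
        split_ifs
        · exact hmove _ ht'o
        · exact hmove _ (by omega)
      AU := by omega
      δU := by omega
      eU := by omega
      hex := fun k => by
        have := Nat.mod_lt k (show 0 < m by omega)
        constructor <;> omega
      hg := fun k => rfl }
  set r := pre h s t' m e m with hr
  have hpow : ∀ N, pre h s t' m e (N * m) = r ^ N := fun N => by
    have := pre_add_mul h s t' m e 0 N
    rw [zero_add] at this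
    rw [this]; simp [pre, hr]
  have he1 : (1 : ℝ) ≤ e := by
    have : 1 ≤ e := by omega
    exact_mod_cast this
  have heU : (U : ℝ) ≤ e := by
    have : U ≤ e := by omega
    exact_mod_cast this
  have heτ : (1 : ℝ) ≤ e * X.tau h := by nlinarith
  have hτr : (m : ℝ) * (9 / 10 * e * X.tau h) ≤ X.tau r := by
    refine (thm_tau Q V X hI).2.2.2.2.2.1 r x _ 0 fun N => ?_
    have := (h3 Q V X δ A U e h x _ _ _ hW).2 0 (N * m)
    rw [zero_add, hpow] at this
    simp only [pre, one_smul] at this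
    push_cast at this
    linarith
  have hmR : (m : ℝ) = 50 * K + 10 := by rw [hm]; push_cast; ring
  have hK0 : (0 : ℝ) ≤ K := Nat.cast_nonneg K
  have hw : t * (t⁻¹ * r) = r := by simp
  have hΔ1 : 40 * e * X.tau h ≤ (⌈40 * e * X.tau h⌉₊ : ℝ) := Nat.le_ceil _
  have hΔ2 : (⌈40 * e * X.tau h⌉₊ : ℝ) < 40 * e * X.tau h + 1 :=
    Nat.ceil_lt_add_one (by positivity)
  refine ⟨t⁻¹ * r, ?_, ⌈40 * e * X.tau h⌉₊, ?_, ?_, ?_, ?_⟩
  · have := pre_mem _ hhH hsH ht'H m e (m - 1) (by omega)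
    rwa [show m - 1 + 1 = m by omega] at this
  · have : (⌈40 * e * X.tau h⌉₊ : ℝ) ≤ 41 * e * U + 1 := by
      have : (e : ℝ) * X.tau h ≤ e * U := by nlinarith
      have h0 : (0 : ℝ) ≤ e * U := by positivity
      nlinarith
    exact_mod_cast this
  · have a1 : A + D + 2000 * δ ≤ U := by omega
    have a2 : ((A + D + 2000 * δ : ℕ) : ℝ) ≤ U := by exact_mod_cast a1
    have a3 : ((A + D + 2000 * δ : ℕ) : ℝ) ≤ (⌈40 * e * X.tau h⌉₊ : ℝ) := by nlinarith
    exact_mod_cast a3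
  · rw [hw]
    rw [hmR] at hτr
    nlinarith
  · rw [hw]
    have hr1 : 1 ≤ X.tau r := by rw [hmR] at hτr; nlinarith
    intro g p q hp hq hp' hq' hd
    obtain ⟨N1, k1⟩ := onAx_move hI h4 hr1 x hp
    obtain ⟨N2, k2⟩ := onAx_move hI h4 hr1 x hq
    obtain ⟨N3, k3⟩ := onAx_move hI h4 hr1 x hp'
    obtain ⟨N4, k4⟩ := onAx_move hI h4 hr1 x hq'
    set N := N1 + N2 + N3 + N4 with hN
    have hE : 1000 * δ + δ + δ ≤ U := by omega
    have e0 : (r ^ N)⁻¹ * pre h s t' m e 0 = (r ^ N)⁻¹ := by simp [pre]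
    have e1 : (r ^ N)⁻¹ * pre h s t' m e ((N + N) * m) = r ^ N := by
      rw [hpow, pow_add r N N, inv_mul_cancel_left]
    obtain ⟨k, j, hkj⟩ := h5 Q V X δ A U e h x _ _ _ hW (r ^ N)⁻¹ (g * (r ^ N)⁻¹) ((N + N) * m) p q
      (by rw [e0, e1]; exact btw_mono hE (k1 N (by omega)))
      (by rw [e0, e1]; exact btw_mono hE (k2 N (by omega)))
      (by
        rw [mul_assoc g, mul_assoc g, e0, e1, mul_smul, mul_smul]
        exact btw_smul hI g (btw_mono hE (k3 N (by omega))))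
      (by
        rw [mul_assoc g, mul_assoc g, e0, e1, mul_smul, mul_smul]
        exact btw_smul hI g (btw_mono hE (k4 N (by omega))))
      (hΔ1.trans (by exact_mod_cast hd))
    set γ : ℕ → Q := fun i => ((r ^ N)⁻¹ * pre h s t' m e (k + i + 1))⁻¹ *
      (g * (r ^ N)⁻¹ * pre h s t' m e (j + i + 1)) with hγ
    have hrel : ∀ i, ¬ m ∣ k + i + 1 → ¬ m ∣ j + i + 1 → γ (i + 1) =
        (h ^ (e + (k + i + 1) % m))⁻¹ * (s⁻¹ * γ i * s) * h ^ (e + (j + i + 1) % m) := by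
      intro i b1 b2
      simp only [hγ]
      rw [show k + (i + 1) + 1 = (k + i + 1) + 1 by ring,
        show j + (i + 1) + 1 = (j + i + 1) + 1 by ring, pre_succ _ _ _ _ _ (k + i + 1),
        pre_succ _ _ _ _ _ (j + i + 1), if_neg b1, if_neg b2]
      group
    have hone : ∀ i < 6, ¬ m ∣ k + i + 1 → ¬ m ∣ j + i + 1 → γ i = 1 := by
      intro i hi b1 b2
      refine eq_one_of_conj hI hC hτ0 hsh (hkj i (by omega)) ?_
      have c1 : Commute (γ (i + 1)) h := hkj (i + 1) (by omega)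
      have c2 : s⁻¹ * γ i * s = h ^ (e + (k + i + 1) % m) * γ (i + 1) *
          (h ^ (e + (j + i + 1) % m))⁻¹ := by
        rw [hrel i b1 b2]; group
      rw [c2]
      exact (((Commute.refl h).pow_left _).mul_left c1).mul_left
        ((Commute.refl h).pow_left _).inv_left
    obtain ⟨ik, hik⟩ := uniq_dvd (show 10 ≤ m by omega) k
    obtain ⟨ij, hij⟩ := uniq_dvd (show 10 ≤ m by omega) j
    obtain ⟨i, hi, n1, n2, n3, n4⟩ :
        ∃ i, i + 1 < 6 ∧ i ≠ ik ∧ i + 1 ≠ ik ∧ i ≠ ij ∧ i + 1 ≠ ij := by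
      by_cases c0 : 0 ≠ ik ∧ 0 + 1 ≠ ik ∧ 0 ≠ ij ∧ 0 + 1 ≠ ij
      · exact ⟨0, by omega, c0⟩
      by_cases c2 : 2 ≠ ik ∧ 2 + 1 ≠ ik ∧ 2 ≠ ij ∧ 2 + 1 ≠ ij
      · exact ⟨2, by omega, c2⟩
      exact ⟨4, by omega, by omega⟩
    have b1 : ¬ m ∣ k + i + 1 := fun hd => n1 (hik i (by omega) hd)
    have b2 : ¬ m ∣ j + i + 1 := fun hd => n3 (hij i (by omega) hd)
    have g0 := hone i (by omega) b1 b2
    have g1 := hone (i + 1) hi (fun hd => n2 (hik _ hi hd)) (fun hd => n4 (hij _ hi hd))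
    have g2 := hrel i b1 b2
    rw [g0, g1] at g2
    have g3 : h ^ (e + (k + i + 1) % m) = h ^ (e + (j + i + 1) % m) := by
      rw [mul_one, inv_mul_cancel, mul_one] at g2
      exact inv_mul_eq_one.1 g2.symm
    have g4 : (k + i + 1) % m = (j + i + 1) % m := by
      have := pow_inj hI hτ0 g3
      omega
    have f1 := pre_add_mul h s t' m e ((k + i + 1) % m) ((k + i + 1) / m)
    have f2 := pre_add_mul h s t' m e ((j + i + 1) % m) ((j + i + 1) / m)
    rw [Nat.mod_add_div', ← hr] at f1 f2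
    have g5 := inv_mul_eq_one.1 g0
    rw [f1, f2, g4, ← mul_assoc, ← mul_assoc, mul_left_inj] at g5
    have g6 : g = (r ^ N)⁻¹ * r ^ ((k + i + 1) / m) * (r ^ ((j + i + 1) / m))⁻¹ * r ^ N := by
      rw [g5]; group
    rw [g6]
    have hz : ∀ n : ℕ, r ^ n ∈ Subgroup.zpowers r := fun n => Subgroup.npow_mem_zpowers r n
    exact Subgroup.mul_mem _ (Subgroup.mul_mem _ (Subgroup.mul_mem _ (Subgroup.inv_mem _ (hz _))
      (hz _)) (Subgroup.inv_mem _ (hz _))) (hz _)

end Pool.Agent.SCZ.Grp
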