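import Pool.Agent.SCZ.Grp.Step
import Pool.Agent.SCZ.Grp.Word2
import Pool.Agent.SCZ.Grp.Tlong
import Pool.Agent.SCZ.Geo.TlinesG

set_option autoImplicit false

/-!
# The moves: killing powers, Burnside steps, long relators, rescaling
-/

namespace Pool.Agent.SCZ.Grp

open Pool.Agent.H59Z.NA Pool.Agent.SCZ

variable {Γ : Type} [Group Γ]

/-- Control at a smaller scale. -/
def Step.mono {S S' : Stg Γ} {P : S.Q → Prop} {m : S.Q → ℕ} {s s' : ℕ} (T : Step S S' P m s)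
    (h : s' ≤ s) : Step S S' P m s' :=
  { T with
    inj := fun k p hk hd => T.inj k p hk (hd.trans (Nat.mul_le_mul_left _ h))
    conj := fun U p p' a hU => T.conj U p p' a fun t ht =>
      ⟨(hU t ht).1.mono h, (hU t ht).2.1.mono h, (hU t ht).2.2⟩
    bdd := fun H' hH' => (T.bdd H' hH').imp id fun ⟨H, h1, h2, h3, h4⟩ =>
      ⟨H, h1, h2, h3, fun U p hU => h4 U p fun u hu => ⟨(hU u hu).1.mono h, (hU u hu).2⟩⟩
    lox := fun u p hd => T.lox u p (hd.trans h) }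

/-- The logarithmic condition on the scale. -/
def LogOk (δ L : ℕ) (τ : ℝ) : Prop := ∃ n : ℕ, (L : ℝ) < 2 ^ n * τ ∧ n * δ ≤ L

lemma sq_le_two_pow (n : ℕ) (h : 4 ≤ n) : n ^ 2 ≤ 2 ^ n := by
  induction n, h using Nat.le_induction with
  | base => norm_num
  | succ k hk ih => rw [pow_succ 2 k]; nlinarith

lemma logOk_ex (δ : ℕ) {τ : ℝ} (hτ : 0 < τ) : ∃ L₀ : ℕ, ∀ L, L₀ ≤ L → LogOk δ L τ := by
  obtain ⟨j, hj⟩ := pow_unbounded_of_one_lt (1 / τ) (one_lt_two (α := ℝ))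
  rw [div_lt_iff₀ hτ] at hj
  set c := j + δ + 4 with hc
  refine ⟨2 ^ (2 * c), fun L hL => ⟨j + (Nat.log 2 L + 1), ?_, ?_⟩⟩
  · have h1 : L < 2 ^ (Nat.log 2 L + 1) := Nat.lt_pow_succ_log_self (by norm_num) L
    have h2 : (L : ℝ) < 2 ^ (Nat.log 2 L + 1) := by exact_mod_cast h1
    rw [pow_add, mul_comm ((2 : ℝ) ^ j), mul_assoc]
    have h3 : (0 : ℝ) < 2 ^ (Nat.log 2 L + 1) := by positivity
    nlinarith
  · have hL0 : L ≠ 0 := by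
      have : 0 < 2 ^ (2 * c) := by positivity
      omega
    have h1 : 2 * c ≤ Nat.log 2 L := (Nat.le_log_iff_pow_le (by norm_num) hL0).2 hL
    have h2 := Nat.pow_log_le_self 2 hL0
    have h3 := sq_le_two_pow (Nat.log 2 L) (by omega)
    set l := Nat.log 2 L
    have h4 : (j + (l + 1)) * δ ≤ (2 * l) * c := Nat.mul_le_mul (by omega) (by omega)
    nlinarith

lemma logOk_num {L : ℕ} {τ : ℝ} (h1 : 10 ^ 6 ≤ L) (h2 : L ≤ 10 ^ 100) (h3 : 1 / 10 ^ 100 ≤ τ) :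
    LogOk 122 L τ := by
  refine ⟨250 * 3, ?_, by omega⟩
  have h4 : (L : ℝ) ≤ 10 ^ 100 := by exact_mod_cast h2
  have h5 : (10 : ℝ) ^ 201 ≤ 2 ^ (250 * 3) := by rw [pow_mul]; norm_num
  have h6 : (10 : ℝ) ^ 201 * (1 / 10 ^ 100) ≤ 2 ^ (250 * 3) * τ :=
    mul_le_mul h5 h3 (by positivity) (by positivity)
  have h7 : (10 : ℝ) ^ 100 < 10 ^ 201 * (1 / 10 ^ 100) := by norm_num
  exact lt_of_le_of_lt h4 (lt_of_lt_of_le h7 h6)

/-- Killing powers of a conjugation invariant set of short primitive loxodromic elements. -/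
theorem powStep (S : Stg Γ) {δ A₀ L B : ℕ} {τ₀ τ₁ : ℝ} (hS : S.Ok δ A₀ τ₀) (hδ : 1 ≤ δ)
    (P : S.Q → Prop) (m : S.Q → ℕ)
    (hP : ∀ g t, P g → P (t * g * t⁻¹) ∧ m (t * g * t⁻¹) = m g)
    (hP2 : ∀ g, P g → 0 < S.X.tau g ∧ S.X.tau g ≤ B ∧
      (∀ a, Commute a g → a ∈ Subgroup.zpowers g) ∧ Odd (m g) ∧
      (10 ^ 9 : ℝ) * L ≤ m g * S.X.tau g)
    (hL : A₀ + 40000 * δ + 20 * B ≤ L) (hlog : LogOk δ L τ₀) (hτ : 0 < τ₁) (hτ1 : τ₁ ≤ 1)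
    (htri : ∀ g : S.Q, Geo.Ell S.X g ∨ (∃ g₀, P g₀ ∧ g ∈ Subgroup.zpowers g₀) ∨ τ₁ ≤ S.X.tau g) :
    ∃ (S' : Stg Γ) (P' : S.Q → Prop), S'.Ok 122 (10 ^ 9) (τ₁ / (15000 * L)) ∧
      Nonempty (Step S S' P' m L) ∧ (∀ g, P' g → P g) ∧ ∀ g, P g → P' g ∨ P' g⁻¹ := by
  obtain ⟨n, hn1, hn2⟩ := hlog
  obtain ⟨I, _, F, h1, h2⟩ := Geo.thm_linesG tau_holds hyp_holds axis_holds S.Q S.V S.X δ
    (A₀ + 30040 * δ + 20 * B) L P m S.inv hS.four hδ (by omega) hP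
    (fun g hg => ⟨(hP2 g hg).1, fun t ht => (hP2 g hg).2.2.1 t (hS.mal g t (hP2 g hg).1 (by
      obtain ⟨k, hk⟩ := Subgroup.mem_zpowers_iff.1 ht
      rw [← hk]; exact Commute.self_zpow g k)), (hP2 g hg).2.2.2.2⟩)
    (by
      intro g g' hg hg' hne a b ha hb ha' hb'
      by_contra hd
      have mv : ∀ (u : S.Q) (z : S.V), P u → z ∈ Geo.Ax S.X u (1500 * δ) →
          S.X.d z (u • z) ≤ B + 1500 * δ := by
        intro u z hu hz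
        have e1 : (S.X.d z (u • z) : ℝ) ≤ S.X.tau u + (1500 * δ : ℕ) := hz
        have e2 := (hP2 u hu).2.1
        have e3 : (S.X.d z (u • z) : ℝ) ≤ ((B + 1500 * δ : ℕ) : ℝ) := by push_cast at e1 ⊢; linarith
        exact_mod_cast e3
      have hc := hS.aca (B + 1500 * δ) g g' a b (mv g a hg ha) (mv g b hg hb) (mv g' a hg' ha')
        (mv g' b hg' hb') (by omega)
      exact hne (le_antisymm (Subgroup.zpowers_le.2 ((hP2 g' hg').2.2.1 g hc))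
        (Subgroup.zpowers_le.2 ((hP2 g hg).2.2.1 g' hc.symm))))
  obtain ⟨S', h3, h4⟩ := famStep S hS F m (fun i => (h1 i).2)
    (fun i => by rw [(h1 i).2]; exact (hP2 _ (h1 i).1).2.2.2.1) (by omega) hn1 hn2 hτ hτ1
    (fun g => by
      rcases htri g with h | ⟨g₀, hg₀, h⟩ | h
      · exact Or.inl h
      · obtain ⟨i, hi | hi⟩ := h2 g₀ hg₀
        · exact Or.inr (Or.inl ⟨i, by rwa [← hi]⟩)
        · exact Or.inr (Or.inl ⟨i, by rwa [hi, Subgroup.zpowers_inv] at h⟩)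
      · exact Or.inr (Or.inr h))
    (Or.inr fun i => by
      have e1 := (hP2 _ (h1 i).1).2.1
      have e2 : (B : ℝ) ≤ L := by exact_mod_cast (by omega : B ≤ L)
      linarith)
  refine ⟨S', _, h3, h4, ?_, ?_⟩
  · rintro g ⟨i, rfl⟩; exact (h1 i).1
  · intro g hg
    obtain ⟨i, hi | hi⟩ := h2 g hg
    · exact Or.inl ⟨i, hi.symm⟩
    · exact Or.inr ⟨i, by rw [hi, inv_inv]⟩

/-- Rescaling: the empty family. -/
theorem rescale (S : Stg Γ) {δ A₀ : ℕ} {τ₀ : ℝ} (hS : S.Ok δ A₀ τ₀) (hδ : 1 ≤ δ) (hτ : 0 < τ₀)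
    (s : ℕ) : ∃ (S' : Stg Γ) (τ' : ℝ), 0 < τ' ∧ S'.Ok 122 (10 ^ 9) τ' ∧
      Nonempty (Step S S' (fun _ => False) (fun _ => 1) s) := by
  obtain ⟨L₀, hL₀⟩ := logOk_ex δ hτ
  obtain ⟨S', P', h1, ⟨T⟩, h2, -⟩ := powStep S (B := 0) (L := A₀ + 40000 * δ + L₀ + s)
    (τ₁ := min τ₀ 1) hS hδ (fun _ => False) (fun _ => 1) (fun _ _ h => h.elim)
    (fun _ h => h.elim) (by omega) (hL₀ _ (by omega)) (lt_min hτ one_pos) (min_le_right _ _)
    (fun g => (hS.dich g).imp id fun h => Or.inr ((min_le_left _ _).trans h))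
  have e : P' = fun _ => False := funext fun g => propext ⟨h2 g, False.elim⟩
  subst e
  refine ⟨S', _, ?_, h1, ⟨T.mono (by omega)⟩⟩
  have : (0 : ℝ) < ((A₀ + 40000 * δ + L₀ + s : ℕ) : ℝ) := by exact_mod_cast (by omega)
  have := lt_min hτ one_pos
  positivity

lemma Stg.Ok.root {S : Stg Γ} {δ A : ℕ} {τ₀ : ℝ} (hS : S.Ok δ A τ₀) {g : S.Q}
    (hg : 0 < S.X.tau g) : ∃ g₀, g ∈ Subgroup.zpowers g₀ ∧ 0 < S.X.tau g₀ ∧
      S.X.tau g₀ ≤ S.X.tau g ∧ ∀ a, Commute a g₀ → a ∈ Subgroup.zpowers g₀ := by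
  obtain ⟨c, hc⟩ := hS.cyc g hg
  obtain ⟨k, hk⟩ := Subgroup.mem_zpowers_iff.1 (hc g (Commute.refl g))
  have h1 := (thm_tau S.Q S.V S.X S.inv).2.2.2.1 c k
  have h2 := (thm_tau S.Q S.V S.X S.inv).2.1 c
  rw [hk] at h1
  have hk0 : k ≠ 0 := by
    rintro rfl
    simp at h1
    linarith
  have h3 : (1 : ℝ) ≤ |(k : ℝ)| := by exact_mod_cast Int.one_le_abs hk0
  refine ⟨c, hc g (Commute.refl g), ?_, by nlinarith, fun a ha => hc a ?_⟩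
  · rcases h2.lt_or_eq with h | h
    · exact h
    · rw [← h] at h1; linarith
  · rw [← hk]; exact ha.zpow_right k

lemma Stg.Ok.tau_ge {S : Stg Γ} {δ A : ℕ} {τ₀ : ℝ} (hS : S.Ok δ A τ₀) {g : S.Q}
    (hg : 0 < S.X.tau g) : τ₀ ≤ S.X.tau g := by
  rcases hS.dich g with h | h
  · have := (basicH S.Q S.V S.X δ S.inv hS.four).2.2.1 g h
    linarith
  · exact h

/-- Killing any large odd power of one primitive loxodromic element. -/
theorem killStep (S : Stg Γ) {τ₀ : ℝ} (hS : S.Ok 122 (10 ^ 9) τ₀) (hτ : 0 < τ₀) (g : S.Q)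
    (hg : 0 < S.X.tau g) (hp : ∀ a, Commute a g → a ∈ Subgroup.zpowers g) (s : ℕ) :
    ∃ m₀ : ℕ, ∀ m, m₀ ≤ m → Odd m → ∃ (S' : Stg Γ) (τ' : ℝ), 0 < τ' ∧ S'.Ok 122 (10 ^ 9) τ' ∧
      Nonempty (Step S S' (fun u => ∃ t, u = t * g * t⁻¹) (fun _ => m) s) := by
  obtain ⟨L₀, hL₀⟩ := logOk_ex 122 hτ
  obtain ⟨B, hB⟩ := exists_nat_ge (S.X.tau g)
  set L := 10 ^ 10 + 20 * B + L₀ + s with hL
  obtain ⟨m₀, hm₀⟩ := exists_nat_ge ((10 ^ 9 : ℝ) * L / S.X.tau g)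
  refine ⟨m₀, fun m hm hodd => ?_⟩
  have tc := (thm_tau S.Q S.V S.X S.inv).2.2.2.2.1
  obtain ⟨S', P', h1, ⟨T⟩, h2, h3⟩ := powStep S (B := B) (L := L) (τ₁ := min τ₀ 1) hS
    (by norm_num) (fun u => ∃ t, u = t * g * t⁻¹) (fun _ => m)
    (by rintro _ t ⟨t', rfl⟩; exact ⟨⟨t * t', by group⟩, rfl⟩)
    (by
      rintro _ ⟨t, rfl⟩
      rw [tc]
      refine ⟨hg, hB, fun a ha => ?_, hodd, ?_⟩
      · have e : Commute (t⁻¹ * a * t) g := by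
          have := ha.map (MulAut.conj t⁻¹).toMonoidHom
          simpa [mul_assoc] using this
        obtain ⟨k, hk⟩ := Subgroup.mem_zpowers_iff.1 (hp _ e)
        exact Subgroup.mem_zpowers_iff.2 ⟨k, by rw [conj_zpow, hk]; group⟩
      · rw [div_le_iff₀ hg] at hm₀
        have : (m₀ : ℝ) ≤ m := by exact_mod_cast hm
        nlinarith)
    (by omega) (hL₀ _ (by omega)) (lt_min hτ one_pos) (min_le_right _ _)
    (fun g => (hS.dich g).imp id fun h => Or.inr ((min_le_left _ _).trans h))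
  have e : P' = fun u => ∃ t, u = t * g * t⁻¹ := by
    funext u
    refine propext ⟨h2 u, ?_⟩
    rintro ⟨t, rfl⟩
    rcases h3 g ⟨1, by group⟩ with h | h
    · exact (T.P_conj g t h).1
    · exfalso
      obtain ⟨t', ht'⟩ := h2 _ h
      have hc := hS.mal g t' hg (by rw [← ht']; exact (Commute.refl g).inv_right)
      rw [hc.eq, mul_inv_cancel_right] at ht'
      have h5 : g = 1 := hS.noinv g (by rw [pow_two]; nth_rewrite 1 [← ht']; exact inv_mul_cancel g)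
      have h6 := (thm_tau S.Q S.V S.X S.inv).2.2.2.1 g 0
      rw [zpow_zero, ← h5] at h6
      simp at h6
      linarith
  subst e
  refine ⟨S', _, ?_, h1, ⟨T.mono (by omega)⟩⟩
  have : (0 : ℝ) < (L : ℝ) := by exact_mod_cast (by omega : 0 < L)
  have := lt_min hτ one_pos
  positivity

/-- The uniform Burnside step: all primitive loxodromic elements with `τ ≤ 1` get finite order. -/
theorem burnStep (S : Stg Γ) {τ₀ : ℝ} (hS : S.Ok 122 (10 ^ 9) τ₀) (hτ : 1 / 10 ^ 100 ≤ τ₀)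
    (m : S.Q → ℕ) (hm : ∀ g t, m (t * g * t⁻¹) = m g) (hm2 : ∀ g, Odd (m g) ∧ 10 ^ 120 ≤ m g) :
    ∃ (S' : Stg Γ) (P' : S.Q → Prop), S'.Ok 122 (10 ^ 9) (1 / 10 ^ 15) ∧
      Nonempty (Step S S' P' m (10 ^ 10)) ∧ (∀ g, P' g → S.X.tau g ≤ 1) ∧
      ∀ g : S.Q, 0 < S.X.tau g → S.X.tau g ≤ 1 → ∃ g₀, P' g₀ ∧ g ∈ Subgroup.zpowers g₀ := by
  have tc := (thm_tau S.Q S.V S.X S.inv).2.2.2.2.1
  have hroot : ∀ g : S.Q, 0 < S.X.tau g → S.X.tau g ≤ 1 → ∃ g₀, (0 < S.X.tau g₀ ∧ S.X.tau g₀ ≤ 1 ∧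
      ∀ a, Commute a g₀ → a ∈ Subgroup.zpowers g₀) ∧ g ∈ Subgroup.zpowers g₀ := by
    intro g h1 h2
    obtain ⟨g₀, a1, a2, a3, a4⟩ := hS.root h1
    exact ⟨g₀, ⟨a2, a3.trans h2, a4⟩, a1⟩
  obtain ⟨S', P', h1, hT, h2, h3⟩ := powStep S (B := 1) (L := 10 ^ 10) (τ₁ := 1) hS
    (by norm_num) (fun g => 0 < S.X.tau g ∧ S.X.tau g ≤ 1 ∧
      ∀ a, Commute a g → a ∈ Subgroup.zpowers g) m
    (by
      rintro g t ⟨a1, a2, a3⟩
      refine ⟨⟨by rwa [tc], by rwa [tc], fun a ha => ?_⟩, hm g t⟩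
      have e : Commute (t⁻¹ * a * t) g := by
        have := ha.map (MulAut.conj t⁻¹).toMonoidHom
        simpa [mul_assoc] using this
      obtain ⟨k, hk⟩ := Subgroup.mem_zpowers_iff.1 (a3 _ e)
      exact Subgroup.mem_zpowers_iff.2 ⟨k, by rw [conj_zpow, hk]; group⟩)
    (by
      rintro g ⟨a1, a2, a3⟩
      refine ⟨a1, by simpa using a2, a3, (hm2 g).1, ?_⟩
      have e1 := hS.tau_ge a1
      have e2 : (10 ^ 120 : ℝ) ≤ m g := by exact_mod_cast (hm2 g).2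
      have e3 : (10 ^ 120 : ℝ) * (1 / 10 ^ 100) ≤ m g * S.X.tau g :=
        mul_le_mul e2 (hτ.trans e1) (by positivity) (by positivity)
      push_cast
      linarith)
    (by norm_num) (logOk_num (by norm_num) (by norm_num) hτ) one_pos le_rfl
    (fun g => by
      rcases hS.dich g with h | h
      · exact Or.inl h
      · by_cases h1 : S.X.tau g ≤ 1
        · exact Or.inr (Or.inl (hroot g (lt_of_lt_of_le (lt_of_lt_of_le (by norm_num) hτ) h) h1))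
        · exact Or.inr (Or.inr (not_le.1 h1).le))
  refine ⟨S', P', h1.mono (by norm_num), hT, fun g hg => (h2 g hg).2.1, fun g a1 a2 => ?_⟩
  obtain ⟨g₀, b1, b2⟩ := hroot g a1 a2
  rcases h3 g₀ b1 with h | h
  · exact ⟨g₀, h, b2⟩
  · exact ⟨g₀⁻¹, h, by rwa [Subgroup.zpowers_inv]⟩

theorem longStep_aux (S : Stg Γ) {τ₀ : ℝ} (hS : S.Ok 122 (10 ^ 9) τ₀) (hτ : 0 < τ₀) (D : ℕ)
    (hD : 10 ^ 10 ≤ D)
    (hlog : ∀ L, D ≤ L → L ≤ 4 * Lam 122 (10 ^ 9 + 40 * 122) D (4 * 10 ^ 9) → LogOk 122 L τ₀)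
    (a b t : S.Q) (p : S.V) (hab : ¬ Commute a b) (hB : ¬ Bdd S.X (Subgroup.closure {a, b}))
    (ha : S.X.d p (a • p) ≤ D) (hb : S.X.d p (b • p) ≤ D) (ht : S.X.d p (t • p) ≤ D) :
    ∃ w ∈ Subgroup.closure {a, b}, ∃ S' : Stg Γ, S'.Ok 122 (10 ^ 9)
      (min τ₀ 1 / (15000 * (4 * Lam 122 (10 ^ 9 + 40 * 122) D (4 * 10 ^ 9) : ℕ))) ∧
      Nonempty (Step S S' (fun u => ∃ v, u = v * (t * w) * v⁻¹) (fun _ => 1) D) := by
  obtain ⟨w, hw, Δ, h1, h2, h3, h4⟩ := word2 122 (10 ^ 9 + 40 * 122) D (4 * 10 ^ 9) S.Q S.V S.X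
    a b t p S.inv hS.four (by norm_num) hS.aca hS.cm hab hB ha hb ht
  have h5 : (((Δ + 5000 * 122 : ℕ) : ℝ)) ≤ 4 * Δ := by exact_mod_cast (by omega)
  obtain ⟨I, _, F, f1, i₀, f2⟩ := thm_long S.Q S.V S.X 122 (Δ + 5000 * 122) Δ (t * w) S.inv hS.four
    (by norm_num) le_rfl (by push_cast at h3 h5 ⊢; linarith) h4
  obtain ⟨n, hn1, hn2⟩ := hlog (Δ + 5000 * 122) (by omega) (by omega)
  obtain ⟨S', g1, ⟨T⟩⟩ := famStep S (τ₁ := min τ₀ 1) hS F (fun _ => 1) (fun i => (f1 i).1)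
    (fun i => by rw [(f1 i).1]; exact odd_one) (by omega) hn1 hn2 (lt_min hτ one_pos)
    (min_le_right _ _)
    (fun g => (hS.dich g).imp id fun h => Or.inr ((min_le_left _ _).trans h))
    (Or.inl fun i => (f1 i).1)
  have e : (fun g => ∃ i, F.gen i = g) = fun u => ∃ v, u = v * (t * w) * v⁻¹ := by
    funext u
    refine propext ⟨?_, ?_⟩
    · rintro ⟨i, rfl⟩; exact (f1 i).2
    · rintro ⟨v, rfl⟩; exact ⟨v • i₀, by rw [F.gen_smul, f2]⟩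
  rw [e] at T
  refine ⟨w, hw, S', g1.mono ?_, ⟨T.mono (by omega)⟩⟩
  have k1 : (0 : ℝ) < ((Δ + 5000 * 122 : ℕ) : ℝ) := by positivity
  have k2 : (((Δ + 5000 * 122 : ℕ) : ℝ)) ≤
      ((4 * Lam 122 (10 ^ 9 + 40 * 122) D (4 * 10 ^ 9) : ℕ) : ℝ) := by exact_mod_cast (by omega)
  exact div_le_div_of_nonneg_left (lt_min hτ one_pos).le (by positivity) (by linarith)

/-- A long relator: `t` is put into the image of the subgroup generated by `a` and `b`. -/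
theorem longStep (S : Stg Γ) {τ₀ : ℝ} (hS : S.Ok 122 (10 ^ 9) τ₀) (hτ : 0 < τ₀)
    (a b t : S.Q) (hab : ¬ Commute a b) (hB : ¬ Bdd S.X (Subgroup.closure {a, b})) (s : ℕ) :
    ∃ w ∈ Subgroup.closure {a, b}, ∃ (S' : Stg Γ) (τ' : ℝ), 0 < τ' ∧ S'.Ok 122 (10 ^ 9) τ' ∧
      Nonempty (Step S S' (fun u => ∃ v, u = v * (t * w) * v⁻¹) (fun _ => 1) s) := by
  obtain ⟨L₀, hL₀⟩ := logOk_ex 122 hτ
  obtain ⟨w, hw, S', h1, ⟨T⟩⟩ := longStep_aux S hS hτ (10 ^ 10 + L₀ + s + S.X.d S.o (a • S.o) +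
    S.X.d S.o (b • S.o) + S.X.d S.o (t • S.o)) (by omega) (fun L h _ => hL₀ L (by omega)) a b t S.o
    hab hB (by omega) (by omega) (by omega)
  refine ⟨w, hw, S', _, ?_, h1, ⟨T.mono (by omega)⟩⟩
  have := lt_min hτ one_pos
  unfold Lam
  positivity

/-- The uniform long relator step. -/
theorem longStepU (S : Stg Γ) (hS : S.Ok 122 (10 ^ 9) (1 / 10 ^ 15))
    (a b t : S.Q) (p : S.V) (hab : ¬ Commute a b) (hB : ¬ Bdd S.X (Subgroup.closure {a, b}))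
    (ha : S.X.d p (a • p) ≤ 10 ^ 10) (hb : S.X.d p (b • p) ≤ 10 ^ 10)
    (ht : S.X.d p (t • p) ≤ 10 ^ 10) :
    ∃ w ∈ Subgroup.closure {a, b}, ∃ S' : Stg Γ, S'.Ok 122 (10 ^ 9) (1 / 10 ^ 100) ∧
      Nonempty (Step S S' (fun u => ∃ v, u = v * (t * w) * v⁻¹) (fun _ => 1) (10 ^ 10)) := by
  have hb1 : 4 * Lam 122 (10 ^ 9 + 40 * 122) (10 ^ 10) (4 * 10 ^ 9) ≤ 10 ^ 75 := by
    unfold Lam; norm_num
  obtain ⟨w, hw, S', h1, hT⟩ := longStep_aux S hS (by norm_num) (10 ^ 10) le_rfl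
    (fun L h h' => logOk_num (by omega) (by omega) (by norm_num)) a b t p hab hB ha hb ht
  refine ⟨w, hw, S', h1.mono ?_, hT⟩
  rw [min_eq_left (by norm_num)]
  unfold Lam
  norm_num

end Pool.Agent.SCZ.Grp
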