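import Pool.Agent.SCZ.Grp.Core
import Pool.Agent.SCZ.Grp.Holds
import Pool.Agent.SCZ.Geo.Pack

set_option autoImplicit false

/-!
# Stages and steps of a small cancellation tower
-/

namespace Pool.Agent.SCZ.Grp

open Pool.Agent.H59Z.NA Pool.Agent.SCZ

/-- A stage: a quotient `Q` of `Γ` acting by isometries on a pointed space. -/
structure Stg (Γ : Type) [Group Γ] where
  Q : Type
  V : Type
  [grp : Group Q]
  [act : MulAction Q V]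
  X : GM V
  π : Γ →* Q
  surj : Function.Surjective π
  o : V
  inv : X.Inv Q

attribute [instance] Stg.grp Stg.act

variable {Γ : Type} [Group Γ]

/-- The invariants of a stage. -/
def Stg.Ok (S : Stg Γ) (δ A : ℕ) (τ₀ : ℝ) : Prop := Geo.GoodR S.Q S.V S.X δ A τ₀

/-- `S'` is obtained from `S` by killing `g ^ m g` for the elements `g` with `P g`; elements moving
a point by at most `s` are under control. -/
structure Step (S S' : Stg Γ) (P : S.Q → Prop) (m : S.Q → ℕ) (s : ℕ) where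
  β : S.Q →* S'.Q
  φ : S.V → S'.V
  β_π : ∀ γ, β (S.π γ) = S'.π γ
  φ_smul : ∀ (q : S.Q) p, φ (q • p) = β q • φ p
  φ_o : φ S.o = S'.o
  φ_surj : Function.Surjective φ
  contr : ∀ p q, S'.X.d (φ p) (φ q) ≤ 1 ∨ S'.X.d (φ p) (φ q) < S.X.d p q
  inj : ∀ (k : S.Q) p, β k = 1 → S.X.d p (k • p) ≤ 10 ^ 6 * s → k = 1
  P_conj : ∀ g t, P g → P (t * g * t⁻¹) ∧ m (t * g * t⁻¹) = m g
  P_lox : ∀ g, P g → 0 < S.X.tau g ∧ 0 < m g ∧ ∀ a, Commute a g → a ∈ Subgroup.zpowers g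
  rel : ∀ g, P g → β (g ^ m g) = 1
  ker : ∀ k, β k = 1 → k ∈ Subgroup.closure {r | ∃ g, P g ∧ r = g ^ m g}
  ord : ∀ g, P g → ∀ j : ℤ, β (g ^ j) = 1 → (m g : ℤ) ∣ j
  cent : ∀ g, P g → ∀ f ∈ Subgroup.zpowers (β g), f ≠ 1 → ∀ t : S'.Q,
    Commute f (t * f * t⁻¹) → t ∈ Subgroup.zpowers (β g)
  kbdd : ∀ g, P g → Bdd S'.X (Subgroup.zpowers (β g))
  conj : ∀ (T : Set (S.Q × S.Q)) (p p' : S.V) (a' : S'.Q),
    (∀ t ∈ T, Sm S.X s p t.1 ∧ Sm S.X s p' t.2 ∧ a' * β t.1 * a'⁻¹ = β t.2) →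
    (∃ a, β a = a' ∧ ∀ t ∈ T, a * t.1 * a⁻¹ = t.2) ∨
      ∃ g, P g ∧ 1 < m g ∧ ∀ t ∈ T, t.1 ∈ Subgroup.zpowers g
  bdd : ∀ H' : Subgroup S'.Q, Bdd S'.X H' →
    (∃ g, P g ∧ H' ≤ Subgroup.zpowers (β g)) ∨
      ∃ H : Subgroup S.Q, Bdd S.X H ∧ H.map β = H' ∧ (∀ h ∈ H, β h = 1 → h = 1) ∧
        ∀ (U : Set S.Q) (p : S.V), (∀ u ∈ U, Sm S.X s p u ∧ β u ∈ H') →
          (∃ k, β k = 1 ∧ ∀ u ∈ U, k * u * k⁻¹ ∈ H) ∨
          ∃ g, P g ∧ 1 < m g ∧ ∀ u ∈ U, u ∈ Subgroup.zpowers g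
  lox : ∀ (u : S.Q) p, S.X.d p (u • p) ≤ s → 0 < S.X.tau u →
    0 < S'.X.tau (β u) ∨ ∃ g, P g ∧ u ∈ Subgroup.zpowers g
  ext : ∀ (G : Type) [Group G] (ρ : G →* S.Q) (H : S.Q → Subgroup G),
    (∀ g, P g → ∀ t : G, ∀ h ∈ H g, t * h * t⁻¹ ∈ H (ρ t * g * (ρ t)⁻¹)) →
    (∀ g, P g → ∀ h ∈ H g, ρ h ∈ Subgroup.zpowers (g ^ m g)) →
    (∀ g, P g → ∀ h ∈ H g, ρ h = 1 → h = 1) →
    ∀ k ∈ ⨆ g : {g // P g}, H g, ρ k = 1 → k = 1

theorem fix_holds : S_fix := by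
  intro Q V _ _ X δ hX h4 H hH
  obtain ⟨p, hp⟩ := (basicH Q V X δ hX h4).2.1 H hH
  exact ⟨p, fun h hh => (hp h hh).trans (by omega)⟩

lemma Sm.mono {V : Type} {X : GM V} {Q : Type} [Group Q] [MulAction Q V] {s s' : ℕ} {p : V}
    {u : Q} (h : Sm X s p u) (hs : s ≤ s') : Sm X s' p u := ⟨h.1.trans hs, h.2.trans hs⟩

lemma Stg.Ok.cm {S : Stg Γ} {δ A : ℕ} {τ₀ : ℝ} (h : S.Ok δ A τ₀) : CM S.X S.Q :=
  fun u hu => ⟨Geo.GoodR.cyc h u hu, fun t ht => Geo.GoodR.mal h u t hu ht⟩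

lemma Stg.Ok.aca {S : Stg Γ} {δ A : ℕ} {τ₀ : ℝ} (h : S.Ok δ A τ₀) :
    AcA S.X S.Q (A + 40 * δ) := by
  intro D g g' x y a b c d e
  exact (scaleH S.Q S.V S.X δ A S.inv (Geo.GoodR.four h)
    (Geo.GoodR.thin h)).2 (Geo.GoodR.cyc h) (Geo.GoodR.mal h) (Geo.GoodR.acyl h) D g g' x y a b c d
    (by omega)

lemma Stg.Ok.mono {S : Stg Γ} {δ A : ℕ} {τ₀ τ₁ : ℝ} (h : S.Ok δ A τ₀) (h1 : τ₁ ≤ τ₀) :
    S.Ok δ A τ₁ :=
  ⟨h.ne, h.inv, h.four, fun g => (h.dich g).imp id (fun h2 => h1.trans h2), h.noinv, h.cyc, h.mal,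
    h.acyl, h.thin⟩

/-- One step along an arbitrary family of lines. -/
theorem famStep (S : Stg Γ) {δ A₀ L n : ℕ}
    {τ₀ τ₁ : ℝ} (hS : S.Ok δ A₀ τ₀) {I : Type} [MulAction S.Q I] (F : Fam S.Q S.V I S.X L)
    (m : S.Q → ℕ) (hm : ∀ i, F.mu i = m (F.gen i)) (hodd : ∀ i, Odd (F.mu i))
    (hL : A₀ + 50 * δ + 10 ≤ L) (hn1 : (L : ℝ) < 2 ^ n * τ₀) (hn2 : n * δ ≤ L)
    (hτ : 0 < τ₁) (hτ1 : τ₁ ≤ 1)
    (htri : ∀ g : S.Q, Geo.Ell S.X g ∨ (∃ i, g ∈ Subgroup.zpowers (F.gen i)) ∨ τ₁ ≤ S.X.tau g)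
    (hfam : (∀ i, F.mu i = 1) ∨ ∀ i, S.X.tau (F.gen i) ≤ L) :
    ∃ S' : Stg Γ, S'.Ok 122 (10 ^ 9) (τ₁ / (15000 * L)) ∧
      Nonempty (Step S S' (fun g => ∃ i, F.gen i = g) m L) := by
  have hX := S.inv
  have h4 : S.X.Four δ := hS.four
  have hL1 : 1 ≤ L := by omega
  have hL1' : (1 : ℝ) ≤ L := by exact_mod_cast hL1
  obtain ⟨W, J, _, _, A, φ, ψ, hP⟩ := Geo.pack_holds S.Q S.V I S.X δ L F ⟨S.o⟩ hX h4 (by omega) hL1
  have hq := hP.quo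
  have hG := stepRH S.Q S.V I S.X δ A₀ L n τ₀ τ₁ F _ W J _ A φ ψ hS hodd (by omega) hn1 hn2 hτ hτ1
    htri hP
  have hang : ∀ l p q, S.X.d p q ≤ 10 ^ 7 * L →
      A.ang l (φ p) (φ q) ≤ S.X.d p q + 1001 * L := by
    intro l p q hd
    have hd' : (S.X.d p q : ℝ) ≤ 10 ^ 7 * L := by exact_mod_cast hd
    have := hP.ang_le (S.X.d p q + L) p q (fun i => F.lip i p q) (by positivity) (by nlinarith) l
    linarith
  obtain ⟨-, per2, -, per4, -, -, per7⟩ := persistH S.Q S.V I S.X δ L F _ W J _ A φ ψ hX h4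
    (by omega) hP
  obtain ⟨E, hE⟩ := elec_holds S.Q S.V I S.X δ L F hX h4 (by omega) hL1
  have hβ : ∀ q : S.Q, QuotientGroup.mk' F.K q = 1 ↔ q ∈ F.K := fun q => QuotientGroup.eq_one_iff q
  let S' : Stg Γ :=
    { Q := S.Q ⧸ F.K, V := W, X := A.Z, π := (QuotientGroup.mk' F.K).comp S.π
      surj := hq.surj.comp S.surj, o := φ S.o, inv := A.inv }
  refine ⟨S', hG, ⟨
    { β := QuotientGroup.mk' F.K, φ := φ, β_π := fun _ => rfl, φ_smul := hq.φ_smul, φ_o := rfl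
      φ_surj := hq.φ_surj
      contr := ?_, inj := fun k p hk hd => inj_d hq hk hd, P_conj := ?_, P_lox := ?_, rel := ?_
      ker := ?_, ord := ?_, cent := ?_, kbdd := ?_, conj := ?_, bdd := ?_, lox := ?_
      ext := ?_ }⟩⟩
  · intro p q
    by_cases hd : S.X.d p q ≤ L
    · left
      exact hq.scale 0 p q (by omega)
    · right
      have h1 : S.X.d p q ≤ (S.X.d p q - 2 + 1) * L := by
        have : S.X.d p q - 2 + 1 = S.X.d p q - 1 := by omega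
        rw [this]
        have h2 : (S.X.d p q - 1) * 2 ≤ (S.X.d p q - 1) * L := Nat.mul_le_mul_left _ (by omega)
        omega
      have := hq.scale (S.X.d p q - 2) p q h1
      change A.Z.d (φ p) (φ q) < _
      omega
  · rintro g t ⟨i, rfl⟩
    exact ⟨⟨t • i, F.gen_smul t i⟩, by rw [← F.gen_smul, ← hm, ← hm, F.mu_smul]⟩
  · rintro g ⟨i, rfl⟩
    exact ⟨lt_of_lt_of_le (F.tr_pos i) (tr_le_tau F hX i), by rw [← hm]; exact mu_pos F hL1 i,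
      prim F i⟩
  · rintro g ⟨i, rfl⟩
    rw [← hm]; exact hq.rel i
  · intro k hk
    refine Subgroup.closure_mono ?_ ((hβ k).1 hk)
    rintro _ ⟨i, rfl⟩
    exact ⟨F.gen i, ⟨i, rfl⟩, by rw [← hm]⟩
  · rintro g ⟨i, rfl⟩ j hj
    obtain ⟨l, hl⟩ := Subgroup.mem_zpowers_iff.1
      (hq.kerstab i _ (Subgroup.mem_zpowers_iff.2 ⟨j, rfl⟩) hj)
    rw [hm, ← zpow_natCast, ← zpow_mul] at hl
    have : F.gen i ^ (j - m (F.gen i) * l) = 1 := by rw [zpow_sub, hl, mul_inv_cancel]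
    exact ⟨l, by linarith [gen_zpow_eq_one F i this]⟩
  · rintro g ⟨i, rfl⟩ f hf hf1 t ht
    obtain ⟨-, -, -, p4, -⟩ := thm_pos _ W J L A
    have hl := (per4 i f).2 hf
    have e1 : (t * f * t⁻¹) • ψ i = ψ i := by
      refine (p4 f (ψ i) _ hf1 hl ?_).symm
      rw [← mul_smul, ht.eq, mul_smul, hl]
    have e2 : (t * f * t⁻¹) • (t • ψ i) = t • ψ i := by
      rw [← mul_smul, inv_mul_cancel_right, mul_smul, hl]
    have e3 : t * f * t⁻¹ ≠ 1 := fun h => hf1 (conj_eq_one_iff.1 h)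
    exact (per4 i t).1 (p4 _ _ _ e3 e1 e2).symm
  · rintro g ⟨i, rfl⟩
    exact per7 _ (ψ i) fun h hh => (per4 i h).2 hh
  · intro T p p' a' hT
    rcases conj_lift fix_holds hX h4 hS.aca hS.cm (by omega) hq hang hfam T p p' a' hT with
      h | ⟨i, hi, h⟩
    · exact Or.inl h
    · exact Or.inr ⟨F.gen i, ⟨i, rfl⟩, by rwa [← hm], h⟩
  · intro H' hH'
    rcases bdd_lift fix_holds hX h4 hS.aca hS.cm (by omega) hq hang hfam H' hH' with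
      ⟨i, h⟩ | ⟨H, h1, h2, h3, h5⟩
    · exact Or.inl ⟨F.gen i, ⟨i, rfl⟩, h⟩
    · refine Or.inr ⟨H, h1, h2, h3, fun U p hU => ?_⟩
      rcases h5 U p hU with h | ⟨i, hi, h⟩
      · exact Or.inl h
      · exact Or.inr ⟨F.gen i, ⟨i, rfl⟩, by rwa [← hm], h⟩
  · intro u p hd hu
    by_cases hfx : ∃ i : I, u • i = i
    · obtain ⟨i, hi⟩ := hfx
      exact Or.inr ⟨F.gen i, ⟨i, rfl⟩, (F.stab u i).1 hi⟩
    · left
      push Not at hfx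
      have h1 := per2 u p L (by omega) hd hfx
      by_contra hc
      have h2 : A.Z.tau (QuotientGroup.mk' F.K u) ≤ 0 := not_lt.1 hc
      nlinarith
  · intro G _ ρ H h1 h2 h3 k hk
    have hI := thm_wind S.Q S.V I S.X L F E hX hL1 hE G ρ (fun i => H (F.gen i))
      (fun t i h hh => by rw [F.gen_smul]; exact h1 _ ⟨i, rfl⟩ t h hh)
      (fun i h hh => by rw [hm]; exact h2 _ ⟨i, rfl⟩ h hh) (fun i h hh => h3 _ ⟨i, rfl⟩ h hh)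
    have hk' : k ∈ ⨆ i, H (F.gen i) := by
      refine (iSup_le ?_ : (⨆ g : {g // ∃ i, F.gen i = g}, H g) ≤ ⨆ i, H (F.gen i)) hk
      rintro ⟨_, i, rfl⟩
      exact le_iSup (fun i => H (F.gen i)) i
    refine hI S.o (fun k => ρ k = 1 → k = 1) (fun _ => rfl) ?_ k hk'
    intro k _ i y _ hb _ hk
    rw [hk, one_smul, sub_self, abs_zero] at hb
    nlinarith

end Pool.Agent.SCZ.Grp
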