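import Pool.Agent.SCZ.Grp.Moves

set_option autoImplicit false

/-!
# Towers and their limits
-/

namespace Pool.Agent.SCZ.Grp

open Pool.Agent.H59Z.NA Pool.Agent.SCZ

variable {Γ : Type} [Group Γ]

/-- An infinite sequence of steps. -/
structure Tower (Γ : Type) [Group Γ] (s : ℕ) where
  S : ℕ → Stg Γ
  P : ∀ k, (S k).Q → Prop
  m : ∀ k, (S k).Q → ℕ
  T : ∀ k, Step (S k) (S (k + 1)) (P k) (m k) s
  ok : ∀ k, ∃ τ : ℝ, 0 < τ ∧ (S k).Ok 122 (10 ^ 9) τ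
  hs : 1000 ≤ s

theorem exists_tower {s : ℕ} (hs : 1000 ≤ s) (S₀ : Stg Γ) (Inv : ℕ → Stg Γ → Prop)
    (R : ℕ → ∀ S : Stg Γ, Stg Γ → (S.Q → Prop) → (S.Q → ℕ) → Prop) (h0 : Inv 0 S₀)
    (hok : ∀ k S, Inv k S → ∃ τ : ℝ, 0 < τ ∧ S.Ok 122 (10 ^ 9) τ)
    (hstep : ∀ k S, Inv k S → ∃ (S' : Stg Γ) (P : S.Q → Prop) (m : S.Q → ℕ),
      Nonempty (Step S S' P m s) ∧ Inv (k + 1) S' ∧ R k S S' P m) :
    ∃ W : Tower Γ s, W.S 0 = S₀ ∧ ∀ k, Inv k (W.S k) ∧ R k (W.S k) (W.S (k + 1)) (W.P k) (W.m k) := by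
  choose nx P m h1 h2 h3 using hstep
  let seq : ∀ k : ℕ, {S : Stg Γ // Inv k S} := fun k =>
    Nat.rec ⟨S₀, h0⟩ (fun k S => ⟨nx k S.1 S.2, h2 k S.1 S.2⟩) k
  exact ⟨⟨fun k => (seq k).1, fun k => P k _ (seq k).2, fun k => m k _ (seq k).2,
    fun k => (h1 k _ (seq k).2).some, fun k => hok k _ (seq k).2, hs⟩, rfl,
    fun k => ⟨(seq k).2, h3 k _ (seq k).2⟩⟩

namespace Step

variable {S S' : Stg Γ} {P : S.Q → Prop} {m : S.Q → ℕ} {s : ℕ} (T : Step S S' P m s)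

lemma surj : Function.Surjective T.β := by
  intro q
  obtain ⟨γ, rfl⟩ := S'.surj q
  exact ⟨S.π γ, T.β_π γ⟩

lemma mv {p : S.V} {u : S.Q} {r : ℕ} (hr : 1 ≤ r) (h : S.X.d p (u • p) ≤ r) :
    S'.X.d (T.φ p) (T.β u • T.φ p) ≤ r := by
  rw [← T.φ_smul]
  rcases T.contr p (u • p) with h1 | h1 <;> omega

lemma sm {p : S.V} {u : S.Q} {r : ℕ} (hr : 1 ≤ r) (h : Sm S.X r p u) :
    Sm S'.X r (T.φ p) (T.β u) :=
  ⟨T.mv hr h.1, by rw [← map_mul]; exact T.mv hr h.2⟩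

lemma bdd_map {H : Subgroup S.Q} (h : Bdd S.X H) : Bdd S'.X (H.map T.β) := by
  obtain ⟨p, r, hr⟩ := h
  refine ⟨T.φ p, r + 1, ?_⟩
  rintro _ ⟨u, hu, rfl⟩
  exact T.mv (by omega) ((hr u hu).trans (by omega))

end Step

lemma Bdd.mono {V : Type} {X : GM V} {Q : Type} [Group Q] [MulAction Q V] {H H' : Subgroup Q}
    (h : Bdd X H) (hle : H' ≤ H) : Bdd X H' := by
  obtain ⟨p, r, hr⟩ := h
  exact ⟨p, r, fun u hu => hr u (hle hu)⟩

lemma bdd_of_finite {V : Type} (X : GM V) {Q : Type} [Group Q] [MulAction Q V] (p : V)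
    {H : Subgroup Q} (h : (H : Set Q).Finite) : Bdd X H := by
  obtain ⟨r, hr⟩ := (h.image (fun u => X.d p (u • p))).bddAbove
  exact ⟨p, r, fun u hu => hr ⟨u, hu, rfl⟩⟩

lemma Bdd.conj {V : Type} {X : GM V} {Q : Type} [Group Q] [MulAction Q V] (hX : X.Inv Q)
    {H H' : Subgroup Q} (h : Bdd X H) (k : Q) (hk : ∀ u ∈ H', k * u * k⁻¹ ∈ H) : Bdd X H' := by
  obtain ⟨p, r, hr⟩ := h
  refine ⟨k⁻¹ • p, r, fun u hu => ?_⟩
  have := hr _ (hk u hu)
  rwa [← hX k⁻¹, mul_smul, mul_smul, inv_smul_smul] at this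

lemma d_mul {V : Type} {X : GM V} {Q : Type} [Group Q] [MulAction Q V] (hX : X.Inv Q) (p : V)
    (a b : Q) : X.d p ((a * b) • p) ≤ X.d p (a • p) + X.d p (b • p) := by
  have := X.tri p (a • p) ((a * b) • p)
  rwa [mul_smul, hX, ← mul_smul] at this

lemma d_inv {V : Type} {X : GM V} {Q : Type} [Group Q] [MulAction Q V] (hX : X.Inv Q) (p : V)
    (a : Q) : X.d p (a⁻¹ • p) = X.d p (a • p) := by
  rw [← hX a, smul_inv_smul, X.comm]

lemma Stg.Ok.tau_bdd {S : Stg Γ} {δ A : ℕ} {τ₀ : ℝ} (hS : S.Ok δ A τ₀) {H : Subgroup S.Q}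
    (h : Bdd S.X H) {g : S.Q} (hg : g ∈ H) : S.X.tau g = 0 :=
  (basicH S.Q S.V S.X δ S.inv hS.four).2.2.1 g (h.mono (Subgroup.zpowers_le.2 hg))

lemma tau_pos_of_mem {S : Stg Γ} {g u : S.Q} (hg : 0 < S.X.tau g) (hu : u ∈ Subgroup.zpowers g)
    (h1 : u ≠ 1) : 0 < S.X.tau u := by
  obtain ⟨k, rfl⟩ := Subgroup.mem_zpowers_iff.1 hu
  have hk : k ≠ 0 := by rintro rfl; exact h1 (zpow_zero g)
  rw [(thm_tau S.Q S.V S.X S.inv).2.2.2.1]
  exact mul_pos (abs_pos.2 (by exact_mod_cast hk)) hg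

lemma zpow_ne_one_of_tau {S : Stg Γ} {g : S.Q} (hg : 0 < S.X.tau g) {k : ℤ} (h : g ^ k = 1) :
    k = 0 := by
  have h1 := (thm_tau S.Q S.V S.X S.inv).2.2.2.1 g k
  have h2 := (thm_tau S.Q S.V S.X S.inv).2.2.2.1 g 0
  rw [h] at h1
  rw [zpow_zero, h1] at h2
  simp only [Int.cast_zero, abs_zero, zero_mul, mul_eq_zero, abs_eq_zero, Int.cast_eq_zero] at h2
  exact h2.resolve_right hg.ne'

namespace Tower

variable {s : ℕ} (W : Tower Γ s)

/-- the kernel of the limit -/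
def N : Subgroup Γ where
  carrier := {γ | ∃ k, ∀ j, k ≤ j → (W.S j).π γ = 1}
  one_mem' := ⟨0, fun _ _ => map_one _⟩
  mul_mem' := by
    rintro a b ⟨k, hk⟩ ⟨k', hk'⟩
    exact ⟨max k k', fun j hj => by
      rw [map_mul, hk j (le_of_max_le_left hj), hk' j (le_of_max_le_right hj), one_mul]⟩
  inv_mem' := by
    rintro a ⟨k, hk⟩
    exact ⟨k, fun j hj => by rw [map_inv, hk j hj, inv_one]⟩

instance : W.N.Normal := ⟨by
  rintro a ⟨k, hk⟩ g
  exact ⟨k, fun j hj => by simp [hk j hj]⟩⟩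

/-- the limit group -/
abbrev G : Type := Γ ⧸ W.N

/-- the projection to the limit -/
def lim : Γ →* W.G := QuotientGroup.mk' W.N

lemma lim_surj : Function.Surjective W.lim := QuotientGroup.mk'_surjective _

lemma eq_up {k j : ℕ} (h : k ≤ j) {a b : Γ} (e : (W.S k).π a = (W.S k).π b) :
    (W.S j).π a = (W.S j).π b := by
  induction j, h using Nat.le_induction with
  | base => exact e
  | succ j _ ih => rw [← (W.T j).β_π, ← (W.T j).β_π, ih]

lemma one_up {k j : ℕ} (h : k ≤ j) {a : Γ} (e : (W.S k).π a = 1) : (W.S j).π a = 1 := by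
  have := W.eq_up h (a := a) (b := 1) (by rw [e, map_one])
  rwa [map_one] at this

lemma lim_eq_one {a : Γ} : W.lim a = 1 ↔ ∃ k, (W.S k).π a = 1 := by
  rw [lim, QuotientGroup.mk'_apply, QuotientGroup.eq_one_iff]
  exact ⟨fun ⟨k, hk⟩ => ⟨k, hk k le_rfl⟩, fun ⟨k, hk⟩ => ⟨k, fun j hj => W.one_up hj hk⟩⟩

lemma lim_eq {a b : Γ} : W.lim a = W.lim b ↔ ∃ k, (W.S k).π a = (W.S k).π b := by
  rw [← mul_inv_eq_one, ← map_inv, ← map_mul, lim_eq_one]
  simp only [map_mul, map_inv, mul_inv_eq_one]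

lemma lim_eq' {a b : Γ} (h : W.lim a = W.lim b) (k : ℕ) :
    ∃ j, k ≤ j ∧ (W.S j).π a = (W.S j).π b := by
  obtain ⟨i, hi⟩ := W.lim_eq.1 h
  exact ⟨max k i, le_max_left _ _, W.eq_up (le_max_right _ _) hi⟩

/-- the map from a stage to the limit -/
noncomputable def lam (k : ℕ) : (W.S k).Q →* W.G :=
  MonoidHom.liftOfRightInverse (W.S k).π (Function.surjInv (W.S k).surj)
    (Function.rightInverse_surjInv _) ⟨W.lim, fun _ h => W.lim_eq_one.2 ⟨k, h⟩⟩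

lemma lam_π (k : ℕ) (γ : Γ) : W.lam k ((W.S k).π γ) = W.lim γ :=
  MonoidHom.liftOfRightInverse_comp_apply _ _ _ _ _

lemma lam_β (k : ℕ) (q : (W.S k).Q) : W.lam (k + 1) ((W.T k).β q) = W.lam k q := by
  obtain ⟨γ, rfl⟩ := (W.S k).surj q
  rw [(W.T k).β_π, lam_π, lam_π]

lemma lam_surj (k : ℕ) : Function.Surjective (W.lam k) := by
  intro g
  obtain ⟨γ, rfl⟩ := W.lim_surj g
  exact ⟨_, W.lam_π k γ⟩

/-- displacement of the base point -/
def dp (k : ℕ) (γ : Γ) : ℕ := (W.S k).X.d (W.S k).o ((W.S k).π γ • (W.S k).o)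

lemma dp_succ (k : ℕ) (γ : Γ) : W.dp (k + 1) γ ≤ 1 ∨ W.dp (k + 1) γ < W.dp k γ := by
  unfold dp
  rw [← (W.T k).φ_o, ← (W.T k).β_π, ← (W.T k).φ_smul]
  exact (W.T k).contr _ _

lemma dp_le {k j r : ℕ} (h : k ≤ j) (hr : 1 ≤ r) {γ : Γ} (e : W.dp k γ ≤ r) : W.dp j γ ≤ r := by
  induction j, h using Nat.le_induction with
  | base => exact e
  | succ j _ ih => have := W.dp_succ j γ; omega

lemma dp_small (γ : Γ) : ∀ j, W.dp 0 γ ≤ j → W.dp j γ ≤ 1 := by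
  have h : ∀ j, W.dp j γ ≤ 1 ∨ W.dp j γ + j ≤ W.dp 0 γ := by
    intro j
    induction j with
    | zero => omega
    | succ j ih => have := W.dp_succ j γ; omega
  intro j hj
  have := h j
  omega

/-- the elements of `U` are small at a common point of stage `k` -/
def SmU (k : ℕ) (U : Set Γ) : Prop := ∃ p, ∀ γ ∈ U, Sm (W.S k).X s p ((W.S k).π γ)

lemma SmU.up {W : Tower Γ s} {k j : ℕ} {U : Set Γ} (e : W.SmU k U) (h : k ≤ j) : W.SmU j U := by
  induction j, h using Nat.le_induction with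
  | base => exact e
  | succ j _ ih =>
    obtain ⟨p, hp⟩ := ih
    refine ⟨(W.T j).φ p, fun γ hγ => ?_⟩
    rw [← (W.T j).β_π]
    exact (W.T j).sm (by have := W.hs; omega) (hp γ hγ)

lemma smU_of_finite {U : Set Γ} (hU : U.Finite) : ∃ k, W.SmU k U := by
  obtain ⟨r, hr⟩ := (hU.image (W.dp 0)).bddAbove
  refine ⟨r, (W.S r).o, fun γ hγ => ?_⟩
  have h1 := W.dp_small γ r (hr ⟨γ, hγ, rfl⟩)
  have h2 := d_mul (W.S r).inv (W.S r).o ((W.S r).π γ) ((W.S r).π γ)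
  have := W.hs
  unfold dp at h1
  exact ⟨by omega, by omega⟩

lemma smU_of_bdd {k : ℕ} {U : Set Γ} {H : Subgroup (W.S k).Q} (h : Bdd (W.S k).X H)
    (hU : ∀ γ ∈ U, (W.S k).π γ ∈ H) : W.SmU k U := by
  obtain ⟨τ, -, hS⟩ := W.ok k
  obtain ⟨q, hq⟩ := fix_holds _ _ (W.S k).X 122 (W.S k).inv hS.four H h
  have := W.hs
  exact ⟨q, fun γ hγ => ⟨(hq _ (hU γ hγ)).trans (by omega),
    (hq _ (H.mul_mem (hU γ hγ) (hU γ hγ))).trans (by omega)⟩⟩

/-- elements of small displacement survive -/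
theorem inj_up {k j : ℕ} (h : k ≤ j) {γ : Γ} {p : (W.S k).V}
    (hd : (W.S k).X.d p ((W.S k).π γ • p) ≤ 10 ^ 6 * s) (e : (W.S j).π γ = 1) :
    (W.S k).π γ = 1 := by
  have key : ∀ j, k ≤ j → (∃ p : (W.S j).V, (W.S j).X.d p ((W.S j).π γ • p) ≤ 10 ^ 6 * s) ∧
      ((W.S j).π γ = 1 → (W.S k).π γ = 1) := by
    intro j h
    induction j, h using Nat.le_induction with
    | base => exact ⟨⟨p, hd⟩, id⟩
    | succ j _ ih =>
      obtain ⟨⟨q, hq⟩, h2⟩ := ih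
      refine ⟨⟨(W.T j).φ q, ?_⟩, fun e => h2 ((W.T j).inj _ q (by rw [(W.T j).β_π, e]) hq)⟩
      rw [← (W.T j).β_π]
      exact (W.T j).mv (by have := W.hs; omega) hq
  exact (key j h).2 e

theorem inj_lim {k : ℕ} {q : (W.S k).Q} {p : (W.S k).V}
    (hd : (W.S k).X.d p (q • p) ≤ 10 ^ 6 * s) (e : W.lam k q = 1) : q = 1 := by
  obtain ⟨γ, rfl⟩ := (W.S k).surj q
  rw [lam_π] at e
  obtain ⟨j, hj, e2⟩ := W.lim_eq' (b := 1) (e.trans (map_one _).symm) k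
  exact W.inj_up hj hd (by rw [e2, map_one])

/-- bounded subgroups embed in the limit -/
theorem inj_bdd {k : ℕ} {H : Subgroup (W.S k).Q} (h : Bdd (W.S k).X H) {q : (W.S k).Q}
    (hq : q ∈ H) (e : W.lam k q = 1) : q = 1 := by
  obtain ⟨τ, -, hS⟩ := W.ok k
  obtain ⟨p, hp⟩ := fix_holds _ _ (W.S k).X 122 (W.S k).inv hS.four H h
  have := W.hs
  exact W.inj_lim (p := p) ((hp q hq).trans (by omega)) e

theorem commute_down {k : ℕ} {a b : Γ} (hs : W.SmU k {a, b})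
    (h : Commute (W.lim a) (W.lim b)) : Commute ((W.S k).π a) ((W.S k).π b) := by
  obtain ⟨p, hp⟩ := hs
  have ha := (hp a (by simp)).1
  have hb := (hp b (by simp)).1
  have hX := (W.S k).inv
  set x := (W.S k).π a with hx
  set y := (W.S k).π b with hy
  have h1 := d_mul hX p (x * y * x⁻¹) y⁻¹
  have h2 := d_mul hX p (x * y) x⁻¹
  have h3 := d_mul hX p x y
  rw [d_inv hX] at h1 h2
  have h4 : x * y * x⁻¹ * y⁻¹ = 1 := W.inj_lim (p := p) (by omega) (by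
    simp only [map_mul, map_inv, hx, hy, lam_π]
    rw [h.eq]; group)
  rw [mul_inv_eq_one, mul_inv_eq_iff_eq_mul] at h4
  exact h4

/-- the elements of `U` lie in a cyclic group which is made finite at step `i` -/
def Killed (i : ℕ) (U : Set Γ) : Prop :=
  ∃ g, W.P i g ∧ 1 < W.m i g ∧ ∀ γ ∈ U, (W.S i).π γ ∈ Subgroup.zpowers g

theorem conj_up {k j : ℕ} (h : k ≤ j) (T : Set (Γ × Γ)) (h1 : W.SmU k (Prod.fst '' T))
    (h2 : W.SmU k (Prod.snd '' T)) (a : Γ)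
    (e : ∀ t ∈ T, (W.S j).π (a * t.1 * a⁻¹) = (W.S j).π t.2) :
    (∃ a', (W.S j).π a' = (W.S j).π a ∧ ∀ t ∈ T, (W.S k).π (a' * t.1 * a'⁻¹) = (W.S k).π t.2) ∨
      ∃ i, k ≤ i ∧ W.Killed i (Prod.fst '' T) := by
  induction j, h using Nat.le_induction generalizing a with
  | base => exact Or.inl ⟨a, rfl, e⟩
  | succ j hj ih =>
    obtain ⟨p, hp⟩ := h1.up hj
    obtain ⟨p', hp'⟩ := h2.up hj
    rcases (W.T j).conj ((fun t : Γ × Γ => ((W.S j).π t.1, (W.S j).π t.2)) '' T) p p'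
      ((W.S (j + 1)).π a) (by
        rintro _ ⟨t, ht, rfl⟩
        refine ⟨hp _ ⟨t, ht, rfl⟩, hp' _ ⟨t, ht, rfl⟩, ?_⟩
        simp only [(W.T j).β_π]
        rw [← e t ht, map_mul, map_mul, map_inv]) with ⟨b, hb1, hb2⟩ | ⟨g, g1, g2, g3⟩
    · obtain ⟨b, rfl⟩ := (W.S j).surj b
      rcases ih b (fun t ht => by
        rw [map_mul, map_mul, map_inv]; exact hb2 _ ⟨t, ht, rfl⟩) with ⟨a', e1, e2⟩ | h
      · refine Or.inl ⟨a', ?_, e2⟩
        rw [← hb1, ← e1, (W.T j).β_π]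
      · exact Or.inr h
    · refine Or.inr ⟨j, hj, g, g1, g2, ?_⟩
      rintro _ ⟨t, ht, rfl⟩
      exact g3 _ ⟨t, ht, rfl⟩

/-- conjugacies in the limit between finitely many small elements lift -/
theorem conj_lim {k : ℕ} (T : Set (Γ × Γ)) (hT : T.Finite) (h1 : W.SmU k (Prod.fst '' T))
    (h2 : W.SmU k (Prod.snd '' T)) (a : Γ) (e : ∀ t ∈ T, W.lim (a * t.1 * a⁻¹) = W.lim t.2) :
    (∃ a', W.lim a' = W.lim a ∧ ∀ t ∈ T, (W.S k).π (a' * t.1 * a'⁻¹) = (W.S k).π t.2) ∨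
      ∃ i, k ≤ i ∧ W.Killed i (Prod.fst '' T) := by
  have h3 : ∀ t : Γ × Γ, ∃ j, t ∈ T → (W.S j).π (a * t.1 * a⁻¹) = (W.S j).π t.2 := by
    intro t
    by_cases ht : t ∈ T
    · obtain ⟨j, hj⟩ := W.lim_eq.1 (e t ht)
      exact ⟨j, fun _ => hj⟩
    · exact ⟨0, fun h => absurd h ht⟩
  choose f hf using h3
  obtain ⟨r, hr⟩ := (hT.image f).bddAbove
  rcases W.conj_up (le_max_left k r) T h1 h2 a (fun t ht =>
    W.eq_up ((hr ⟨t, ht, rfl⟩).trans (le_max_right k r)) (hf t ht)) with ⟨a', e1, e2⟩ | h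
  · exact Or.inl ⟨a', W.lim_eq.2 ⟨_, e1⟩, e2⟩
  · exact Or.inr h

lemma bdd_up {k j : ℕ} (h : k ≤ j) {H : Subgroup Γ} (e : Bdd (W.S k).X (H.map (W.S k).π)) :
    Bdd (W.S j).X (H.map (W.S j).π) := by
  induction j, h using Nat.le_induction with
  | base => exact e
  | succ j _ ih =>
    refine ((W.T j).bdd_map ih).mono ?_
    rintro _ ⟨γ, hγ, rfl⟩
    exact ⟨_, ⟨γ, hγ, rfl⟩, (W.T j).β_π γ⟩

/-- nontrivial elliptic elements are never killed -/
lemma not_killed {k i : ℕ} (h : k ≤ i) {u : Γ} (hu : (W.S k).π u ≠ 1)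
    (hb : Bdd (W.S k).X (Subgroup.zpowers ((W.S k).π u))) {U : Set Γ} (hU : u ∈ U) :
    ¬ W.Killed i U := by
  rintro ⟨g, g1, -, g3⟩
  have h1 := W.bdd_up h (H := Subgroup.zpowers u) (by rwa [MonoidHom.map_zpowers])
  obtain ⟨τ, -, hS⟩ := W.ok i
  have h2 := hS.tau_bdd h1 (g := (W.S i).π u) ⟨u, Subgroup.mem_zpowers u, rfl⟩
  have h3 := tau_pos_of_mem ((W.T i).P_lox g g1).1 (g3 u hU) (fun e =>
    hu (W.inj_bdd hb (Subgroup.mem_zpowers _) (by rw [lam_π]; exact W.lim_eq_one.2 ⟨i, e⟩)))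
  linarith

/-- conjugacies between elliptic elements lift; in particular centralisers lift -/
theorem conj_ell {k : ℕ} {u u' : (W.S k).Q} (hu : Bdd (W.S k).X (Subgroup.zpowers u))
    (hu' : Bdd (W.S k).X (Subgroup.zpowers u')) (a : W.G)
    (e : a * W.lam k u * a⁻¹ = W.lam k u') (h1 : u ≠ 1) :
    ∃ a', W.lam k a' = a ∧ a' * u * a'⁻¹ = u' := by
  obtain ⟨u, rfl⟩ := (W.S k).surj u
  obtain ⟨u', rfl⟩ := (W.S k).surj u'
  obtain ⟨a, rfl⟩ := W.lim_surj a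
  rcases W.conj_lim (k := k) {(u, u')} (Set.finite_singleton _)
    (W.smU_of_bdd hu (by simp)) (W.smU_of_bdd hu' (by simp)) a (by
      rintro _ rfl
      rw [lam_π, lam_π] at e
      rw [map_mul, map_mul, map_inv, e]) with ⟨a', e1, e2⟩ | ⟨i, hi, h⟩
  · refine ⟨(W.S k).π a', by rw [lam_π, e1], ?_⟩
    have := e2 _ rfl
    rwa [map_mul, map_mul, map_inv] at this
  · exact absurd h (W.not_killed hi h1 hu (by simp))

/-- bounded subgroups descend to the first stage or are cyclic -/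
theorem bdd_down (k : ℕ) (H : Subgroup (W.S k).Q) (h : Bdd (W.S k).X H) :
    (∃ (i : ℕ) (g : (W.S i).Q), W.P i g ∧ H.map (W.lam k) ≤ Subgroup.zpowers (W.lam i g)) ∨
      ∃ H₀ : Subgroup (W.S 0).Q, Bdd (W.S 0).X H₀ ∧ H₀.map (W.lam 0) = H.map (W.lam k) := by
  induction k with
  | zero => exact Or.inr ⟨H, h, rfl⟩
  | succ k ih =>
    rcases (W.T k).bdd H h with ⟨g, g1, g2⟩ | ⟨H', h1, h2, -, -⟩
    · refine Or.inl ⟨k, g, g1, ?_⟩
      rw [← lam_β, ← MonoidHom.map_zpowers]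
      exact Subgroup.map_mono g2
    · have e : H.map (W.lam (k + 1)) = H'.map (W.lam k) := by
        rw [← h2, Subgroup.map_map]
        congr 1
        exact MonoidHom.ext (W.lam_β k)
      rw [e]
      exact ih H' h1

/-- finite subgroups of the limit come from a finite stage -/
theorem finite_lift (F : Subgroup W.G) (hF : (F : Set W.G).Finite) :
    ∃ (k : ℕ) (H : Subgroup (W.S k).Q), (H : Set (W.S k).Q).Finite ∧ H.map (W.lam k) = F := by
  let σ : W.G → Γ := Function.surjInv W.lim_surj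
  have hσ : ∀ g, W.lim (σ g) = g := Function.rightInverse_surjInv _
  have h3 : ∀ t : W.G × W.G, ∃ j, (W.S j).π (σ t.1 * σ t.2) = (W.S j).π (σ (t.1 * t.2)) :=
    fun t => W.lim_eq.1 (by rw [map_mul, hσ, hσ, hσ])
  choose f hf using h3
  obtain ⟨r, hr⟩ := ((hF.prod hF).image f).bddAbove
  have hm : ∀ a ∈ F, ∀ b ∈ F, (W.S r).π (σ a) * (W.S r).π (σ b) = (W.S r).π (σ (a * b)) := by
    intro a ha b hb
    rw [← map_mul]
    exact W.eq_up (hr ⟨(a, b), ⟨ha, hb⟩, rfl⟩) (hf (a, b))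
  have h1 : (W.S r).π (σ 1) = 1 := by
    have := hm 1 F.one_mem 1 F.one_mem
    rw [mul_one] at this
    exact mul_eq_left.1 this
  refine ⟨r,
    { carrier := (fun a => (W.S r).π (σ a)) '' (F : Set W.G)
      one_mem' := ⟨1, F.one_mem, h1⟩
      mul_mem' := by
        rintro _ _ ⟨a, ha, rfl⟩ ⟨b, hb, rfl⟩
        exact ⟨a * b, F.mul_mem ha hb, (hm a ha b hb).symm⟩
      inv_mem' := by
        rintro _ ⟨a, ha, rfl⟩
        refine ⟨a⁻¹, F.inv_mem ha, ?_⟩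
        have := hm a⁻¹ (F.inv_mem ha) a ha
        rw [inv_mul_cancel, h1] at this
        exact eq_inv_of_mul_eq_one_left this }, hF.image _, ?_⟩
  ext g
  constructor
  · rintro ⟨_, ⟨a, ha, rfl⟩, rfl⟩
    rw [lam_π, hσ]; exact ha
  · intro hg
    exact ⟨_, ⟨g, hg, rfl⟩, by rw [lam_π, hσ]⟩

/-- finite subgroups of the limit -/
theorem finite_sub (F : Subgroup W.G) (hF : (F : Set W.G).Finite) :
    (∃ (i : ℕ) (g : (W.S i).Q), W.P i g ∧ F ≤ Subgroup.zpowers (W.lam i g)) ∨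
      ∃ H₀ : Subgroup (W.S 0).Q, Bdd (W.S 0).X H₀ ∧ H₀.map (W.lam 0) = F := by
  obtain ⟨k, H, h1, rfl⟩ := W.finite_lift F hF
  exact W.bdd_down k H (bdd_of_finite _ (W.S k).o h1)

/-- the order of a killed element -/
theorem ord_lim {i : ℕ} {g : (W.S i).Q} (hg : W.P i g) (j : ℤ) :
    W.lam i g ^ j = 1 ↔ (W.m i g : ℤ) ∣ j := by
  constructor
  · intro h
    refine (W.T i).ord g hg j (W.inj_bdd ((W.T i).kbdd g hg) ?_ ?_)
    · rw [map_zpow]; exact Subgroup.zpow_mem_zpowers _ _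
    · rw [lam_β, map_zpow, h]
  · rintro ⟨c, rfl⟩
    rw [zpow_mul, zpow_natCast, ← map_pow, ← lam_β, (W.T i).rel g hg, map_one, one_zpow]

/-- the centraliser of a power of a killed element -/
theorem cent_lim {i : ℕ} {g : (W.S i).Q} (hg : W.P i g) {f : W.G}
    (hf : f ∈ Subgroup.zpowers (W.lam i g)) (h1 : f ≠ 1) (t : W.G)
    (ht : t * f * t⁻¹ ∈ Subgroup.zpowers (W.lam i g)) : t ∈ Subgroup.zpowers (W.lam i g) := by
  obtain ⟨a, rfl⟩ := Subgroup.mem_zpowers_iff.1 hf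
  obtain ⟨b, hb⟩ := Subgroup.mem_zpowers_iff.1 ht
  have hb0 := (W.T i).kbdd g hg
  have hz : ∀ c : ℤ, Bdd (W.S (i + 1)).X (Subgroup.zpowers ((W.T i).β g ^ c)) := fun c =>
    hb0.mono (Subgroup.zpowers_le.2 (Subgroup.zpow_mem_zpowers _ _))
  have hne : (W.T i).β g ^ a ≠ 1 := fun e => h1 (by rw [← lam_β, ← map_zpow, e, map_one])
  obtain ⟨t', rfl, e⟩ := W.conj_ell (hz a) (hz b) t
    (by rw [map_zpow, map_zpow, lam_β, hb]) hne
  have := (W.T i).cent g hg _ (Subgroup.zpow_mem_zpowers _ a) hne t'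
    (by rw [e]; exact Commute.zpow_zpow_self _ _ _)
  rw [← lam_β, ← MonoidHom.map_zpowers]
  exact Subgroup.mem_map_of_mem _ this

/-- unbounded non-commutative subgroups generated by small elements stay unbounded -/
theorem unb_up {k j : ℕ} (h : k ≤ j) {U : Set Γ} (hU : W.SmU k U) {a b : Γ} (ha : a ∈ U)
    (hb : b ∈ U) (hab : ¬ Commute ((W.S k).π a) ((W.S k).π b))
    (hB : ¬ Bdd (W.S k).X ((Subgroup.closure U).map (W.S k).π)) :
    ¬ Bdd (W.S j).X ((Subgroup.closure U).map (W.S j).π) := by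
  have hnc : ∀ (i : ℕ) (g : (W.S i).Q), (W.S i).π a ∈ Subgroup.zpowers g →
      (W.S i).π b ∈ Subgroup.zpowers g → False := by
    intro i g h1 h2
    obtain ⟨p, hp⟩ := hU
    refine hab (W.commute_down ⟨p, fun γ hγ => hp γ (by rcases hγ with rfl | rfl <;> assumption)⟩ ?_)
    rw [← W.lam_π i, ← W.lam_π i]
    exact (Tstep.commute_of_zpowers h1 h2).map _
  induction j, h using Nat.le_induction with
  | base => exact hB
  | succ j hj ih =>
    intro hb'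
    rcases (W.T j).bdd _ hb' with ⟨g, -, g2⟩ | ⟨H, h1, -, -, h4⟩
    · exact hnc (j + 1) _ (g2 ⟨a, Subgroup.subset_closure ha, rfl⟩)
        (g2 ⟨b, Subgroup.subset_closure hb, rfl⟩)
    · obtain ⟨p, hp⟩ := hU.up hj
      rcases h4 ((W.S j).π '' U) p (by
        rintro _ ⟨γ, hγ, rfl⟩
        exact ⟨hp γ hγ, γ, Subgroup.subset_closure hγ, ((W.T j).β_π γ).symm⟩) with
        ⟨c, -, hc⟩ | ⟨g, -, -, g3⟩
      · refine ih (h1.conj (W.S j).inv c ?_)
        rw [MonoidHom.map_closure]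
        intro u hu
        have : (Subgroup.closure ((W.S j).π '' U)) ≤ H.comap (MulAut.conj c).toMonoidHom := by
          rw [Subgroup.closure_le]
          intro x hx
          exact hc x hx
        exact this hu
      · exact hnc j g (g3 _ ⟨a, ha, rfl⟩) (g3 _ ⟨b, hb, rfl⟩)

/-- small loxodromic elements which are never killed stay loxodromic -/
theorem lox_up {k j : ℕ} (h : k ≤ j) {u : Γ} (hu : W.SmU k {u})
    (hτ : 0 < (W.S k).X.tau ((W.S k).π u)) (hk : ∀ i, k ≤ i → ¬ W.Killed i {u}) :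
    0 < (W.S j).X.tau ((W.S j).π u) := by
  induction j, h using Nat.le_induction with
  | base => exact hτ
  | succ j hj ih =>
    obtain ⟨p, hp⟩ := hu.up hj
    have hd := (hp u rfl).1
    rcases (W.T j).lox _ p hd ih with h | ⟨g, g1, g2⟩
    · rwa [(W.T j).β_π] at h
    · exfalso
      have h1 := ((W.T j).P_lox g g1).2.1
      by_cases h2 : 1 < W.m j g
      · exact hk j hj ⟨g, g1, h2, by rintro _ rfl; exact g2⟩
      · have h3 := (W.T j).rel g g1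
        rw [show W.m j g = 1 by omega, pow_one] at h3
        obtain ⟨e, he⟩ := Subgroup.mem_zpowers_iff.1 g2
        have h4 := (W.T j).inj ((W.S j).π u) p (by rw [← he, map_zpow, h3, one_zpow]) (by omega)
        have h5 := zpow_ne_one_of_tau ih (k := 1) (by rw [zpow_one, h4])
        omega

theorem lox_lim {k : ℕ} {u : Γ} (hu : W.SmU k {u})
    (hτ : 0 < (W.S k).X.tau ((W.S k).π u)) (hk : ∀ i, k ≤ i → ¬ W.Killed i {u}) :
    (∀ e : ℤ, W.lim u ^ e = 1 → e = 0) ∧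
    ∀ a : W.G, Commute a (W.lim u) → ∃ a', W.lam k a' = a ∧ Commute a' ((W.S k).π u) := by
  constructor
  · intro e he
    obtain ⟨j, hj, h⟩ := W.lim_eq' (a := u ^ e) (b := 1) (by rw [map_zpow, he, map_one]) k
    rw [map_zpow, map_one] at h
    exact zpow_ne_one_of_tau (W.lox_up hj hu hτ hk) h
  · intro a ha
    obtain ⟨a, rfl⟩ := W.lim_surj a
    rcases W.conj_lim (k := k) {(u, u)} (Set.finite_singleton _) (by simpa using hu)
      (by simpa using hu) a (by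
        rintro _ rfl
        rw [map_mul, map_mul, map_inv, ha.eq, mul_inv_cancel_right]) with ⟨a', e1, e2⟩ | ⟨i, hi, h⟩
    · refine ⟨(W.S k).π a', by rw [lam_π, e1], ?_⟩
      have := e2 _ rfl
      rw [map_mul, map_mul, map_inv, mul_inv_eq_iff_eq_mul] at this
      exact this
    · exact absurd (by simpa using h) (hk i hi)

/-- the limit has no involutions -/
theorem noinv_lim (t : W.G) (h : t ^ 2 = 1) : t = 1 := by
  obtain ⟨t, rfl⟩ := W.lim_surj t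
  obtain ⟨k, hk⟩ := W.lim_eq_one.1 ((map_pow W.lim t 2).trans h)
  obtain ⟨τ, -, hS⟩ := W.ok k
  exact W.lim_eq_one.2 ⟨k, hS.noinv _ (by rw [← map_pow, hk])⟩

/-- Classification of the elements of the limit: elliptic at the start, a power of a killed element,
or loxodromic for ever. -/
theorem classify (γ : Γ) :
    (∃ u : (W.S 0).Q, Bdd (W.S 0).X (Subgroup.zpowers u) ∧ W.lam 0 u = W.lim γ) ∨
    (∃ (i : ℕ) (g : (W.S i).Q), W.P i g ∧ W.lim γ ∈ Subgroup.zpowers (W.lam i g)) ∨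
    ∀ k, 0 < (W.S k).X.tau ((W.S k).π γ) := by
  by_cases h : ∀ k, 0 < (W.S k).X.tau ((W.S k).π γ)
  · exact Or.inr (Or.inr h)
  push Not at h
  obtain ⟨k, hk⟩ := h
  obtain ⟨τ, hτ, hS⟩ := W.ok k
  rcases hS.dich ((W.S k).π γ) with h1 | h1
  · have hm : W.lim γ ∈ (Subgroup.zpowers ((W.S k).π γ)).map (W.lam k) :=
      ⟨_, Subgroup.mem_zpowers _, W.lam_π k γ⟩
    rcases W.bdd_down k _ h1 with ⟨i, g, g1, g2⟩ | ⟨H₀, h2, h3⟩
    · exact Or.inr (Or.inl ⟨i, g, g1, g2 hm⟩)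
    · rw [← h3] at hm
      obtain ⟨u, hu, e⟩ := hm
      exact Or.inl ⟨u, h2.mono (Subgroup.zpowers_le.2 hu), e⟩
  · linarith

/-- centraliser of an element which is loxodromic for ever -/
theorem cent_lox {γ : Γ} (h : ∀ k, 0 < (W.S k).X.tau ((W.S k).π γ)) :
    (∀ e : ℤ, W.lim γ ^ e = 1 → e = 0) ∧
    (∃ c : W.G, ∀ a, Commute a (W.lim γ) → a ∈ Subgroup.zpowers c) ∧
    ∀ t : W.G, Commute (W.lim γ) (t * W.lim γ * t⁻¹) → Commute t (W.lim γ) := by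
  obtain ⟨k, hk⟩ := W.smU_of_finite (Set.finite_singleton γ)
  have hnk : ∀ i, k ≤ i → ¬ W.Killed i {γ} := by
    rintro i - ⟨g, g1, -, g3⟩
    obtain ⟨τ, -, hS⟩ := W.ok (i + 1)
    have h1 := hS.tau_bdd ((W.T i).kbdd g g1) (g := (W.S (i + 1)).π γ) (by
      rw [← (W.T i).β_π, ← MonoidHom.map_zpowers]
      exact Subgroup.mem_map_of_mem _ (g3 γ rfl))
    have := h (i + 1)
    linarith
  obtain ⟨h1, h2⟩ := W.lox_lim hk (h k) hnk
  refine ⟨h1, ?_, ?_⟩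
  · obtain ⟨τ, -, hS⟩ := W.ok k
    obtain ⟨c, hc⟩ := hS.cyc _ (h k)
    refine ⟨W.lam k c, fun a ha => ?_⟩
    obtain ⟨a', rfl, h3⟩ := h2 a ha
    rw [← MonoidHom.map_zpowers]
    exact Subgroup.mem_map_of_mem _ (hc a' h3)
  · intro t ht
    obtain ⟨t, rfl⟩ := W.lim_surj t
    obtain ⟨j, hj⟩ := (W.lim_eq (a := γ * (t * γ * t⁻¹)) (b := t * γ * t⁻¹ * γ)).1
      (by simp only [map_mul, map_inv]; exact ht.eq)
    obtain ⟨τ, -, hS⟩ := W.ok j
    have := hS.mal _ ((W.S j).π t) (h j) (by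
      simp only [map_mul, map_inv] at hj; exact hj)
    rw [← W.lam_π j, ← W.lam_π j]
    exact this.map _

end Tower

end Pool.Agent.SCZ.Grp
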